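import Pool.Agent.Y205.FW.Step
import Pool.Agent.Y205.MD.AllV
import Pool.Agent.Y205.MD.Final
import Pool.Agent.Y665.FW.Key
import Pool.Agent.Y100.FW.Seq
import Pool.Agent.Y839.FW.Corner
import Pool.Agent.Y901.FW.Nodes

/-! **Few different multiplicities**, every degree. -/

set_option autoImplicit false

namespace Pool.Agent.Y205.FW

open Finset Pool.Agent.TH176.Nag Pool.Agent.TH603.Sur Pool.Agent.TH2.NU H932R3
open Pool.Agent.Y205.MD

/-- the critical degrees -/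
theorem crit_few {n : ℕ} {w : Fin n → ℕ} {μ r : ℕ} (hn0 : 0 < n) (hpos : ∀ p, 1 ≤ w p)
    (hμ : ∀ p, w p ≤ μ) (hr : (univ.image w).card ≤ r)
    (h1 : 1000000 * r ^ 2 * μ ^ 2 ≤ ∑ p, w p ^ 2)
    (h2 : n ^ 2 ≤ 9 * ∑ p, w p ^ 2 ∨ 2000 * n * r * μ ≤ ∑ p, w p ^ 2) {d : ℕ}
    (hT1 : d * (d + 1) < 2 * ∑ p, (w p + 1).choose 2)
    (hT2 : 2 * ∑ p, (w p + 1).choose 2 ≤ (d + 2) * (d + 3)) : Crit w d := by
  obtain ⟨D, hD⟩ : ∃ D : ℝ, D = √(∑ p, (w p : ℝ) ^ 2) := ⟨_, rfl⟩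
  have hD0 : 0 ≤ D := by rw [hD]; exact Real.sqrt_nonneg _
  have hD2 : D ^ 2 = ((∑ p, w p ^ 2 : ℕ) : ℝ) := by
    push_cast
    rw [hD, Real.sq_sqrt]
    exact sum_nonneg fun p _ => by positivity
  have hμ1 : 1 ≤ μ := (hpos ⟨0, hn0⟩).trans (hμ ⟨0, hn0⟩)
  have hr1 : 1 ≤ r := by
    have : 1 ≤ (univ.image w).card :=
      card_pos.2 ⟨w ⟨0, hn0⟩, mem_image_of_mem _ (mem_univ _)⟩
    omega
  have hrμ : (1 : ℝ) ≤ r * μ := by
    have : 1 ≤ r * μ := Nat.one_le_iff_ne_zero.2 (Nat.mul_ne_zero (by omega) (by omega))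
    exact_mod_cast this
  have g1 : 1000 * (r : ℝ) * μ ≤ D := by
    have e : (1000 * (r : ℝ) * μ) ^ 2 = ((1000000 * r ^ 2 * μ ^ 2 : ℕ) : ℝ) := by push_cast; ring
    refine le_of_sq_le_sq ?_ hD0
    rw [e, hD2]
    exact_mod_cast h1
  have hDpos : 0 < D := by linarith
  have hex : ∃ k : ℕ, (n : ℝ) ≤ (2 * 4 ^ k + 1) * D := by
    obtain ⟨k, hk⟩ := pow_unbounded_of_one_lt (n / D) (show (1 : ℝ) < 4 by norm_num)
    refine ⟨k, ?_⟩
    rw [div_lt_iff₀ hDpos] at hk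
    have : 0 ≤ (4 : ℝ) ^ k * D := by positivity
    have e : (2 * (4 : ℝ) ^ k + 1) * D = 2 * (4 ^ k * D) + D := by ring
    rw [e]
    linarith
  classical
  obtain ⟨k, hk⟩ : ∃ k, k = Nat.find hex := ⟨_, rfl⟩
  have hk1 : (n : ℝ) ≤ (2 * 4 ^ k + 1) * D := by rw [hk]; exact Nat.find_spec hex
  have hk2 : 1000 * 4 ^ k * (r : ℝ) * μ ≤ D := by
    rcases Nat.eq_zero_or_pos k with h0 | h0
    · rw [h0, pow_zero, mul_one]
      exact g1
    · obtain ⟨l, hl⟩ : ∃ l, k = l + 1 := ⟨k - 1, by omega⟩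
      have h3 : ¬ (n : ℝ) ≤ (2 * 4 ^ l + 1) * D := by
        have := Nat.find_min hex (m := l) (by omega)
        exact this
      push Not at h3
      rcases h2 with h2 | h2
      · exfalso
        have h4 : (n : ℝ) ≤ 3 * D := by
          refine le_of_sq_le_sq ?_ (by positivity)
          have e : (3 * D) ^ 2 = ((9 * ∑ p, w p ^ 2 : ℕ) : ℝ) := by
            rw [mul_pow, hD2]
            push_cast
            ring
          rw [e]
          exact_mod_cast h2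
        have h5 : (1 : ℝ) ≤ 4 ^ l := one_le_pow₀ (by norm_num)
        have h6 : 1 * D ≤ 4 ^ l * D := mul_le_mul_of_nonneg_right h5 hD0
        have e : (2 * (4 : ℝ) ^ l + 1) * D = 2 * (4 ^ l * D) + D := by ring
        rw [e] at h3
        linarith
      · have h4 : 2000 * (n : ℝ) * r * μ ≤ D ^ 2 := by
          rw [hD2]
          exact_mod_cast h2
        have h5 : D * (1000 * 4 ^ k * (r : ℝ) * μ) ≤ D * D := by
          have e : D * (1000 * 4 ^ k * (r : ℝ) * μ) =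
              2000 * ((2 * 4 ^ l + 1) * D) * (r * μ) - 2000 * D * (r * μ) := by
            rw [hl]
            ring
          have h6 : 2000 * ((2 * 4 ^ l + 1) * D) * ((r : ℝ) * μ) ≤ 2000 * n * (r * μ) := by
            apply mul_le_mul_of_nonneg_right _ (by positivity)
            linarith
          have e2 : 2000 * (n : ℝ) * (r * μ) = 2000 * n * r * μ := by ring
          have h7 : 0 ≤ 2000 * D * ((r : ℝ) * μ) := by positivity
          rw [e]
          have e3 : D * D = D ^ 2 := by ring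
          linarith
        exact le_of_mul_le_mul_left h5 hDpos
  refine crit_iter (Pool.Agent.Y100.FW.seq Pool.Agent.Y665.FW.key) Pool.Agent.Y839.FW.corner
    Pool.Agent.Y901.FW.nodes k hD hn0 hpos hμ hk1 ?_ hT1 hT2
  refine le_trans ?_ hk2
  apply mul_le_mul_of_nonneg_right _ (Nat.cast_nonneg _)
  apply mul_le_mul_of_nonneg_left _ (by positivity)
  exact_mod_cast hr

/-- **Few different multiplicities.** -/
theorem few_all {n : ℕ} {w : Fin n → ℕ} {μ r : ℕ} (hn0 : 0 < n) (hpos : ∀ p, 1 ≤ w p)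
    (hμ : ∀ p, w p ≤ μ) (hr : (univ.image w).card ≤ r)
    (h1 : 1000000 * r ^ 2 * μ ^ 2 ≤ ∑ p, w p ^ 2)
    (h2 : n ^ 2 ≤ 9 * ∑ p, w p ^ 2 ∨ 2000 * n * r * μ ≤ ∑ p, w p ^ 2) :
    ∃ F : MvPolynomial (Fin n × Fin 2) ℚ, F ≠ 0 ∧ ∀ {L : Type} [Field L] [CharZero L]
      (P : Fin n → Fin 2 → L), MvPolynomial.aeval (fun ij : Fin n × Fin 2 => P ij.1 ij.2) F ≠ 0 →
      ∀ d, ExpDim L w P d :=
  expDim_of_crit (by
    have g1 : (w ⟨0, hn0⟩ + 1).choose 2 ≤ ∑ p, (w p + 1).choose 2 :=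
      single_le_sum (f := fun p => (w p + 1).choose 2) (fun _ _ => Nat.zero_le _) (mem_univ _)
    have g2 : 0 < (w ⟨0, hn0⟩ + 1).choose 2 := Nat.choose_pos (by
      have := hpos ⟨0, hn0⟩
      omega)
    omega) fun _ hT1 hT2 => crit_few hn0 hpos hμ hr h1 h2 hT1 hT2

/-- **Multiplicities of bounded ratio.** -/
theorem ratio_all {n m r : ℕ} {w : Fin n → ℕ} {ρ : ℝ} (hm : 1 ≤ m) (hρ : 1 ≤ ρ) (hr1 : 1 ≤ r)
    (hw1 : ∀ p, m ≤ w p) (hw2 : ∀ p, (w p : ℝ) ≤ ρ * m) (hr : (univ.image w).card ≤ r)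
    (hn : 1000000000 * ρ ^ 5 * (r : ℝ) ^ 2 ≤ n) :
    ∃ F : MvPolynomial (Fin n × Fin 2) ℚ, F ≠ 0 ∧ ∀ {L : Type} [Field L] [CharZero L]
      (P : Fin n → Fin 2 → L), MvPolynomial.aeval (fun ij : Fin n × Fin 2 => P ij.1 ij.2) F ≠ 0 →
      ∀ d, ExpDim L w P d := by
  have hρ0 : 0 < ρ := by linarith
  have hm1 : (1 : ℝ) ≤ m := by exact_mod_cast hm
  have hrr : (1 : ℝ) ≤ r := by exact_mod_cast hr1
  have hr2 : (1 : ℝ) ≤ (r : ℝ) ^ 2 := one_le_pow₀ hrr
  have hρ5 : 1 ≤ ρ ^ 5 := one_le_pow₀ hρ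
  have hρr : 1 ≤ ρ ^ 5 * (r : ℝ) ^ 2 := by
    calc (1 : ℝ) = 1 * 1 := by ring
      _ ≤ ρ ^ 5 * (r : ℝ) ^ 2 := mul_le_mul hρ5 hr2 (by norm_num) (by positivity)
  have hn9 : (1000000000 : ℝ) ≤ n := by
    have e : 1000000000 * ρ ^ 5 * (r : ℝ) ^ 2 = 1000000000 * (ρ ^ 5 * (r : ℝ) ^ 2) := by ring
    linarith
  have hn0 : 0 < n := by
    have : (0 : ℝ) < n := by linarith
    exact_mod_cast this
  have hpos : ∀ p, 1 ≤ w p := fun p => hm.trans (hw1 p)
  obtain ⟨M, hM⟩ : ∃ M : ℕ, M = ⌊ρ * m⌋₊ := ⟨_, rfl⟩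
  have hwM : ∀ p, w p ≤ M := fun p => by rw [hM]; exact Nat.le_floor (hw2 p)
  have hMρ : (M : ℝ) ≤ ρ * m := by rw [hM]; exact Nat.floor_le (by positivity)
  have hsq : (n : ℝ) * (m : ℝ) ^ 2 ≤ ((∑ p, w p ^ 2 : ℕ) : ℝ) := by
    have h : n * m ^ 2 ≤ ∑ p, w p ^ 2 := by
      have : ∑ _p : Fin n, m ^ 2 ≤ ∑ p, w p ^ 2 :=
        sum_le_sum fun p _ => Nat.pow_le_pow_left (hw1 p) 2
      rwa [sum_const, card_univ, Fintype.card_fin, smul_eq_mul] at this
    exact_mod_cast h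
  have hsL : (n : ℝ) * m ≤ ((∑ p, w p : ℕ) : ℝ) := by
    have h : n * m ≤ ∑ p, w p := by
      have : ∑ _p : Fin n, m ≤ ∑ p, w p := sum_le_sum fun p _ => hw1 p
      rwa [sum_const, card_univ, Fintype.card_fin, smul_eq_mul] at this
    exact_mod_cast h
  have hn00 : (0 : ℝ) ≤ n := Nat.cast_nonneg _
  rcases le_or_gt (2000 * ρ * r) (m : ℝ) with hmr | hmr
  · refine few_all (μ := M) (r := r) hn0 hpos hwM hr ?_ (Or.inr ?_)
    · have h : ((1000000 * r ^ 2 * M ^ 2 : ℕ) : ℝ) ≤ ((∑ p, w p ^ 2 : ℕ) : ℝ) := by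
        refine le_trans ?_ hsq
        push_cast
        have h1 : (M : ℝ) ^ 2 ≤ (ρ * m) ^ 2 := pow_le_pow_left₀ (Nat.cast_nonneg _) hMρ 2
        have h2 : ρ ^ 2 ≤ ρ ^ 5 := pow_le_pow_right₀ hρ (by norm_num)
        calc 1000000 * (r : ℝ) ^ 2 * (M : ℝ) ^ 2 ≤ 1000000 * (r : ℝ) ^ 2 * (ρ * m) ^ 2 :=
              mul_le_mul_of_nonneg_left h1 (by positivity)
          _ = 1000000 * ρ ^ 2 * (r : ℝ) ^ 2 * (m : ℝ) ^ 2 := by ring
          _ ≤ n * (m : ℝ) ^ 2 := by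
              apply mul_le_mul_of_nonneg_right _ (by positivity)
              refine le_trans ?_ hn
              apply mul_le_mul_of_nonneg_right _ (by positivity)
              have : 0 ≤ ρ ^ 5 := by positivity
              linarith
      exact_mod_cast h
    · have h : ((2000 * n * r * M : ℕ) : ℝ) ≤ ((∑ p, w p ^ 2 : ℕ) : ℝ) := by
        refine le_trans ?_ hsq
        push_cast
        calc 2000 * (n : ℝ) * r * M ≤ 2000 * (n : ℝ) * r * (ρ * m) :=
              mul_le_mul_of_nonneg_left hMρ (by positivity)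
          _ = n * (2000 * ρ * r) * m := by ring
          _ ≤ n * m * m := by
              apply mul_le_mul_of_nonneg_right _ (by positivity)
              exact mul_le_mul_of_nonneg_left hmr hn00
          _ = n * (m : ℝ) ^ 2 := by ring
      exact_mod_cast h
  · refine expDim_of_crit ?_ fun _ hT1 hT2 =>
      crit_all (μ := max M 2) (le_max_right _ _) (fun p => (hwM p).trans (le_max_left _ _))
        ?_ hT1 hT2
    · have g1 : (w ⟨0, hn0⟩ + 1).choose 2 ≤ ∑ p, (w p + 1).choose 2 :=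
        single_le_sum (f := fun p => (w p + 1).choose 2) (fun _ _ => Nat.zero_le _) (mem_univ _)
      have g2 : 0 < (w ⟨0, hn0⟩ + 1).choose 2 := Nat.choose_pos (by
        have := hpos ⟨0, hn0⟩
        omega)
      omega
    · have h : ((150 * (max M 2) ^ 3 : ℕ) : ℝ) ≤ ((∑ p, w p : ℕ) : ℝ) := by
        refine le_trans ?_ hsL
        rcases le_total M 2 with h2 | h2
        · rw [max_eq_right h2]
          push_cast
          have : (n : ℝ) * 1 ≤ n * m := mul_le_mul_of_nonneg_left hm1 hn00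
          linarith
        · rw [max_eq_left h2]
          push_cast
          have h1 : (M : ℝ) ^ 3 ≤ (ρ * m) ^ 3 := pow_le_pow_left₀ (Nat.cast_nonneg _) hMρ 3
          have h3 : (m : ℝ) ^ 2 ≤ (2000 * ρ * r) ^ 2 :=
            pow_le_pow_left₀ (Nat.cast_nonneg _) hmr.le 2
          calc 150 * (M : ℝ) ^ 3 ≤ 150 * (ρ * m) ^ 3 := by linarith
            _ = 150 * ρ ^ 3 * m * (m : ℝ) ^ 2 := by ring
            _ ≤ 150 * ρ ^ 3 * m * (2000 * ρ * r) ^ 2 :=
                mul_le_mul_of_nonneg_left h3 (by positivity)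
            _ = 600000000 * (ρ ^ 5 * (r : ℝ) ^ 2) * m := by ring
            _ ≤ n * m := by
                apply mul_le_mul_of_nonneg_right _ (by positivity)
                have e : 1000000000 * ρ ^ 5 * (r : ℝ) ^ 2 = 1000000000 * (ρ ^ 5 * (r : ℝ) ^ 2) := by
                  ring
                linarith
      exact_mod_cast h

end Pool.Agent.Y205.FW
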