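import Pool.Agent.TH146.MN.Few2
import Pool.Agent.TH603.Sur.Forms

/-! Emptiness for vectors with few different multiplicities. -/

set_option autoImplicit false

namespace Pool.Agent.Y205.FW

open Finset Pool.Agent.TH176.Nag Pool.Agent.TH603.Sur

theorem Emp_few {ι : Type} [Fintype ι] {v : ι → ℕ} (hpos : ∀ x, 1 ≤ v x) {M : ℝ} {d : ℕ}
    (hvM : ∀ x, (v x : ℝ) ≤ M) (h1 : 12 * M ≤ d)
    (h2 : (16 * ((univ.image v).card : ℝ) + 8) * M ^ 2 ≤ (d : ℝ) ^ 2)
    (h3 : (d : ℝ) ^ 2 < ∑ x, (v x : ℝ) ^ 2) : Emp v (TZ d) := by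
  classical
  have hne : Nonempty ι := by
    by_contra hcon
    rw [not_nonempty_iff] at hcon
    rw [Fintype.sum_empty] at h3
    have : (0 : ℝ) ≤ (d : ℝ) ^ 2 := sq_nonneg _
    linarith
  obtain ⟨x0⟩ := hne
  obtain ⟨V, hV⟩ : ∃ V : Finset ℕ, V = univ.image v := ⟨_, rfl⟩
  rw [← hV] at h2
  have hvV : ∀ x, v x ∈ V := fun x => by rw [hV]; exact mem_image_of_mem _ (mem_univ _)
  let gr : ι → Fin V.card := fun x => V.equivFin ⟨v x, hvV x⟩
  let y : Fin V.card → ℝ := fun l => ((V.equivFin.symm l : ℕ) : ℝ)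
  have hy : ∀ x, y (gr x) = v x := by
    intro x
    simp only [y, gr, Equiv.symm_apply_apply]
  have hex : ∀ l, ∃ x, v x = (V.equivFin.symm l : ℕ) := by
    intro l
    have h := (V.equivFin.symm l).2
    nth_rw 1 [hV] at h
    obtain ⟨x, -, hx⟩ := mem_image.1 h
    exact ⟨x, hx⟩
  have hsurj : Function.Surjective gr := by
    intro l
    obtain ⟨x, hx⟩ := hex l
    refine ⟨x, ?_⟩
    apply V.equivFin.symm.injective
    apply Subtype.ext
    simp only [gr, Equiv.symm_apply_apply]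
    exact hx
  have hy1 : ∀ l, 1 ≤ y l := by
    intro l
    obtain ⟨x, hx⟩ := hex l
    simp only [y]
    rw [← hx]
    exact_mod_cast hpos x
  have hyM : ∀ l, y l ≤ M := by
    intro l
    obtain ⟨x, hx⟩ := hex l
    simp only [y]
    rw [← hx]
    exact hvM x
  have hM0 : 0 < M := by
    have h4 := hvM x0
    have h5 : (1 : ℝ) ≤ v x0 := by exact_mod_cast hpos x0
    linarith
  have hr : 0 < V.card := Fin.pos (gr x0)
  obtain ⟨c, hc⟩ : ∃ c : ℝ, c = √(∑ x, (v x : ℝ) ^ 2) := ⟨_, rfl⟩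
  have hS0 : (0 : ℝ) ≤ ∑ x, (v x : ℝ) ^ 2 := Finset.sum_nonneg fun i _ => sq_nonneg _
  have hc2 : c ^ 2 = ∑ x, (v x : ℝ) ^ 2 := by rw [hc]; exact Real.sq_sqrt hS0
  have hc0 : 0 ≤ c := by rw [hc]; exact Real.sqrt_nonneg _
  have hdc : (d : ℝ) < c := by
    have h7 : (d : ℝ) ^ 2 < c ^ 2 := by rw [hc2]; exact h3
    exact lt_of_pow_lt_pow_left₀ 2 hc0 h7
  have hU := Pool.Agent.TH146.MN.U_few hr gr hsurj y hM0 (fun l => by linarith [hy1 l]) hyM (by
    simp only [hy]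
    linarith)
  have key := Pool.Agent.TH146.MN.star_rep' (x := fun x => y (gr x)) (c := c) (W := 2 * M)
    (fun x => by linarith [hy1 (gr x)]) ⟨x0⟩ (by positivity) (by linarith)
    (by simp only [hy]; exact hc2.symm) (by rw [show 2 * (2 * M) = 4 * M by ring]; exact hU)
    v d (by
      intro x
      simp only [hy]
      have h5 : (1 : ℝ) ≤ v x := by exact_mod_cast hpos x
      have := mul_lt_mul_of_pos_left hdc (show (0 : ℝ) < v x by linarith)
      linarith)
  exact key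

end Pool.Agent.Y205.FW
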