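import Pool.Agent.Y205.FW.Rec
import Pool.Agent.Y205.FW.EmpFew

/-! The bound of the corank from emptiness in a smaller degree. -/

set_option autoImplicit false

namespace Pool.Agent.Y205.FW

open Finset Pool.Agent.TH176.Nag Pool.Agent.TH603.Sur
open Pool.Agent.Y205.MD
open Pool.Agent.TH387.SH (TF coe_TF card_TF)
open Pool.Agent.TH745.MN (TZ_mono)

/-- **The bound of the corank.** -/
theorem crk_emp {ι : Type} [Fintype ι] {F : ι → ℕ} (hpos : ∀ x, 1 ≤ F x) {B D : ℝ}
    (hB : ∀ x, (F x : ℝ) ≤ B) (hB1 : 1 ≤ B) (hD : D = √(∑ x, (F x : ℝ) ^ 2))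
    (h1 : 12 * B + 1 ≤ D)
    (h2 : (16 * ((univ.image F).card : ℝ) + 8) * B ^ 2 ≤ (D - 1) ^ 2) (d : ℕ) :
    crk (TF d) F = 0 ∨ 2 * crk (TF d) F + ∑ x, F x ^ 2 ≤ 2 * (TF d).card := by
  have hD0 : 0 < D := by linarith
  have hD2 : D ^ 2 = ((∑ x, F x ^ 2 : ℕ) : ℝ) := by
    push_cast
    rw [hD, Real.sq_sqrt]
    exact sum_nonneg fun p _ => by positivity
  obtain ⟨e, he⟩ : ∃ e : ℕ, e + 1 = ⌈D⌉₊ := ⟨⌈D⌉₊ - 1, by
    have := Nat.ceil_pos.2 hD0
    omega⟩
  have he1 : D ≤ e + 1 := by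
    have := Nat.le_ceil D
    rw [← he] at this
    push_cast at this
    exact this
  have he2 : (e : ℝ) < D := by
    have : e < ⌈D⌉₊ := by omega
    exact Nat.lt_ceil.1 this
  have he0 : (0 : ℝ) ≤ e := Nat.cast_nonneg _
  have hE : Emp F (TZ e) := by
    refine Emp_few hpos hB (by linarith) ?_ ?_
    · refine h2.trans ?_
      exact pow_le_pow_left₀ (by linarith) (by linarith) 2
    · have h3 : (e : ℝ) ^ 2 < D ^ 2 := pow_lt_pow_left₀ he2 he0 (by norm_num)
      rw [hD2] at h3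
      push_cast at h3
      exact h3
  rcases le_or_gt d e with hde | hde
  · left
    apply crk_zero_of_Emp
    rw [coe_TF]
    exact hE.mono (TZ_mono hde)
  · right
    have hsub : TF e ⊆ TF d := by
      rw [← coe_subset, coe_TF, coe_TF]
      exact TZ_mono hde.le
    have hcard := card_le_card hsub
    have h3 : crk (TF d) F ≤ (TF d).card - (TF e).card :=
      crk_le ⟨TF e, hsub, by omega, by rw [coe_TF]; exact hE⟩
    have h4 : 2 * (TF e).card = (e + 1) * (e + 2) := by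
      rw [card_TF]
      exact Pool.Agent.TH2.NU.two_choose (e + 1)
    have h5 : ∑ x, F x ^ 2 ≤ (e + 1) * (e + 1) := by
      have : ((∑ x, F x ^ 2 : ℕ) : ℝ) ≤ (((e + 1) * (e + 1) : ℕ) : ℝ) := by
        rw [← hD2]
        push_cast
        have := pow_le_pow_left₀ hD0.le he1 2
        linarith
      exact_mod_cast this
    have h6 : (e + 1) * (e + 1) ≤ (e + 1) * (e + 2) := Nat.mul_le_mul_left _ (by omega)
    omega

end Pool.Agent.Y205.FW
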