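import Pool.Agent.Y205.FW.Acc
import Pool.Agent.Y205.FW.LeafC
import Pool.Agent.Y205.FW.Final

/-! **Many points, measured only by the number of the different multiplicities.** -/

set_option autoImplicit false

namespace Pool.Agent.Y205.FW

open Finset Module Pool.Agent.TH176.Nag Pool.Agent.TH603.Sur Pool.Agent.TH763.DB Pool.Agent.TH2.NU
open Pool.Agent.Y205.MD H932R3
open Pool.Agent.TH387.SH (TF coe_TF card_TF)

theorem map_sum_fin (V : Finset ℕ) (F : ℕ → Multiset ℕ) (t : ℕ → ℕ) :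
    ((∑ v ∈ V, F v).map t).sum = ∑ v ∈ V, ((F v).map t).sum := by
  classical
  induction V using Finset.induction_on with
  | empty => simp
  | insert a V ha ih => rw [sum_insert ha, sum_insert ha, Multiset.map_add, Multiset.sum_add, ih]

theorem mem_sum_fin (V : Finset ℕ) (F : ℕ → Multiset ℕ) (x : ℕ) :
    x ∈ ∑ v ∈ V, F v → ∃ v ∈ V, x ∈ F v := by
  classical
  induction V using Finset.induction_on with
  | empty => simp
  | insert a V ha ih =>
    rw [sum_insert ha, Multiset.mem_add]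
    rintro (h | h)
    · exact ⟨a, mem_insert_self _ _, h⟩
    · obtain ⟨v, hv, hx⟩ := ih h
      exact ⟨v, mem_insert_of_mem hv, hx⟩

/-- the size of a leaf, three doublings -/
theorem leaf_lin {N v a g0 g1 : ℕ} (hv : 1 ≤ v) (hlo : 8 * v ≤ a)
    (hcd : N * (a + 1).choose 2 + g0 = 64 * N * (v + 1).choose 2 + g1)
    (hga : N * v * 64 ≤ 2 * (g0 + g1) + N * v * 8) :
    17 * (N * a) ≤ 136 * (N * v) + 4 * g1 := by
  obtain ⟨j, rfl⟩ : ∃ j, a = 8 * v + j := ⟨a - 8 * v, by omega⟩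
  have e1 := Pool.Agent.TH2.NU.two_choose (8 * v + j)
  have e2 := Pool.Agent.TH2.NU.two_choose v
  obtain ⟨A, hA⟩ : ∃ A, A = (8 * v + j + 1).choose 2 := ⟨_, rfl⟩
  obtain ⟨B, hB⟩ : ∃ B, B = (v + 1).choose 2 := ⟨_, rfl⟩
  rw [← hA] at e1 hcd
  rw [← hB] at e2 hcd
  have h1 : 2 * (N * A) = 64 * (N * v * v) + 8 * (N * v) + N * (16 * v * j + j * j + j) := by
    calc 2 * (N * A) = N * (2 * A) := by ring
      _ = N * ((8 * v + j) * (8 * v + j + 1)) := by rw [e1]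
      _ = _ := by ring
  have h2 : 2 * (64 * N * B) = 64 * (N * v * v) + 64 * (N * v) := by
    calc 2 * (64 * N * B) = 64 * N * (2 * B) := by ring
      _ = 64 * N * (v * (v + 1)) := by rw [e2]
      _ = _ := by ring
  have h3 : 17 * (N * j) ≤ N * (16 * v * j + j * j + j) := by
    have h4 : 17 * j ≤ 16 * v * j + j * j + j := by
      have h5 : 16 * 1 * j ≤ 16 * v * j := Nat.mul_le_mul_right _ (Nat.mul_le_mul_left _ hv)
      have h6 : 0 ≤ j * j := Nat.zero_le _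
      omega
    calc 17 * (N * j) = N * (17 * j) := by ring
      _ ≤ _ := Nat.mul_le_mul_left _ h4
  have h7 : N * (8 * v + j) = 8 * (N * v) + N * j := by ring
  rw [h7]
  omega

theorem ex_inf {n : ℕ} {w : Fin n → ℕ} {μ r d : ℕ} (hn0 : 0 < n) (hpos : ∀ p, 1 ≤ w p)
    (hμ : ∀ p, w p ≤ μ) (hr : (univ.image w).card ≤ r)
    (hQ : 40000 * r * μ ^ 2 ≤ ∑ p, w p ^ 2)
    (hT2 : 2 * ∑ p, (w p + 1).choose 2 ≤ (d + 2) * (d + 3)) : Ex (TF d) w := by
  classical
  have hSeq : StSeq := Pool.Agent.Y100.FW.seq Pool.Agent.Y665.FW.key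
  have hCor : StCorner := Pool.Agent.Y839.FW.corner
  have hNod : StNodes := Pool.Agent.Y901.FW.nodes
  have hμ1 : 1 ≤ μ := (hpos ⟨0, hn0⟩).trans (hμ ⟨0, hn0⟩)
  obtain ⟨V, hV⟩ : ∃ V : Finset ℕ, V = univ.image w := ⟨_, rfl⟩
  have hVv : ∀ v ∈ V, 1 ≤ v ∧ v ≤ μ := by
    intro v hv
    rw [hV] at hv
    obtain ⟨p, -, hp⟩ := mem_image.1 hv
    rw [← hp]
    exact ⟨hpos p, hμ p⟩
  have hVne : 0 < V.card := by
    rw [hV]
    exact card_pos.2 ⟨w ⟨0, hn0⟩, mem_image_of_mem _ (mem_univ _)⟩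
  rw [← hV] at hr
  have hr1 : 1 ≤ r := by omega
  have hrμ1 : 1 ≤ r * μ := Nat.mul_pos hr1 hμ1
  -- the numbers of `w`
  obtain ⟨L, hL⟩ : ∃ L, L = ∑ p, w p := ⟨_, rfl⟩
  obtain ⟨Q, hQd⟩ : ∃ Q, Q = ∑ p, w p ^ 2 := ⟨_, rfl⟩
  obtain ⟨T, hTd⟩ : ∃ T, T = ∑ p, (w p + 1).choose 2 := ⟨_, rfl⟩
  have hcT : cond w = T := hTd.symm
  have h2T : 2 * T = Q + L := by rw [hTd, hQd, hL]; exact two_cond w
  rw [← hQd] at hQ
  rw [← hTd] at hT2
  have hQL : Q ≤ μ * L := by
    rw [hQd, hL, mul_sum]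
    refine sum_le_sum fun p _ => ?_
    rw [sq]
    exact Nat.mul_le_mul_right _ (hμ p)
  have hLr : 40000 * (r * μ) ≤ L := by
    have h1 : μ * (40000 * (r * μ)) ≤ μ * L := by
      refine le_trans ?_ hQL
      have e : μ * (40000 * (r * μ)) = 40000 * r * μ ^ 2 := by ring
      rw [e]
      exact hQ
    exact Nat.le_of_mul_le_mul_left h1 (by omega)
  have hd2 : Q ≤ d ^ 2 := by
    by_contra hcon
    push Not at hcon
    have h1 : (μ * (200 * d)) ^ 2 < (μ * L) ^ 2 := by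
      have e : (μ * (200 * d)) ^ 2 = 40000 * μ ^ 2 * d ^ 2 := by ring
      have h2 : 40000 * μ ^ 2 ≤ Q := by
        refine le_trans ?_ hQ
        have e2 : 40000 * μ ^ 2 = 40000 * 1 * μ ^ 2 := by ring
        rw [e2]
        exact Nat.mul_le_mul_right _ (Nat.mul_le_mul_left _ hr1)
      have h3 : 0 < 40000 * μ ^ 2 := by positivity
      calc (μ * (200 * d)) ^ 2 = 40000 * μ ^ 2 * d ^ 2 := e
        _ < 40000 * μ ^ 2 * Q := Nat.mul_lt_mul_of_pos_left hcon h3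
        _ ≤ Q * Q := Nat.mul_le_mul_right _ h2
        _ = Q ^ 2 := (sq Q).symm
        _ ≤ (μ * L) ^ 2 := Nat.pow_le_pow_left hQL 2
    have h4 : μ * (200 * d) < μ * L := lt_of_pow_lt_pow_left₀ 2 (Nat.zero_le _) h1
    have h5 : 200 * d < L := Nat.lt_of_mul_lt_mul_left h4
    have e6 : (d + 2) * (d + 3) = d ^ 2 + 5 * d + 6 := by ring
    rw [e6] at hT2
    omega
  -- the classes
  obtain ⟨Nf, hNf⟩ : ∃ Nf : ℕ → ℕ, ∀ v, Nf v = nb w v / 64 := ⟨_, fun _ => rfl⟩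
  obtain ⟨Rf, hRf⟩ : ∃ Rf : ℕ → ℕ, ∀ v, Rf v = nb w v % 64 := ⟨_, fun _ => rfl⟩
  have hNR : ∀ v, 64 * Nf v + Rf v = nb w v := fun v => by
    rw [hNf, hRf]
    exact Nat.div_add_mod _ _
  have hR255 : ∀ v, Rf v ≤ 63 := fun v => by
    rw [hRf]
    have := Nat.mod_lt (nb w v) (show 0 < 64 by norm_num)
    omega
  obtain ⟨E, hE⟩ : ∃ E : Multiset ℕ, E = ∑ v ∈ V, Multiset.replicate (Rf v) v := ⟨_, rfl⟩
  have hEsum : ∀ t : ℕ → ℕ, (E.map t).sum = ∑ v ∈ V, Rf v * t v := by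
    intro t
    rw [hE, map_sum_fin]
    refine sum_congr rfl fun v _ => ?_
    rw [Multiset.map_replicate, Multiset.sum_replicate]
    rfl
  have hwsum : ∀ t : ℕ → ℕ, ∑ p, t (w p) = ∑ v ∈ V, nb w v * t v := by
    intro t
    rw [Finset.sum_comp t w, hV]
    rfl
  have hw : ∀ t : ℕ → ℕ, ∑ p, t (w p) =
      ((∑ v ∈ V, Multiset.replicate (4 ^ 3 * Nf v) v + E).map t).sum := by
    intro t
    rw [Multiset.map_add, Multiset.sum_add, hEsum, map_sum_fin, hwsum, ← sum_add_distrib]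
    refine sum_congr rfl fun v _ => ?_
    rw [Multiset.map_replicate, Multiset.sum_replicate, smul_eq_mul, ← hNR v]
    ring
  have hposS : ∀ u ∈ TF d, 0 ≤ u.1 ∧ 0 ≤ u.2 := by
    intro u hu
    have h1 : u ∈ TZ d := by rw [← coe_TF]; exact mem_coe.2 hu
    exact ⟨h1.1, h1.2.1⟩
  unfold Ex
  rw [← crkM_eq hw, hcT]
  refine classes_acc hposS 3 Nf V fun a g0 g1 hleaf => ?_
  have hlo : ∀ v ∈ V, 8 * v ≤ a v := fun v hv => by simpa using (hleaf v hv).lo
  have hhi : ∀ v ∈ V, a v + 1 ≤ 8 * (v + 1) := fun v hv => by simpa using (hleaf v hv).hi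
  have hcd : ∀ v ∈ V, Nf v * (a v + 1).choose 2 + g0 v =
      64 * Nf v * (v + 1).choose 2 + g1 v := fun v hv => by simpa using (hleaf v hv).cd
  have hga : ∀ v ∈ V, Nf v * v * 64 ≤ 2 * (g0 v + g1 v) + Nf v * v * 8 := fun v hv => by
    simpa using (hleaf v hv).gain
  obtain ⟨M, hM⟩ : ∃ M, M = ∑ v ∈ V, Multiset.replicate (Nf v) (a v) + E := ⟨_, rfl⟩
  rw [← hM]
  have hMsum : ∀ t : ℕ → ℕ, ∑ p, t (vec M p) = ∑ v ∈ V, (Nf v * t (a v) + Rf v * t v) := by
    intro t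
    rw [sum_vec, hM, Multiset.map_add, Multiset.sum_add, hEsum, map_sum_fin, ← sum_add_distrib]
    refine sum_congr rfl fun v _ => ?_
    rw [Multiset.map_replicate, Multiset.sum_replicate, smul_eq_mul]
  have hmem : ∀ p, vec M p ∈ M := fun p => by
    unfold vec
    exact Multiset.mem_toList.1 (List.get_mem _ _)
  have hMV : ∀ x ∈ M, ∃ v ∈ V, x = a v ∨ x = v := by
    intro x hx
    rw [hM, Multiset.mem_add, hE] at hx
    rcases hx with hx | hx
    · obtain ⟨v, hv, hx⟩ := mem_sum_fin V _ x hx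
      exact ⟨v, hv, Or.inl (Multiset.eq_of_mem_replicate hx)⟩
    · obtain ⟨v, hv, hx⟩ := mem_sum_fin V _ x hx
      exact ⟨v, hv, Or.inr (Multiset.eq_of_mem_replicate hx)⟩
  obtain ⟨X, hX⟩ : ∃ X, X = ∑ v ∈ V, Nf v * v := ⟨_, rfl⟩
  have hVμ : ∑ v ∈ V, Rf v * v ≤ 63 * (r * μ) := by
    have h1 : ∑ v ∈ V, Rf v * v ≤ ∑ _v ∈ V, 63 * μ :=
      sum_le_sum fun v hv => Nat.mul_le_mul (hR255 v) (hVv v hv).2
    rw [sum_const, smul_eq_mul] at h1
    have h2 : V.card * (63 * μ) ≤ r * (63 * μ) := Nat.mul_le_mul_right _ hr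
    have e : r * (63 * μ) = 63 * (r * μ) := by ring
    omega
  have hLX : L = 64 * X + ∑ v ∈ V, Rf v * v := by
    have h1 := hwsum fun x => x
    rw [hL, h1, hX, mul_sum, ← sum_add_distrib]
    refine sum_congr rfl fun v _ => ?_
    rw [← hNR v]
    ring
  unfold crkM
  refine leaf_crk hSeq hCor hNod (F := vec M) (μ := μ) (r := r) (d := d)
    (c := (TF d).card - T) (G0 := ∑ v ∈ V, g0 v) (G1 := ∑ v ∈ V, g1 v) (T := T) (X := X)
    hμ1 hr1 ?_ ?_ ?_ ?_ ?_ ?_ ?_ ?_ ?_ ?_ hT2 (by omega)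
  · intro x
    obtain ⟨v, hv, h | h⟩ := hMV _ (hmem x)
    · have h1 := hlo v hv
      have h2 := (hVv v hv).1
      omega
    · have h2 := (hVv v hv).1
      omega
  · intro x
    obtain ⟨v, hv, h | h⟩ := hMV _ (hmem x)
    · have h1 := hhi v hv
      have h2 := (hVv v hv).2
      omega
    · have h2 := (hVv v hv).2
      omega
  · have h1 : univ.image (vec M) ⊆ V.image a ∪ V := by
      intro x hx
      obtain ⟨p, -, hp⟩ := mem_image.1 hx
      rw [← hp]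
      obtain ⟨v, hv, h | h⟩ := hMV _ (hmem p)
      · rw [h]
        exact mem_union_left _ (mem_image_of_mem _ hv)
      · rw [h]
        exact mem_union_right _ hv
    have h2 := (card_le_card h1).trans (card_union_le _ _)
    have h3 : (V.image a).card ≤ V.card := card_image_le
    omega
  · refine hQ.trans ?_
    have h1 := hMsum fun x => x ^ 2
    have h2 := hwsum fun x => x ^ 2
    rw [h1, hQd, h2]
    refine sum_le_sum fun v hv => ?_
    have h3 := Nat.pow_le_pow_left (hlo v hv) 2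
    have h4 : Nf v * (64 * v ^ 2) ≤ Nf v * a v ^ 2 := by
      refine Nat.mul_le_mul_left _ ?_
      have e : (8 * v) ^ 2 = 64 * v ^ 2 := by ring
      omega
    have e : nb w v * v ^ 2 = Nf v * (64 * v ^ 2) + Rf v * v ^ 2 := by
      rw [← hNR v]
      ring
    rw [e]
    exact Nat.add_le_add_right h4 _
  · exact hQ.trans hd2
  · have h1 := hMsum fun x => x
    have h2 : ∑ v ∈ V, 17 * (Nf v * a v + Rf v * v) ≤
        ∑ v ∈ V, (136 * (Nf v * v) + 4 * g1 v + 17 * (Rf v * v)) := by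
      refine sum_le_sum fun v hv => ?_
      have h3 := leaf_lin (hVv v hv).1 (hlo v hv) (hcd v hv) (hga v hv)
      omega
    have h4 : ∑ v ∈ V, (136 * (Nf v * v) + 4 * g1 v + 17 * (Rf v * v)) =
        136 * X + 4 * ∑ v ∈ V, g1 v + 17 * ∑ v ∈ V, Rf v * v := by
      rw [sum_add_distrib, sum_add_distrib, ← mul_sum, ← mul_sum, ← mul_sum, ← hX]
    rw [← mul_sum] at h2
    have h3 : ∑ x, vec M x = ∑ v ∈ V, (Nf v * a v + Rf v * v) := h1
    rw [h3]
    omega
  · have h1 := hMsum fun _ => 1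
    simp only [mul_one] at h1
    have h2 : ∑ v ∈ V, (Nf v + Rf v) ≤ ∑ v ∈ V, (Nf v * v + 63) := by
      refine sum_le_sum fun v hv => Nat.add_le_add ?_ (hR255 v)
      calc Nf v = Nf v * 1 := (mul_one _).symm
        _ ≤ Nf v * v := Nat.mul_le_mul_left _ (hVv v hv).1
    rw [sum_add_distrib (f := fun v => Nf v * v), sum_const, smul_eq_mul, ← hX] at h2
    have h3 : ∑ _p : Fin M.toList.length, 1 = Fintype.card (Fin M.toList.length) := by
      rw [sum_const, card_univ, smul_eq_mul, mul_one]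
    have h4 : V.card * 63 ≤ 63 * (r * μ) := by
      have h5 : V.card ≤ r * μ := hr.trans (Nat.le_mul_of_pos_right _ (by omega))
      omega
    omega
  · omega
  · have h1 := hMsum fun x => (x + 1).choose 2
    have h2 := hwsum fun x => (x + 1).choose 2
    have h3 : cond (vec M) = ∑ v ∈ V, (Nf v * (a v + 1).choose 2 + Rf v * (v + 1).choose 2) := h1
    rw [h3, hTd, h2, ← sum_add_distrib, ← sum_add_distrib]
    refine sum_congr rfl fun v hv => ?_
    have h4 := hcd v hv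
    have e : nb w v * (v + 1).choose 2 = 64 * Nf v * (v + 1).choose 2 +
        Rf v * (v + 1).choose 2 := by
      rw [← hNR v]
      ring
    omega
  · have h1 : ∑ v ∈ V, Nf v * v * 64 ≤ ∑ v ∈ V, (2 * (g0 v + g1 v) + Nf v * v * 8) :=
      sum_le_sum hga
    rw [sum_add_distrib, ← mul_sum, sum_add_distrib, ← sum_mul, ← sum_mul, ← hX] at h1
    omega

/-- **Many points, measured by the number of the different multiplicities.** -/
theorem inf_all {n : ℕ} {w : Fin n → ℕ} {μ r : ℕ} (hn0 : 0 < n) (hpos : ∀ p, 1 ≤ w p)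
    (hμ : ∀ p, w p ≤ μ) (hr : (univ.image w).card ≤ r)
    (hQ : 40000 * r * μ ^ 2 ≤ ∑ p, w p ^ 2) :
    ∃ F : MvPolynomial (Fin n × Fin 2) ℚ, F ≠ 0 ∧ ∀ {L : Type} [Field L] [CharZero L]
      (P : Fin n → Fin 2 → L), MvPolynomial.aeval (fun ij : Fin n × Fin 2 => P ij.1 ij.2) F ≠ 0 →
      ∀ d, ExpDim L w P d :=
  expDim_of_crit (by
    have g1 : (w ⟨0, hn0⟩ + 1).choose 2 ≤ ∑ p, (w p + 1).choose 2 :=
      single_le_sum (f := fun p => (w p + 1).choose 2) (fun _ _ => Nat.zero_le _) (mem_univ _)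
    have g2 : 0 < (w ⟨0, hn0⟩ + 1).choose 2 := Nat.choose_pos (by
      have := hpos ⟨0, hn0⟩
      omega)
    omega) fun d _ hT2 => by
      have hex := ex_inf hn0 hpos hμ hr hQ hT2
      exact ⟨fun h1 => by
        rw [← coe_TF]
        exact Emp_of_Ex hex (by rw [card_TF]; exact h1), fun h1 => by
        rw [← coe_TF]
        exact Sur_of_Ex hex (by rw [card_TF]; exact h1)⟩

end Pool.Agent.Y205.FW
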