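import Pool.Agent.Y205.FW.Defs
import Pool.Agent.Y205.MD.Fint

/-! Blocks, donors and rare groups at a node. -/

set_option autoImplicit false

namespace Pool.Agent.Y205.FW

open Finset Pool.Agent.TH176.Nag Pool.Agent.TH603.Sur Pool.Agent.TH745.MN Filter Topology
open Pool.Agent.Y205.MD (Sur_equiv)

theorem NOK.mono {h : ℝ} {κ : Type} [Fintype κ] {w : κ → ℕ} {σ τ : ℝ} (hn : NOK h w σ)
    (hστ : σ ≤ τ) : NOK h w τ := by
  unfold NOK at *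
  filter_upwards [hn] with ε hε
  obtain ⟨lx, ux, ly, uy, a1, a2, a3, a4, a5, a6⟩ := hε
  exact ⟨lx, ux, ly, uy, a1, a2, a3, a4, by linarith, a6⟩

theorem NOK.equiv {h : ℝ} {κ κ' : Type} [Fintype κ] [Fintype κ'] {w : κ → ℕ} {v : κ' → ℕ} {σ : ℝ}
    (hn : NOK h w σ) (e : κ ≃ κ') (he : ∀ i, w i = v (e i)) : NOK h v σ := by
  unfold NOK at *
  filter_upwards [hn] with ε hε
  obtain ⟨lx, ux, ly, uy, a1, a2, a3, a4, a5, a6⟩ := hε
  exact ⟨lx, ux, ly, uy, a1, a2, a3, a4, by linarith, fun X Y h1 h2 h3 h4 =>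
    Sur_equiv e he (a6 X Y h1 h2 h3 h4)⟩

/-- a block of equal multiplicities -/
theorem NOK_block {h : ℝ} {N u : ℕ} (h1 : 1 ≤ h) (hN : h ≤ N * (u + 1)) (hu : (u : ℝ) + 1 < h)
    {τ : ℝ} (hτ : (N : ℝ) * (u + 1) ^ 2 / h ^ 2 < τ) : NOK h (fun _ : Fin N => u) τ := by
  have hh0 : 0 < h := by linarith
  have hU0 : (0 : ℝ) < (u : ℝ) + 1 := by positivity
  have hN0 : (0 : ℝ) < N := by
    by_contra hcon
    push Not at hcon
    have : (N : ℝ) = 0 := le_antisymm hcon (Nat.cast_nonneg _)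
    rw [this, zero_mul] at hN
    linarith
  obtain ⟨a, ha⟩ : ∃ a : ℝ, a = (N : ℝ) * (u + 1) ^ 2 / h ^ 2 := ⟨_, rfl⟩
  rw [← ha] at hτ
  have haN : a < N := by
    rw [ha, div_lt_iff₀ (by positivity)]
    apply mul_lt_mul_of_pos_left _ hN0
    exact pow_lt_pow_left₀ hu hU0.le (by norm_num)
  have ha0 : 0 < a := by rw [ha]; positivity
  obtain ⟨σ, h2, h3, h4⟩ : ∃ σ, a < σ ∧ σ < min τ N ∧ σ ≠ 1 := by
    obtain ⟨σ1, g1, g2⟩ := exists_between (lt_min hτ haN)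
    by_cases hc : σ1 = 1
    · obtain ⟨σ2, g3, g4⟩ := exists_between g1
      exact ⟨σ2, g3, g4.trans g2, by rw [← hc]; exact g4.ne⟩
    · exact ⟨σ1, g1, g2, hc⟩
  have h3' := lt_min_iff.1 h3
  refine NOK.mono ?_ h3'.1.le
  have hNa : (N : ℝ) * a = ((N : ℝ) * (u + 1) / h) ^ 2 := by
    rw [ha]; ring
  have hone : 1 ≤ (N : ℝ) * (u + 1) / h := by rw [one_le_div hh0]; exact hN
  have hNσ : (N : ℝ) * a < N * σ := mul_lt_mul_of_pos_left h2 hN0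
  unfold NOK
  refine site_ev (n := N) (Bn := (N : ℝ) * (u + 1)) ?_ le_rfl (by push_cast; linarith)
    (by linarith) h4 h3'.2 ?_ (by positivity) ?_
  · rintro k ⟨i, hk⟩
    rw [sum_const, card_univ, Fintype.card_fin, smul_eq_mul]
    push_cast [Nat.cast_sub hk.le]
    apply le_of_eq
    ring
  · refine lt_of_le_of_lt ?_ hNσ
    rw [hNa]
    exact one_le_pow₀ hone
  · have e : (4 * h - 4 + 4 * ((1 : ℕ) : ℝ)) / (4 * ((1 : ℕ) : ℝ)) = h := by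
      push_cast; ring
    rw [e]
    have hsq : (N : ℝ) * (u + 1) / h < √((N : ℝ) * σ) := by
      apply Real.lt_sqrt_of_sq_lt
      rw [← hNa]
      exact hNσ
    rwa [div_lt_iff₀ hh0] at hsq

/-- independence for the rows of a triangle with a real slope, from one node -/
theorem Sur_LJ (hSeq : StSeq) {κ : Type} [Fintype κ] {w : κ → ℕ} {ρ Δ σ : ℝ} (hρ : 2 ≤ ρ)
    (hσ : σ < 4 * ρ) (h : NOK ((2 * Δ - 1) / (4 * ρ)) w σ) :
    Sur w {p : ℤ × ℤ | 0 ≤ p.1 ∧ 0 ≤ p.2 ∧ (p.1 : ℝ) + 1 + ρ * (p.2 + 1) < Δ} := by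
  have hρ0 : 0 < ρ := by linarith
  have c2 := lin_ev 2 hσ
  unfold NOK at h
  obtain ⟨ε, ⟨lx, ux, ly, uy, a1, a2, a3, a4, a5, a6⟩, h2⟩ := (h.and c2).exists
  obtain ⟨z, hz, hirr⟩ := Pool.Agent.TH522.MN.exists_generic (J := Bool)
    (fun b => cond b lx ly) (fun b => cond b ux uy) (by rintro (b | b) <;> simp [a1, a3])
    (by rintro (b | b) <;> simp [a2, a4])
  have z1 := hz true
  have z2 := hz false
  simp only [cond_true, cond_false] at z1 z2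
  obtain ⟨X, hX⟩ : ∃ X, X = z true := ⟨_, rfl⟩
  obtain ⟨Y, hY⟩ : ∃ Y, Y = z false := ⟨_, rfl⟩
  rw [← hX] at z1
  rw [← hY] at z2
  have hXY : Irrational (X / Y) := by rw [hX, hY]; exact hirr true false (by simp)
  have hX0 : 0 < X := a1.trans z1.1
  have hY0 : 0 < Y := a3.trans z2.1
  have hnode := a6 X Y z1.1 z1.2 z2.1 z2.2
  obtain ⟨m, hm⟩ : ∃ m : ℕ → ℕ, ∀ j : ℕ, m j = ⌈Δ - ρ * (2 * (j : ℝ) + 2)⌉₊ := ⟨_, fun _ => rfl⟩
  obtain ⟨L, hL⟩ : ∃ L : ℕ, L = ⌈Δ / (2 * ρ) - 1⌉₊ := ⟨_, rfl⟩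
  have hLiff : ∀ j : ℕ, j < L ↔ 0 < Δ - ρ * (2 * (j : ℝ) + 2) := by
    intro j
    rw [hL, Nat.lt_ceil, lt_sub_iff_add_lt, lt_div_iff₀ (by positivity)]
    constructor
    · intro h; linarith
    · intro h; linarith
  have hm1 : ∀ j < L, 1 ≤ m j := by
    intro j hj
    rw [hm]
    exact Nat.ceil_pos.2 ((hLiff j).1 hj)
  have hstep : ∀ j, j + 1 < L → m (j + 1) + 3 ≤ m j := by
    intro j hj
    have g1 := (hLiff _).1 hj
    have g2 := Nat.ceil_lt_add_one g1.le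
    rw [← hm] at g2
    have g3 := Nat.le_ceil (Δ - ρ * (2 * (j : ℝ) + 2))
    rw [← hm] at g3
    push_cast at g2
    have g4 : ((m (j + 1) + 3 : ℕ) : ℝ) < (m j : ℝ) := by
      push_cast
      linarith
    exact (by exact_mod_cast g4 : m (j + 1) + 3 < m j).le
  have key := hSeq (w := w) (m := m) (L := L) hstep hm1 (x := X / (4 * ρ)) (y := Y / (4 * ρ))
    (by positivity) (by positivity) (by
      rw [← add_div, div_le_one (by positivity)]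
      linarith) (by rwa [div_div_div_cancel_right₀ (by positivity)]) ?_
  · refine key.mono ?_
    rintro ⟨p, q⟩ ⟨h3, h4, h5, h6⟩
    simp only at h3 h4 h5 h6
    refine ⟨h3, h4, ?_⟩
    simp only
    obtain ⟨q, rfl⟩ := Int.eq_ofNat_of_zero_le h4
    have hjL : q / 2 < L := by omega
    have hj := (hLiff _).1 hjL
    have g2 := Nat.ceil_lt_add_one hj.le
    rw [← hm] at g2
    have e1 : ((q : ℤ) / 2).toNat = q / 2 := by omega
    rw [e1] at h6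
    have h6' : (p : ℝ) + 2 * (((q % 2 : ℕ)) : ℝ) ≤ (m (q / 2) : ℝ) := by
      have g0 : p + 2 * ((q : ℤ) % 2) ≤ ((m (q / 2) : ℕ) : ℤ) := h6
      have g1 : ((p + 2 * ((q : ℤ) % 2) : ℤ) : ℝ) ≤ (((m (q / 2) : ℕ) : ℤ) : ℝ) := by
        exact_mod_cast g0
      have g2 : ((q : ℤ) % 2) = ((q % 2 : ℕ) : ℤ) := by push_cast; rfl
      rw [g2] at g1
      push_cast at g1 ⊢
      exact g1
    have e2 : (q : ℝ) = 2 * ((q / 2 : ℕ) : ℝ) + ((q % 2 : ℕ) : ℝ) := by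
      have := Nat.div_add_mod q 2
      exact_mod_cast this.symm
    rw [Int.cast_natCast, e2]
    rcases Nat.mod_two_eq_zero_or_one q with h7 | h7
    · rw [h7] at h6' ⊢
      push_cast at h6' ⊢
      linarith
    · rw [h7] at h6' ⊢
      push_cast at h6' ⊢
      linarith
  · refine hnode.mono ?_
    rintro ⟨p, q⟩ ⟨h3, h4, h5⟩
    simp only at h3 h4 h5
    obtain ⟨q, rfl⟩ := Int.eq_ofNat_of_zero_le h3
    obtain ⟨t, ht⟩ : ∃ t : ℝ, t = (2 * Δ - 1) / (4 * ρ) - 1 - q := ⟨_, rfl⟩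
    have e1 : Y / (4 * ((1 : ℕ) : ℝ)) * (4 * ((2 * Δ - 1) / (4 * ρ)) - 4 -
        4 * ((1 : ℕ) : ℝ) * ((q : ℤ) : ℝ)) = Y * t := by
      rw [ht]; push_cast; ring
    have e2 : X / (4 * ((1 : ℕ) : ℝ)) * (4 * ((2 * Δ - 1) / (4 * ρ)) - 4 -
        4 * ((1 : ℕ) : ℝ) * ((q : ℤ) : ℝ)) = X * t := by
      rw [ht]; push_cast; ring
    rw [e1] at h4
    rw [e2] at h5
    have ht0 : 0 < t := by
      by_contra hcon
      push Not at hcon
      have g1 : X * t ≤ 0 := mul_nonpos_of_nonneg_of_nonpos hX0.le hcon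
      have g2 : Y * t ≤ 0 := mul_nonpos_of_nonneg_of_nonpos hY0.le hcon
      linarith
    have e3 : 4 * ρ * t = 2 * Δ - 1 - 4 * ρ * (q + 1) := by
      rw [ht]; field_simp; ring
    have g3 : 0 < 4 * ρ * t := by positivity
    have hqL : q < L := by
      rw [hLiff]
      linarith
    have g4 : 4 * ρ * t ≤ 2 * (m q : ℝ) - 1 := by
      have := Nat.le_ceil (Δ - ρ * (2 * (q : ℝ) + 2))
      rw [← hm] at this
      linarith
    refine ⟨h3, by simp only; exact_mod_cast hqL, ?_, ?_⟩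
    · simp only [Int.toNat_natCast]
      have g5 : Y / (4 * ρ) * (4 * ρ * t) ≤ Y / (4 * ρ) * (2 * (m q : ℝ) - 1) :=
        mul_le_mul_of_nonneg_left g4 (by positivity)
      have e4 : Y / (4 * ρ) * (4 * ρ * t) = Y * t := by field_simp
      linarith
    · simp only [Int.toNat_natCast]
      have g5 : X / (4 * ρ) * (4 * ρ * t) ≤ X / (4 * ρ) * (2 * (m q : ℝ) - 1) :=
        mul_le_mul_of_nonneg_left g4 (by positivity)
      have e4 : X / (4 * ρ) * (4 * ρ * t) = X * t := by field_simp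
      linarith

/-- horizontal flattening -/
theorem Sur_row {κ : Type} [Fintype κ] {w : κ → ℕ} {ρ Δ μ ν : ℝ} (α : ℝ) (hμν : μ + ν = ρ)
    (h : Sur w {p : ℤ × ℤ | 0 ≤ p.1 ∧ 0 ≤ p.2 ∧ (p.1 : ℝ) + 1 + ρ * (p.2 + 1) < Δ}) :
    Sur w (RegO α (α + Δ) μ ν) := by
  have h1 : Sur w {q : ℤ × ℤ | 1 ≤ q.1 ∧ 0 ≤ q.2 ∧ (q.2 : ℝ) + 1 + ρ * q.1 < Δ} := by
    refine h.comap 0 1 1 0 0 (-1) (by norm_num) ?_
    rintro ⟨p, q⟩ ⟨h3, h4, h5⟩
    simp only at h3 h4 h5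
    refine ⟨(q + 1, p), ⟨by simp only; omega, h3, ?_⟩, ?_⟩
    · simp only; push_cast; exact h5
    · ext <;> simp
  refine Sur_flat 0 1 0 1 (by norm_num) ?_ h1
  rintro ⟨t, j⟩ ⟨h3, h4, h5⟩
  simp only at h3 h4 h5
  refine ⟨h4, -(⌊α + μ * t⌋ + 1) - j, fun s hs1 hs2 => ?_⟩
  have g1 := Int.lt_floor_add_one (α + μ * t)
  have g2 := Int.floor_le (α + μ * t)
  have hs1' : ((-(⌊α + μ * t⌋ + 1) - j : ℤ) : ℝ) ≤ s := by exact_mod_cast hs1
  have hs2' : (s : ℝ) ≤ ((-(⌊α + μ * t⌋ + 1) - j + j : ℤ) : ℝ) := by exact_mod_cast hs2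
  push_cast at hs1' hs2'
  refine ⟨by simp only; omega, ?_, ?_⟩
  · simp only; push_cast; linarith
  · simp only; push_cast
    have : μ * (t : ℝ) + ν * t = ρ * t := by rw [← hμν]; ring
    linarith

/-- donors in a triangle with given slopes -/
theorem Sur_donor (hSeq : StSeq) {N u : ℕ} {H ρ μ ν : ℝ} (α : ℝ)
    (hρd : ρ * H ^ 2 = N * (u + 1) ^ 2 + H) (hρ : 2 ≤ ρ) (hμν : μ + ν = ρ) (hN : 4 * ρ ≤ N)
    (hH : 1 ≤ H) : Sur (fun _ : Fin N => u) (RegO α (α + ρ * H) μ ν) := by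
  have hρ0 : 0 < ρ := by linarith
  have hH0 : 0 < H := by linarith
  have hN0 : (0 : ℝ) < N := by linarith
  obtain ⟨h1, hh1⟩ : ∃ h1 : ℝ, h1 = (2 * (ρ * H) - 1) / (4 * ρ) := ⟨_, rfl⟩
  obtain ⟨U, hU⟩ : ∃ U : ℝ, U = u + 1 := ⟨_, rfl⟩
  have hU1 : 1 ≤ U := by rw [hU]; linarith [show (0 : ℝ) ≤ u from Nat.cast_nonneg _]
  rw [← hU] at hρd
  have e1 : 4 * ρ * h1 ^ 2 = ρ * H ^ 2 - H + 1 / (4 * ρ) := by
    rw [hh1]; field_simp; ring
  have e2 : 4 * ρ * h1 ^ 2 = N * U ^ 2 + 1 / (4 * ρ) := by rw [e1, hρd]; ring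
  have hp : 0 < 1 / (4 * ρ) := by positivity
  have h1U : U < h1 := by
    have g0 : 0 < h1 := by
      rw [hh1]
      apply div_pos _ (by positivity)
      have : 2 * 1 ≤ ρ * H := mul_le_mul hρ hH (by norm_num) hρ0.le
      linarith
    have g1 : N * U ^ 2 < N * h1 ^ 2 := by
      have : 4 * ρ * h1 ^ 2 ≤ N * h1 ^ 2 := mul_le_mul_of_nonneg_right hN (sq_nonneg _)
      linarith
    have g2 : U ^ 2 < h1 ^ 2 := lt_of_mul_lt_mul_left g1 hN0.le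
    exact lt_of_pow_lt_pow_left₀ 2 g0.le g2
  have h1H : h1 ≤ H / 2 := by
    rw [hh1, div_le_iff₀ (by positivity)]
    have : H / 2 * (4 * ρ) = 2 * (ρ * H) := by ring
    linarith
  have h1N : h1 ≤ N * U := by
    have g1 : H ^ 2 ≤ (N * U) ^ 2 := by
      have g2 : (N * U) ^ 2 = N * (ρ * H ^ 2 - H) := by rw [hρd]; ring
      have g3 : H ^ 2 ≤ ρ * H ^ 2 - H := by
        have g4 : 2 * H ^ 2 ≤ ρ * H ^ 2 := mul_le_mul_of_nonneg_right hρ (sq_nonneg _)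
        have g5 : H * 1 ≤ H * H := mul_le_mul_of_nonneg_left hH hH0.le
        nlinarith
      have g4 : (0 : ℝ) ≤ ρ * H ^ 2 - H := le_trans (sq_nonneg _) g3
      have g5 : 1 * (ρ * H ^ 2 - H) ≤ N * (ρ * H ^ 2 - H) :=
        mul_le_mul_of_nonneg_right (by linarith) g4
      rw [g2]
      linarith
    have g2 : H ≤ N * U := le_of_sq_le_sq g1 (by positivity)
    linarith
  have h11 : 1 ≤ h1 := by linarith
  have hlt : (N : ℝ) * U ^ 2 / h1 ^ 2 < 4 * ρ := by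
    rw [div_lt_iff₀ (by positivity), e2]
    linarith
  obtain ⟨τ, hτ1, hτ2⟩ := exists_between hlt
  have hblk : NOK h1 (fun _ : Fin N => u) τ :=
    NOK_block h11 (by rw [← hU]; exact h1N) (by rw [← hU]; exact h1U) (by rw [← hU]; exact hτ1)
  rw [hh1] at hblk
  exact Sur_row α hμν (Sur_LJ hSeq hρ hτ2 hblk)

/-- a rare group with its donors -/
theorem NOK_rare (hSeq : StSeq) (hCor : StCorner) {N u k l : ℕ} {H ρ : ℝ} (hk : 1 ≤ k)
    (hl : (l : ℝ) + 1 < H) (hkl : (k : ℝ) * (l + 1) ≤ H)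
    (hρd : ρ * H ^ 2 = N * (u + 1) ^ 2 + H) (hρ : 2 ≤ ρ) (hN : 4 * ρ ≤ N) (hH : 1 ≤ H) {τ : ℝ}
    (hτ : ρ + k * (l + 1) ^ 2 / H ^ 2 < τ) :
    NOK H (Sum.elim (fun _ : Fin k => l) (fun _ : Fin N => u)) τ := by
  have hH0 : 0 < H := by linarith
  have hk0 : (0 : ℝ) < k := by exact_mod_cast (by omega : 0 < k)
  obtain ⟨V, hV⟩ : ∃ V : ℝ, V = l + 1 := ⟨_, rfl⟩
  have hV0 : 0 < V := by rw [hV]; positivity
  obtain ⟨Z, hZ⟩ : ∃ Z : ℝ, Z = k * V * (H - V) / H ^ 2 := ⟨_, rfl⟩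
  obtain ⟨Y0, hY0⟩ : ∃ Y0 : ℝ, Y0 = k * V / H := ⟨_, rfl⟩
  rw [← hV] at hl hkl hτ
  have hY0p : 0 < Y0 := by rw [hY0]; positivity
  have hY01 : Y0 ≤ 1 := by rw [hY0, div_le_one hH0]; exact hkl
  have hZY : Z = Y0 - k * V ^ 2 / H ^ 2 := by
    rw [hZ, hY0]; field_simp
  have hVV : 0 < k * V ^ 2 / H ^ 2 := by positivity
  have hX0 : 0 < ρ - Z := by linarith
  have hd := Sur_donor hSeq (N := N) (u := u) (H := H) (ρ := ρ) (μ := Z) (ν := ρ - Z) (-(Z * H))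
    hρd hρ (by ring) hN hH
  have e1 : -(Z * H) + ρ * H = (ρ - Z) * H := by ring
  rw [e1] at hd
  have hc := hCor (w := fun _ : Fin N => u) (k := k) (l := l) (H := H) (X := ρ - Z) hk
    (by rw [← hV]; exact hl) hX0 (by rw [← hV, ← hZ]; exact hd)
  rw [← hV, ← hY0] at hc
  have hnode : Sur (Sum.elim (fun _ : Fin k => l) (fun _ : Fin N => u))
      {p : ℤ × ℤ | 0 ≤ p.2 ∧ -(Y0 * (H - 1 - p.2)) < (p.1 : ℝ) ∧
        (p.1 : ℝ) < (ρ - Z) * (H - 1 - p.2)} := by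
    refine hc.shift 0 1 ?_
    rintro ⟨p, q⟩ ⟨h1, h2, h3⟩
    simp only at h1 h2 h3
    refine ⟨by simp only; omega, ?_, ?_⟩
    · simp only; push_cast; linarith
    · simp only; push_cast; linarith
  have c4 : ∀ᶠ ε in 𝓝[>] (0 : ℝ), 0 < ε := eventually_mem_nhdsWithin
  unfold NOK
  filter_upwards [c4] with ε hε
  refine ⟨ρ - Z, ρ - Z + ε, Y0, Y0 + ε, hX0, by linarith, hY0p, by linarith, by linarith, ?_⟩
  intro X Y h1 h2 h3 h4
  refine hnode.mono ?_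
  rintro ⟨p, q⟩ ⟨g1, g2, g3⟩
  simp only at g1 g2 g3
  obtain ⟨t, ht⟩ : ∃ t : ℝ, t = H - 1 - q := ⟨_, rfl⟩
  rw [← ht] at g2 g3
  have ht0 : 0 < t := by
    by_contra hcon
    push Not at hcon
    have g4 : (ρ - Z) * t ≤ 0 := mul_nonpos_of_nonneg_of_nonpos hX0.le hcon
    have g5 : Y0 * t ≤ 0 := mul_nonpos_of_nonneg_of_nonpos hY0p.le hcon
    linarith
  have e2 : Y / (4 * ((1 : ℕ) : ℝ)) * (4 * H - 4 - 4 * ((1 : ℕ) : ℝ) * (q : ℝ)) = Y * t := by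
    rw [ht]; push_cast; ring
  have e3 : X / (4 * ((1 : ℕ) : ℝ)) * (4 * H - 4 - 4 * ((1 : ℕ) : ℝ) * (q : ℝ)) = X * t := by
    rw [ht]; push_cast; ring
  have g4 : Y0 * t ≤ Y * t := mul_le_mul_of_nonneg_right h3.le ht0.le
  have g5 : (ρ - Z) * t ≤ X * t := mul_le_mul_of_nonneg_right h1.le ht0.le
  refine ⟨g1, ?_, ?_⟩
  · simp only
    rw [e2]
    linarith
  · simp only
    rw [e3]
    linarith

end Pool.Agent.Y205.FW
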