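import Pool.Agent.Y205.FW.Rec

/-! The recursion for the coranks, with the account of the conditions which are gained or lost. -/

set_option autoImplicit false

namespace Pool.Agent.Y205.FW

open Finset Pool.Agent.TH176.Nag Pool.Agent.TH603.Sur
open Pool.Agent.Y205.MD

/-- the corank of a multiset of multiplicities -/
noncomputable def crkM (S : Finset (ℤ × ℤ)) (M : Multiset ℕ) : ℕ := crk S (vec M)

theorem crkM_eq {ι : Type} [Fintype ι] {S : Finset (ℤ × ℤ)} {w : ι → ℕ} {M : Multiset ℕ}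
    (h : ∀ t : ℕ → ℕ, ∑ p, t (w p) = (M.map t).sum) : crkM S M = crk S w := by
  unfold crkM
  exact crk_of_sum fun t => by rw [h, sum_vec]

theorem crkM_quads {N v : ℕ} {E : Multiset ℕ} {S : Finset (ℤ × ℤ)} {c : ℕ}
    (hpos : ∀ u ∈ S, 0 ≤ u.1 ∧ 0 ≤ u.2)
    (h0 : crkM S (Multiset.replicate N (2 * v) + E) ≤ c + N * v)
    (h1 : crkM S (Multiset.replicate N (2 * v + 1) + E) ≤ c) :
    crkM S (Multiset.replicate (4 * N) v + E) ≤ c := by
  rcases Nat.eq_zero_or_pos N with hN | hN
  · subst hN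
    simpa using h1
  have hs : ∀ u, ∀ t : ℕ → ℕ, ∑ p, t (Sum.elim (fun _ : Fin N => u) (vec E) p) =
      ((Multiset.replicate N u + E).map t).sum := by
    intro u t
    rw [Fintype.sum_sum_type, Multiset.map_add, Multiset.sum_add, Multiset.map_replicate,
      Multiset.sum_replicate, ← sum_vec]
    simp
  have hs4 : ∀ t : ℕ → ℕ, ∑ p, t (Sum.elim (fun _ : Fin N × (Fin 2 × Fin 2) => v) (vec E) p) =
      ((Multiset.replicate (4 * N) v + E).map t).sum := by
    intro t
    rw [Fintype.sum_sum_type, Multiset.map_add, Multiset.sum_add, Multiset.map_replicate,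
      Multiset.sum_replicate, ← sum_vec]
    simp only [Sum.elim_inl, Sum.elim_inr, sum_const, card_univ, Fintype.card_fin,
      Fintype.card_prod, smul_eq_mul]
    ring
  rw [crkM_eq hs4]
  rw [crkM_eq (hs _)] at h0 h1
  exact crk_quads hN hpos h0 h1

/-- the result of `k` doublings of `4 ^ k * N` points of multiplicity `v`: `N` points of
multiplicity `a`, with `g0` conditions less and `g1` conditions more -/
structure Leaf (k N v a g0 g1 : ℕ) : Prop where
  lo : 2 ^ k * v ≤ a
  hi : a + 1 ≤ 2 ^ k * (v + 1)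
  cd : N * (a + 1).choose 2 + g0 = 4 ^ k * N * (v + 1).choose 2 + g1
  gain : N * v * 4 ^ k ≤ 2 * (g0 + g1) + N * v * 2 ^ k

theorem leaf_zero (N v : ℕ) : Leaf 0 N v v 0 0 := by
  refine ⟨by simp, by simp, by simp, by simp⟩

theorem leaf_even {k N v a g0 g1 : ℕ} (h : Leaf k N (2 * v) a g0 g1) :
    Leaf (k + 1) N v a (g0 + 4 ^ k * N * v) g1 := by
  have e1 := choose_four v
  refine ⟨?_, ?_, ?_, ?_⟩
  · have := h.lo
    rw [pow_succ]
    linarith
  · have h1 := h.hi
    have h2 : 2 ^ (k + 1) * (v + 1) = 2 ^ k * (2 * v + 1) + 2 ^ k := by ring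
    have h3 : 0 < 2 ^ k := by positivity
    omega
  · have h1 := h.cd
    have h2 : 4 ^ (k + 1) * N * (v + 1).choose 2 =
        4 ^ k * N * (2 * v + 1).choose 2 + 4 ^ k * N * v := by
      calc 4 ^ (k + 1) * N * (v + 1).choose 2 = 4 ^ k * N * (4 * (v + 1).choose 2) := by ring
        _ = 4 ^ k * N * ((2 * v + 1).choose 2 + v) := by rw [e1]
        _ = _ := by ring
    omega
  · have h1 := h.gain
    have e2 : N * (2 * v) * 4 ^ k = 2 * (4 ^ k * N * v) := by ring
    have e3 : N * (2 * v) * 2 ^ k = 2 * (N * v * 2 ^ k) := by ring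
    have e4 : N * v * 4 ^ (k + 1) = 4 * (4 ^ k * N * v) := by ring
    have e5 : N * v * 2 ^ (k + 1) = 2 * (N * v * 2 ^ k) := by ring
    rw [e2, e3] at h1
    rw [e4, e5]
    omega

theorem leaf_odd {k N v a g0 g1 : ℕ} (h : Leaf k N (2 * v + 1) a g0 g1) :
    Leaf (k + 1) N v a g0 (g1 + 4 ^ k * N * (v + 1)) := by
  have e1 := choose_four v
  have e3 : (2 * v + 1 + 1).choose 2 = (2 * v + 1).choose 2 + (2 * v + 1) := by
    rw [Nat.choose_succ_succ' (2 * v + 1) 1, Nat.choose_one_right]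
    ring
  refine ⟨?_, ?_, ?_, ?_⟩
  · have h1 := h.lo
    have h2 : 2 ^ k * (2 * v + 1) = 2 ^ (k + 1) * v + 2 ^ k := by ring
    rw [h2] at h1
    exact (Nat.le_add_right _ _).trans h1
  · have h1 := h.hi
    have h2 : 2 ^ (k + 1) * (v + 1) = 2 ^ k * (2 * v + 1 + 1) := by ring
    rw [h2]
    exact h1
  · have h1 := h.cd
    have h2 : 4 ^ k * N * (2 * v + 1 + 1).choose 2 =
        4 ^ (k + 1) * N * (v + 1).choose 2 + 4 ^ k * N * (v + 1) := by
      calc 4 ^ k * N * (2 * v + 1 + 1).choose 2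
          = 4 ^ k * N * ((2 * v + 1).choose 2 + v + (v + 1)) := by rw [e3]; ring
        _ = 4 ^ k * N * (4 * (v + 1).choose 2 + (v + 1)) := by rw [e1]
        _ = _ := by ring
    omega
  · have h1 := h.gain
    have h24 : 2 ^ k ≤ 4 ^ k := Nat.pow_le_pow_left (by norm_num) k
    have h5 : N * 2 ^ k ≤ N * 4 ^ k := Nat.mul_le_mul_left _ h24
    have e2 : N * (2 * v + 1) * 4 ^ k = 2 * (N * v * 4 ^ k) + N * 4 ^ k := by ring
    have e4 : N * (2 * v + 1) * 2 ^ k = 2 * (N * v * 2 ^ k) + N * 2 ^ k := by ring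
    have e5 : N * v * 4 ^ (k + 1) = 4 * (N * v * 4 ^ k) := by ring
    have e6 : N * v * 2 ^ (k + 1) = 2 * (N * v * 2 ^ k) := by ring
    have e7 : 4 ^ k * N * (v + 1) = N * v * 4 ^ k + N * 4 ^ k := by ring
    rw [e2, e4] at h1
    rw [e5, e6, e7]
    omega

/-- one class -/
theorem class_acc {S : Finset (ℤ × ℤ)} (hpos : ∀ u ∈ S, 0 ≤ u.1 ∧ 0 ≤ u.2) (k : ℕ) :
    ∀ {N v c : ℕ} {E : Multiset ℕ}, (∀ a g0 g1, Leaf k N v a g0 g1 →
      crkM S (Multiset.replicate N a + E) ≤ c + g0) →
      crkM S (Multiset.replicate (4 ^ k * N) v + E) ≤ c := by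
  induction k with
  | zero =>
    intro N v c E h
    simpa using h v 0 0 (leaf_zero N v)
  | succ k ih =>
    intro N v c E h
    have e : 4 ^ (k + 1) * N = 4 * (4 ^ k * N) := by ring
    rw [e]
    refine crkM_quads hpos ?_ ?_
    · refine ih fun a g0 g1 hl => ?_
      have := h a _ _ (leaf_even hl)
      omega
    · refine ih fun a g0 g1 hl => ?_
      exact h a _ _ (leaf_odd hl)

/-- all the classes -/
theorem classes_acc {S : Finset (ℤ × ℤ)} (hpos : ∀ u ∈ S, 0 ≤ u.1 ∧ 0 ≤ u.2) (k : ℕ)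
    (Nf : ℕ → ℕ) (V : Finset ℕ) : ∀ {c : ℕ} {E : Multiset ℕ},
      (∀ a g0 g1 : ℕ → ℕ, (∀ v ∈ V, Leaf k (Nf v) v (a v) (g0 v) (g1 v)) →
        crkM S (∑ v ∈ V, Multiset.replicate (Nf v) (a v) + E) ≤ c + ∑ v ∈ V, g0 v) →
      crkM S (∑ v ∈ V, Multiset.replicate (4 ^ k * Nf v) v + E) ≤ c := by
  classical
  induction V using Finset.induction_on with
  | empty =>
    intro c E h
    simpa using h (fun _ => 0) (fun _ => 0) (fun _ => 0) (by simp)
  | insert b V hb ih =>
    intro c E h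
    rw [sum_insert hb, add_assoc]
    refine class_acc hpos k fun a0 g00 g10 hl => ?_
    have e : Multiset.replicate (Nf b) a0 +
        (∑ v ∈ V, Multiset.replicate (4 ^ k * Nf v) v + E) =
        ∑ v ∈ V, Multiset.replicate (4 ^ k * Nf v) v + (Multiset.replicate (Nf b) a0 + E) := by
      rw [← add_assoc, ← add_assoc, add_comm (Multiset.replicate (Nf b) a0)]
    rw [e]
    refine ih fun a g0 g1 hV => ?_
    have hne : ∀ v ∈ V, v ≠ b := fun v hv hvb => hb (hvb ▸ hv)
    have h1 := h (Function.update a b a0) (Function.update g0 b g00) (Function.update g1 b g10) (by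
      intro v hv
      rcases mem_insert.1 hv with hvb | hvV
      · subst hvb
        rw [Function.update_self, Function.update_self, Function.update_self]
        exact hl
      · rw [Function.update_of_ne (hne v hvV), Function.update_of_ne (hne v hvV),
          Function.update_of_ne (hne v hvV)]
        exact hV v hvV)
    rw [sum_insert hb, sum_insert hb, Function.update_self, Function.update_self] at h1
    have e2 : ∑ v ∈ V, Multiset.replicate (Nf v) (Function.update a b a0 v) =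
        ∑ v ∈ V, Multiset.replicate (Nf v) (a v) :=
      sum_congr rfl fun v hv => by rw [Function.update_of_ne (hne v hv)]
    have e3 : ∑ v ∈ V, Function.update g0 b g00 v = ∑ v ∈ V, g0 v :=
      sum_congr rfl fun v hv => by rw [Function.update_of_ne (hne v hv)]
    rw [e2, e3] at h1
    have e4 : ∑ v ∈ V, Multiset.replicate (Nf v) (a v) + (Multiset.replicate (Nf b) a0 + E) =
        Multiset.replicate (Nf b) a0 + ∑ v ∈ V, Multiset.replicate (Nf v) (a v) + E := by
      rw [← add_assoc, add_comm (∑ v ∈ V, Multiset.replicate (Nf v) (a v))]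
    rw [e4]
    omega

end Pool.Agent.Y205.FW
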