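import Pool.Agent.Y205.FW.Model

/-! Independence of the clusters, few points. -/

set_option autoImplicit false

namespace Pool.Agent.Y205.FW

open Finset Pool.Agent.TH176.Nag Pool.Agent.TH603.Sur Pool.Agent.TH2.NU
open Pool.Agent.Y205.MD
open Pool.Agent.TH387.SH (TF coe_TF card_TF)

theorem base_sur (hSeq : StSeq) (hCor : StCorner) (hNod : StNodes) {n s1 s : ℕ} {w : Fin n → ℕ}
    {μ : ℕ} {A m : Fin s1 → ℕ} {c m' : Fin s → ℕ} (hM : IsModel w μ A m c m') {D L : ℝ} {d : ℕ}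
    (hN : Nums w μ A m c m' d D L) (hn : (n : ℝ) ≤ 3 * D) :
    Sur (Sum.elim (fun p : Σ i, Fin (A i) => 2 * m p.1)
      (fun z : Σ g, Fin (c g) => m' z.1)) (TZ d) := by
  classical
  obtain ⟨hμr, hr1', hD0, hD2, hL0, hT1', hT2', h1, b2, b3, b5, b6, b7, b8, hLD, hE, hC, hsA,
    hsL, hsD, hDL⟩ := hN
  obtain ⟨r, hr⟩ : ∃ r : ℝ, r = s := ⟨_, rfl⟩
  rw [← hr] at h1 hr1' b6 hE hC
  have hr0 : 0 < r := by linarith
  have hμ0 : (0 : ℝ) < μ := by linarith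
  have hrμ : (μ : ℝ) ≤ r * μ := le_mul_of_one_le_left hμ0.le hr1'
  have hcm' : ∀ g, (c g : ℝ) * m' g ≤ 15 * μ := fun g => by exact_mod_cast hM.cm g
  have hA1 := hM.A1
  have hE0 : 0 ≤ ∑ g, (c g : ℝ) * m' g := sum_nonneg fun g _ => by positivity
  have hC0 : 0 ≤ ∑ g, (c g : ℝ) := sum_nonneg fun g _ => Nat.cast_nonneg _
  have hrs1 : (s1 : ℝ) ≤ r := by rw [hr]; exact_mod_cast hM.rs
  -- the heights
  obtain ⟨K, k1, k2, k3, k4⟩ := few_K hr1' hμr h1 b7 b8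
  obtain ⟨H, hH⟩ : ∃ H : ℝ, H = ((d : ℝ) + 3 - 1 / (2 * K)) / (2 * K) := ⟨_, rfl⟩
  rw [← hH] at k3 k4
  have hKr : (99 : ℝ) ≤ K := by linarith
  have hK99 : 99 ≤ K := by exact_mod_cast hKr
  have hK99r : 99 * s ≤ K := by
    have : ((99 * s : ℕ) : ℝ) ≤ (K : ℝ) := by push_cast; rw [← hr]; exact k1
    exact_mod_cast this
  have hH0 : 0 < H := by linarith
  have hmμ : ∀ i, (m i : ℝ) ≤ μ := fun i => by exact_mod_cast hM.mμ i
  have hmμ' : ∀ g, (m' g : ℝ) ≤ μ := fun g => by exact_mod_cast hM.mμ' g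
  have hm1' : ∀ g, (1 : ℝ) ≤ m' g := fun g => by exact_mod_cast hM.m1' g
  -- the largest class
  obtain ⟨Q, hQ⟩ : ∃ Q : ℝ, Q = ∑ i, (A i : ℝ) * (2 * m i + 1) ^ 2 := ⟨_, rfl⟩
  have hrμ2 : μ ^ 2 ≤ r * (μ : ℝ) ^ 2 := le_mul_of_one_le_left (by positivity) hr1'
  have hrrμ2 : r * (μ : ℝ) ^ 2 ≤ r * (r * (μ : ℝ) ^ 2) :=
    le_mul_of_one_le_left (by positivity) hr1'
  have hQ1 : 999000 * (r * (r * (μ : ℝ) ^ 2)) ≤ Q := by
    have g1 : ∑ i, 4 * (A i : ℝ) * (m i : ℝ) ^ 2 ≤ Q := by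
      rw [hQ]
      refine sum_le_sum fun i _ => ?_
      have : 4 * (A i : ℝ) * (m i : ℝ) ^ 2 = A i * (2 * m i) ^ 2 := by ring
      rw [this]
      apply mul_le_mul_of_nonneg_left _ (Nat.cast_nonneg _)
      apply pow_le_pow_left₀ (by positivity)
      linarith
    have g2 : ∑ g, (c g : ℝ) * (m' g : ℝ) ^ 2 ≤ 15 * (r * μ) * μ := by
      have : ∑ g, (c g : ℝ) * (m' g : ℝ) ^ 2 ≤ (∑ g, (c g : ℝ) * m' g) * μ := by
        rw [sum_mul]
        refine sum_le_sum fun g _ => ?_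
        have h5 : (c g : ℝ) * (m' g : ℝ) ^ 2 = c g * m' g * m' g := by ring
        rw [h5]
        exact mul_le_mul_of_nonneg_left (hmμ' g) (by positivity)
      exact this.trans (mul_le_mul_of_nonneg_right hE hμ0.le)
    have g3 : (1000 * r * μ) ^ 2 ≤ D ^ 2 := pow_le_pow_left₀ (by positivity) h1 2
    have e3 : (1000 * r * μ) ^ 2 = 1000000 * (r * (r * (μ : ℝ) ^ 2)) := by ring
    have e4 : 15 * (r * μ) * μ = 15 * (r * (μ : ℝ) ^ 2) := by ring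
    rw [e3] at g3
    rw [e4] at g2
    have g5 : 0 ≤ r * (r * (μ : ℝ) ^ 2) := by positivity
    linarith
  obtain ⟨i0, hi0⟩ : ∃ i0, 999000 * (r * (μ : ℝ) ^ 2) ≤ (A i0 : ℝ) * (2 * m i0 + 1) ^ 2 := by
    by_contra hcon
    push Not at hcon
    have hx0 : 0 < 999000 * (r * (r * (μ : ℝ) ^ 2)) := by positivity
    rcases Nat.eq_zero_or_pos s1 with h0 | h0
    · have : IsEmpty (Fin s1) := by rw [h0]; infer_instance
      rw [hQ, Fintype.sum_empty] at hQ1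
      linarith
    · have g1 : Q < ∑ _i : Fin s1, 999000 * (r * (μ : ℝ) ^ 2) := by
        rw [hQ]
        exact sum_lt_sum_of_nonempty ⟨⟨0, h0⟩, mem_univ _⟩ fun i _ => hcon i
      rw [sum_const, card_univ, Fintype.card_fin, nsmul_eq_mul] at g1
      have g3 : (s1 : ℝ) * (999000 * (r * (μ : ℝ) ^ 2)) ≤
          r * (999000 * (r * (μ : ℝ) ^ 2)) := mul_le_mul_of_nonneg_right hrs1 (by positivity)
      linarith
  obtain ⟨U, hU⟩ : ∃ U : ℝ, U = 2 * m i0 + 1 := ⟨_, rfl⟩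
  have hU0 : 0 < U := by rw [hU]; positivity
  have hUμ : U ≤ 2003 / 1000 * μ := by
    rw [hU]
    have := hmμ i0
    linarith
  rw [← hU] at hi0
  obtain ⟨N0, hN0⟩ : ∃ N0 : ℕ, N0 = ⌈2 * H ^ 2 / U ^ 2⌉₊ := ⟨_, rfl⟩
  have hN1 : 2 * H ^ 2 ≤ N0 * U ^ 2 := by
    have := Nat.le_ceil (2 * H ^ 2 / U ^ 2)
    rw [← hN0, div_le_iff₀ (by positivity)] at this
    exact this
  have hH2 : H ^ 2 ≤ 676 / 25 * (μ : ℝ) ^ 2 := by
    have := pow_le_pow_left₀ hH0.le k4 2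
    have e : (26 / 5 * (μ : ℝ)) ^ 2 = 676 / 25 * (μ : ℝ) ^ 2 := by ring
    linarith
  have hH2' : 25 * (μ : ℝ) ^ 2 ≤ H ^ 2 := by
    have := pow_le_pow_left₀ (by positivity) k3 2
    have e : (5 * (μ : ℝ)) ^ 2 = 25 * (μ : ℝ) ^ 2 := by ring
    linarith
  have hU2 : U ^ 2 ≤ 5 * (μ : ℝ) ^ 2 := by
    have := pow_le_pow_left₀ hU0.le hUμ 2
    have e : (2003 / 1000 * (μ : ℝ)) ^ 2 = 4012009 / 1000000 * (μ : ℝ) ^ 2 := by ring
    have : (0 : ℝ) ≤ (μ : ℝ) ^ 2 := by positivity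
    linarith
  have hN2 : (N0 : ℝ) * U ^ 2 ≤ 60 * (μ : ℝ) ^ 2 := by
    have g1 : (N0 : ℝ) < 2 * H ^ 2 / U ^ 2 + 1 := by
      rw [hN0]
      exact Nat.ceil_lt_add_one (by positivity)
    have g2 : (N0 : ℝ) * U ^ 2 < (2 * H ^ 2 / U ^ 2 + 1) * U ^ 2 :=
      mul_lt_mul_of_pos_right g1 (by positivity)
    have g3 : (2 * H ^ 2 / U ^ 2 + 1) * U ^ 2 = 2 * H ^ 2 + U ^ 2 := by field_simp
    have : (0 : ℝ) ≤ (μ : ℝ) ^ 2 := by positivity
    linarith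
  have hN01 : (1 : ℝ) ≤ N0 := by
    have : 0 < N0 := by rw [hN0]; exact Nat.ceil_pos.2 (by positivity)
    exact_mod_cast this
  have hμ2 : 333 * (μ : ℝ) ≤ (μ : ℝ) ^ 2 := by
    have : 333 * (μ : ℝ) ≤ μ * μ := mul_le_mul_of_nonneg_right (by linarith) hμ0.le
    linarith [show (μ : ℝ) * μ = (μ : ℝ) ^ 2 by ring]
  have hrN : 10 * r * N0 * U ^ 2 ≤ 600 * (r * (μ : ℝ) ^ 2) := by
    have := mul_le_mul_of_nonneg_left hN2 (show 0 ≤ 10 * r by positivity)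
    linarith
  have hmono : 10 * s * N0 ≤ A i0 := by
    have g1 : 10 * r * N0 * U ^ 2 ≤ A i0 * U ^ 2 := by
      have : 0 ≤ r * (μ : ℝ) ^ 2 := by positivity
      linarith
    have g2 := le_of_mul_le_mul_right g1 (by positivity)
    have g3 : ((10 * s * N0 : ℕ) : ℝ) ≤ (A i0 : ℝ) := by push_cast; rw [← hr]; exact g2
    exact_mod_cast g3
  -- independence
  have hs1 : 1 ≤ s := by
    have : (1 : ℝ) ≤ s := by rw [← hr]; exact hr1'
    exact_mod_cast this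
  refine Sur_few hSeq hCor hNod (K := K) (d := d) (N0 := N0) (A := A) (m := m) (c := c)
    (m' := m') (i0 := i0) (H := H) (by omega) ?_ ?_ hH (by linarith) hmono ?_ ?_ ?_ ?_ ?_ ?_ ?_
  · have g1 : (99 * s) ^ 2 ≤ K ^ 2 := Nat.pow_le_pow_left hK99r 2
    have e0 : (99 * s) ^ 2 = 9801 * (s * s) := by ring
    have g2 : s ≤ s * s := Nat.le_mul_self _
    have g3 := hM.rs
    omega
  · have g1 : 10 * (K : ℝ) * 1 ≤ 10 * K * μ := mul_le_mul_of_nonneg_left hμr (by positivity)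
    have g2 : (K : ℝ) ≤ d := by linarith
    have g3 : K ≤ d := by exact_mod_cast g2
    have g4 : K * K ≤ K * d := Nat.mul_le_mul_left _ g3
    have e : K * (d + 3) = K * d + 3 * K := by ring
    have e2 : K ^ 2 = K * K := sq K
    omega
  · intro i
    by_cases hi : i = i0
    · subst hi
      rw [if_pos rfl, Nat.cast_sub hmono, ← hU]
      push_cast
      rw [← hr]
      have g1 : H * U ≤ ((A i : ℝ) - 10 * r * N0) * U * U := by
        have e : ((A i : ℝ) - 10 * r * N0) * U * U = A i * U ^ 2 - 10 * r * N0 * U ^ 2 := by ring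
        rw [e]
        have g2 : H * U ≤ (26 / 5 * μ) * (2003 / 1000 * μ) :=
          mul_le_mul k4 hUμ hU0.le (by positivity)
        have e2 : (26 / 5 * (μ : ℝ)) * (2003 / 1000 * μ) = 52078 / 5000 * (μ : ℝ) ^ 2 := by ring
        rw [e2] at g2
        have : (0 : ℝ) ≤ (μ : ℝ) ^ 2 := by positivity
        linarith
      exact le_of_mul_le_mul_right g1 hU0
    · rw [if_neg hi, Nat.sub_zero]
      have g1 : (12 : ℝ) * μ ≤ 4 * A i * m i := by exact_mod_cast hM.Am i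
      have g2 : (0 : ℝ) ≤ A i := Nat.cast_nonneg _
      linarith
  · intro i
    have := hmμ i
    linarith
  · rw [← hU]
    linarith
  · rw [← hU]
    have g1 : 1 * (H ^ 2 - 4 * U ^ 2) ≤ N0 * (H ^ 2 - 4 * U ^ 2) :=
      mul_le_mul_of_nonneg_right hN01 (by
        have : (0 : ℝ) ≤ (μ : ℝ) ^ 2 := by positivity
        linarith)
    have : (0 : ℝ) ≤ (μ : ℝ) ^ 2 := by positivity
    linarith
  · intro g
    have g1 := hcm' g
    have g2 : (0 : ℝ) ≤ c g := Nat.cast_nonneg _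
    have g3 : (c g : ℝ) * 1 ≤ c g * m' g := mul_le_mul_of_nonneg_left (hm1' g) g2
    have g4 := hmμ' g
    have e : ((c g : ℝ) / 10 + 1) * (m' g + 1) = (c g * m' g + c g) / 10 + (m' g + 1) := by ring
    rw [e]
    linarith
  · intro g
    have := hmμ' g
    linarith
  · have e1 : ∑ i, (A i : ℝ) * (2 * m i + 1) ^ 2 =
        ∑ i, 4 * (A i : ℝ) * (m i * (m i + 1)) + ∑ i, (A i : ℝ) := by
      rw [← sum_add_distrib]
      refine sum_congr rfl fun i _ => ?_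
      ring
    have e2 : ∑ g, (c g : ℝ) * (m' g + 1) ^ 2 =
        ∑ g, (c g : ℝ) * (m' g * (m' g + 1)) + (∑ g, (c g : ℝ) * m' g + ∑ g, (c g : ℝ)) := by
      rw [← sum_add_distrib, ← sum_add_distrib]
      refine sum_congr rfl fun i _ => ?_
      ring
    have e4 : 4 * (K : ℝ) ^ 2 * H ^ 2 = ((d : ℝ) + 3 - 1 / (2 * K)) ^ 2 := by
      rw [hH]
      field_simp
      ring
    have g2 : ((d : ℝ) + 3) ^ 2 - (d + 3) / K ≤ ((d : ℝ) + 3 - 1 / (2 * K)) ^ 2 := by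
      have e : ((d : ℝ) + 3 - 1 / (2 * K)) ^ 2 =
          ((d : ℝ) + 3) ^ 2 - (d + 3) / K + (1 / (2 * K)) ^ 2 := by
        field_simp
        ring
      rw [e]
      have : (0 : ℝ) ≤ (1 / (2 * (K : ℝ))) ^ 2 := by positivity
      linarith
    have g3 : ((d : ℝ) + 3) / K ≤ (d + 3) / 99 :=
      div_le_div_of_nonneg_left (by linarith) (by norm_num) hKr
    have e5 : ∑ i, (A i : ℝ) ≤ 3 / 4 * D := by
      have : ∑ i, 4 * (A i : ℝ) = 4 * ∑ i, (A i : ℝ) := by rw [mul_sum]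
      linarith
    have g4 : r * H ≤ r * (26 / 5 * μ) := mul_le_mul_of_nonneg_left k4 hr0.le
    have g5 : ((d : ℝ) + 2) * (d + 3) = (d + 3) ^ 2 - (d + 3) := by ring
    rw [e1, e2, e4, ← hr]
    linarith

end Pool.Agent.Y205.FW
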