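import Pool.Agent.Y205.FW.Rec
import Pool.Agent.Y205.FW.Final

/-! **No condition on the ratios of the multiplicities.** -/

set_option autoImplicit false

namespace Pool.Agent.Y205.FW

open Finset Module Pool.Agent.TH176.Nag Pool.Agent.TH603.Sur Pool.Agent.TH763.DB Pool.Agent.TH2.NU
open Pool.Agent.Y205.MD H932R3
open Pool.Agent.TH387.SH (TF coe_TF card_TF)

theorem sum_map_sum (V : Finset ℕ) (F : ℕ → Multiset ℕ) (t : ℕ → ℕ) :
    ((∑ v ∈ V, F v).map t).sum = ∑ v ∈ V, ((F v).map t).sum := by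
  classical
  induction V using Finset.induction_on with
  | empty => simp
  | insert a V ha ih => rw [sum_insert ha, sum_insert ha, Multiset.map_add, Multiset.sum_add, ih]

theorem mem_sum_iff (V : Finset ℕ) (F : ℕ → Multiset ℕ) (x : ℕ) :
    x ∈ ∑ v ∈ V, F v → ∃ v ∈ V, x ∈ F v := by
  classical
  induction V using Finset.induction_on with
  | empty => simp
  | insert a V ha ih =>
    rw [sum_insert ha, Multiset.mem_add]
    rintro (h | h)
    · exact ⟨a, mem_insert_self _ _, h⟩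
    · obtain ⟨v, hv, hx⟩ := ih h
      exact ⟨v, mem_insert_of_mem hv, hx⟩

theorem toFinset_sum_card (V : Finset ℕ) (F : ℕ → Multiset ℕ) :
    (∑ v ∈ V, F v).toFinset.card ≤ ∑ v ∈ V, (F v).toFinset.card := by
  classical
  induction V using Finset.induction_on with
  | empty => simp
  | insert a V ha ih =>
    rw [sum_insert ha, sum_insert ha, Multiset.toFinset_add]
    exact (card_union_le _ _).trans (by omega)

/-- the sum of `1 + log (μ / v)` over the different multiplicities -/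
def RR {n : ℕ} (w : Fin n → ℕ) (μ : ℕ) : ℕ := ∑ v ∈ univ.image w, (1 + Nat.log 2 (μ / v))

theorem ex_max {n : ℕ} {w : Fin n → ℕ} {μ : ℕ} (hn0 : 0 < n) (hpos : ∀ p, 1 ≤ w p)
    (hμ : ∀ p, w p ≤ μ) (h : 10 ^ 10 * μ ^ 2 * RR w μ ^ 2 ≤ ∑ p, w p ^ 2) (d : ℕ) :
    Ex (TF d) w := by
  classical
  have hμ1 : 1 ≤ μ := (hpos ⟨0, hn0⟩).trans (hμ ⟨0, hn0⟩)
  obtain ⟨V, hV⟩ : ∃ V : Finset ℕ, V = univ.image w := ⟨_, rfl⟩
  have hVv : ∀ v ∈ V, 1 ≤ v ∧ v ≤ μ := by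
    intro v hv
    rw [hV] at hv
    obtain ⟨p, -, hp⟩ := mem_image.1 hv
    rw [← hp]
    exact ⟨hpos p, hμ p⟩
  have hVne : 0 < V.card := by
    rw [hV]
    exact card_pos.2 ⟨w ⟨0, hn0⟩, mem_image_of_mem _ (mem_univ _)⟩
  obtain ⟨R, hR⟩ : ∃ R, R = RR w μ := ⟨_, rfl⟩
  have hR' : R = ∑ v ∈ V, (1 + Nat.log 2 (μ / v)) := by rw [hR, hV]; rfl
  have hR1 : 1 ≤ R := by
    have h1 : ∑ _v ∈ V, 1 ≤ ∑ v ∈ V, (1 + Nat.log 2 (μ / v)) := sum_le_sum fun v _ => by omega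
    rw [sum_const, smul_eq_mul, mul_one] at h1
    omega
  rw [← hR] at h
  obtain ⟨Q, hQ⟩ : ∃ Q, Q = ∑ p, w p ^ 2 := ⟨_, rfl⟩
  rw [← hQ] at h
  have hQL : Q ≤ μ * ∑ p, w p := by
    rw [hQ, mul_sum]
    refine sum_le_sum fun p _ => ?_
    rw [sq]
    exact Nat.mul_le_mul_right _ (hμ p)
  have hTpos : 0 < ∑ p, (w p + 1).choose 2 := by
    have g1 : (w ⟨0, hn0⟩ + 1).choose 2 ≤ ∑ p, (w p + 1).choose 2 :=
      single_le_sum (f := fun p => (w p + 1).choose 2) (fun _ _ => Nat.zero_le _) (mem_univ _)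
    have g2 : 0 < (w ⟨0, hn0⟩ + 1).choose 2 := Nat.choose_pos (by
      have := hpos ⟨0, hn0⟩
      omega)
    omega
  by_cases hbig : 150 * (max μ 2) ^ 3 ≤ ∑ p, w p
  · exact Ex_of_crit (fun d hT1 hT2 => crit_all (μ := max μ 2) (le_max_right _ _)
      (fun p => (hμ p).trans (le_max_left _ _)) hbig hT1 hT2) hTpos d
  push Not at hbig
  have hμ2 : 1 ≤ μ ^ 2 := Nat.one_le_pow _ _ hμ1
  have hRR : 1 ≤ R ^ 2 := Nat.one_le_pow _ _ hR1
  have hμ2' : 2 ≤ μ := by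
    by_contra hcon
    have h1 : μ = 1 := by omega
    rw [h1] at hbig hQL h
    norm_num at hbig
    omega
  rw [max_eq_left hμ2'] at hbig
  have hQ4 : Q < 150 * μ ^ 4 := by
    have h1 : μ * ∑ p, w p < μ * (150 * μ ^ 3) := Nat.mul_lt_mul_of_pos_left hbig (by omega)
    have e : μ * (150 * μ ^ 3) = 150 * μ ^ 4 := by ring
    omega
  -- the multiset
  obtain ⟨kf, hkf⟩ : ∃ kf : ℕ → ℕ, ∀ v, kf v = Nat.log 2 (μ / v) + 3 := ⟨_, fun _ => rfl⟩
  have hlog : ∀ v ∈ V, 2 ^ Nat.log 2 (μ / v) * v ≤ μ ∧ μ < 2 ^ (Nat.log 2 (μ / v) + 1) * v := by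
    intro v hv
    obtain ⟨hv1, hv2⟩ := hVv v hv
    have h0 : μ / v ≠ 0 := Nat.ne_of_gt (Nat.div_pos hv2 hv1)
    constructor
    · exact (Nat.mul_le_mul_right _ (Nat.pow_log_le_self 2 h0)).trans (Nat.div_mul_le_self μ v)
    · have h1 := Nat.lt_pow_succ_log_self (b := 2) (by norm_num) (μ / v)
      exact (Nat.div_lt_iff_lt_mul hv1).1 h1
  have hw : ∀ t : ℕ → ℕ, ∑ p, t (w p) =
      ((∑ v ∈ V, Multiset.replicate (nb w v) v + (0 : Multiset ℕ)).map t).sum := by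
    intro t
    rw [add_zero, sum_map_sum, Finset.sum_comp t w, hV]
    refine sum_congr rfl fun v _ => ?_
    rw [Multiset.map_replicate, Multiset.sum_replicate]
    rfl
  have hposS : ∀ u ∈ TF d, 0 ≤ u.1 ∧ 0 ≤ u.2 := by
    intro u hu
    have h1 : u ∈ TZ d := by rw [← coe_TF]; exact mem_coe.2 hu
    exact ⟨h1.1, h1.2.1⟩
  refine (ExM_iff hw).1 (classes_rec hposS kf (nb w) V (fun v hv => (hVv v hv).1) fun F hF => ?_)
  rw [add_zero]
  obtain ⟨M, hM⟩ : ∃ M, M = ∑ v ∈ V, F v := ⟨_, rfl⟩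
  rw [← hM]
  -- the numbers of the new vector
  have hNsum : ∑ v ∈ V, nb w v * v ^ 2 = Q := by
    rw [hQ, Finset.sum_comp (fun x => x ^ 2) w, hV]
    rfl
  have hsq : Q ≤ ∑ p, vec M p ^ 2 := by
    rw [sum_vec M fun x => x ^ 2, hM, sum_map_sum, ← hNsum]
    exact sum_le_sum fun v hv => (hF v hv).sq
  have hmem : ∀ p, vec M p ∈ M := fun p => by
    unfold vec
    exact Multiset.mem_toList.1 (List.get_mem _ _)
  have hMF : ∀ x ∈ M, ∃ v ∈ V, x ∈ F v := fun x hx => mem_sum_iff V F x (by rw [← hM]; exact hx)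
  have hpos' : ∀ p, 1 ≤ vec M p := by
    intro p
    obtain ⟨v, hv, hx⟩ := hMF _ (hmem p)
    exact (hF v hv).pos _ hx
  have hmax' : ∀ p, vec M p ≤ 16 * μ := by
    intro p
    obtain ⟨v, hv, hx⟩ := hMF _ (hmem p)
    have h2 := (hF v hv).max _ hx
    rw [hkf, pow_add] at h2
    have h3 := (hlog v hv).1
    have hv1 := (hVv v hv).1
    have h4 : 2 ^ Nat.log 2 (μ / v) * 2 ^ 3 * (v + 1) ≤ 16 * (2 ^ Nat.log 2 (μ / v) * v) := by
      have e : 16 * (2 ^ Nat.log 2 (μ / v) * v) = 2 ^ Nat.log 2 (μ / v) * 2 ^ 3 * (2 * v) := by ring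
      rw [e]
      exact Nat.mul_le_mul_left _ (by omega)
    omega
  have hvals : (univ.image (vec M)).card ≤ 4 * R := by
    have h1 : univ.image (vec M) ⊆ M.toFinset := by
      intro x hx
      obtain ⟨p, -, hp⟩ := mem_image.1 hx
      rw [← hp]
      exact Multiset.mem_toFinset.2 (hmem p)
    refine (card_le_card h1).trans ?_
    rw [hM]
    refine (toFinset_sum_card V F).trans ?_
    rw [hR', mul_sum]
    refine sum_le_sum fun v hv => ?_
    have := (hF v hv).vals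
    rw [hkf] at this
    omega
  have hlen : M.toList.length = M.card := Multiset.length_toList M
  -- the number of points
  have hcard : (16 : ℝ) * (μ : ℝ) ^ 2 * M.card ≤ Q + 144 * (μ : ℝ) ^ 2 * R := by
    have e1 : (M.card : ℝ) = ∑ v ∈ V, ((F v).card : ℝ) := by
      rw [hM, Multiset.card_sum]
      push_cast
      rfl
    have e2 : (Q : ℝ) = ∑ v ∈ V, (nb w v : ℝ) * (v : ℝ) ^ 2 := by
      rw [← hNsum]
      push_cast
      rfl
    have e3 : (R : ℝ) = ∑ v ∈ V, (1 + (Nat.log 2 (μ / v) : ℝ)) := by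
      rw [hR']
      push_cast
      rfl
    rw [e1, e2, e3, mul_sum, mul_sum, ← sum_add_distrib]
    refine sum_le_sum fun v hv => ?_
    have h1 := (hF v hv).card
    obtain ⟨ℓ, hℓ⟩ : ∃ ℓ, ℓ = Nat.log 2 (μ / v) := ⟨_, rfl⟩
    have h2 := (hlog v hv).2
    rw [← hℓ] at h2 ⊢
    rw [hkf, ← hℓ] at h1
    obtain ⟨c, hc⟩ : ∃ c : ℝ, c = (F v).card := ⟨_, rfl⟩
    obtain ⟨G, hG⟩ : ∃ G : ℝ, G = 4 ^ (ℓ + 3) := ⟨_, rfl⟩
    have h3 : G * c ≤ nb w v + 3 * (ℓ + 3) * G := by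
      rw [hG, hc]
      exact_mod_cast h1
    have h4 : 16 * (μ : ℝ) ^ 2 ≤ G * (v : ℝ) ^ 2 := by
      have g1 : (μ : ℝ) ≤ 2 ^ (ℓ + 1) * v := by exact_mod_cast h2.le
      have g2 := pow_le_pow_left₀ (Nat.cast_nonneg _) g1 2
      have e : G * (v : ℝ) ^ 2 = 16 * (2 ^ (ℓ + 1) * (v : ℝ)) ^ 2 := by
        rw [hG, mul_pow, ← pow_mul, show (4 : ℝ) = 2 ^ 2 by norm_num, ← pow_mul]
        have : (2 : ℝ) ^ (2 * (ℓ + 3)) = 16 * 2 ^ ((ℓ + 1) * 2) := by
          rw [show 2 * (ℓ + 3) = (ℓ + 1) * 2 + 4 by ring, pow_add]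
          norm_num
          ring
        rw [this]
        ring
      rw [e]
      linarith
    rw [← hc]
    have hv0 : (0 : ℝ) ≤ (v : ℝ) ^ 2 := sq_nonneg _
    have hμ0 : (0 : ℝ) ≤ (μ : ℝ) ^ 2 := sq_nonneg _
    have hℓ0 : (0 : ℝ) ≤ ℓ := Nat.cast_nonneg _
    have hN0 : (0 : ℝ) ≤ (nb w v : ℝ) * (v : ℝ) ^ 2 := by positivity
    rcases le_total c (3 * (ℓ + 3)) with hc3 | hc3
    · have g1 : 16 * (μ : ℝ) ^ 2 * c ≤ 16 * (μ : ℝ) ^ 2 * (3 * (ℓ + 3)) :=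
        mul_le_mul_of_nonneg_left hc3 (by positivity)
      have g2 : (0 : ℝ) ≤ (μ : ℝ) ^ 2 * ℓ := by positivity
      linarith
    · have g1 : 16 * (μ : ℝ) ^ 2 * (c - 3 * (ℓ + 3)) ≤ G * (v : ℝ) ^ 2 * (c - 3 * (ℓ + 3)) :=
        mul_le_mul_of_nonneg_right h4 (by linarith)
      have g2 : G * (c - 3 * (ℓ + 3)) * (v : ℝ) ^ 2 ≤ nb w v * (v : ℝ) ^ 2 := by
        apply mul_le_mul_of_nonneg_right _ hv0
        linarith
      have g3 : (0 : ℝ) ≤ (μ : ℝ) ^ 2 * ℓ := by positivity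
      linarith
  -- the real number `D`
  obtain ⟨D, hD⟩ : ∃ D : ℝ, D = √(Q : ℝ) := ⟨_, rfl⟩
  have hD0 : 0 ≤ D := by rw [hD]; exact Real.sqrt_nonneg _
  have hD2 : D ^ 2 = Q := by rw [hD]; exact Real.sq_sqrt (Nat.cast_nonneg _)
  have hμr : (1 : ℝ) ≤ μ := by exact_mod_cast hμ1
  have hRr : (1 : ℝ) ≤ R := by exact_mod_cast hR1
  have hD1 : 100000 * μ * R ≤ D := by
    refine le_of_sq_le_sq ?_ hD0
    rw [hD2]
    have : ((10 ^ 10 * μ ^ 2 * R ^ 2 : ℕ) : ℝ) ≤ Q := by exact_mod_cast h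
    push_cast at this
    linarith
  have hDμ : D ≤ 49 / 4 * (μ : ℝ) ^ 2 := by
    refine le_of_sq_le_sq ?_ (by positivity)
    rw [hD2]
    have : (Q : ℝ) < ((150 * μ ^ 4 : ℕ) : ℝ) := by exact_mod_cast hQ4
    push_cast at this
    have e : (49 / 4 * (μ : ℝ) ^ 2) ^ 2 = 2401 / 16 * (μ : ℝ) ^ 4 := by ring
    have h0 : (0 : ℝ) ≤ (μ : ℝ) ^ 4 := by positivity
    rw [e]
    linarith
  have hnD : (M.card : ℝ) ≤ 3 * D := by
    have hμ20 : 0 < 16 * (μ : ℝ) ^ 2 := by positivity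
    have g1 : 16 * (μ : ℝ) ^ 2 * M.card ≤ 16 * (μ : ℝ) ^ 2 * (3 * D) := by
      have g2 : D * D ≤ 49 / 4 * (μ : ℝ) ^ 2 * D := mul_le_mul_of_nonneg_right hDμ hD0
      have g3 : (R : ℝ) ≤ D := by
        have : 1 * (R : ℝ) ≤ 100000 * μ * R := mul_le_mul_of_nonneg_right (by linarith) (by linarith)
        linarith
      have g3' : 144 * (R : ℝ) ≤ D := by
        have : 144 * (R : ℝ) ≤ 100000 * μ * R :=
          mul_le_mul_of_nonneg_right (by linarith) (by linarith)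
        linarith
      have g4 : (μ : ℝ) ^ 2 * (144 * R) ≤ (μ : ℝ) ^ 2 * D :=
        mul_le_mul_of_nonneg_left g3' (by positivity)
      have g5 : 0 ≤ (μ : ℝ) ^ 2 * D := by positivity
      have e : D * D = Q := by rw [← sq]; exact hD2
      linarith
    exact le_of_mul_le_mul_left g1 hμ20
  have hn'0 : 0 < M.toList.length := by
    by_contra hcon
    have h1 : ∑ p, vec M p ^ 2 = 0 := by
      have : IsEmpty (Fin M.toList.length) := by
        rw [Nat.eq_zero_of_not_pos hcon]; infer_instance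
      exact Fintype.sum_empty _
    have h2 : 0 < 10 ^ 10 * μ ^ 2 * R ^ 2 := by positivity
    omega
  have hTpos' : 0 < ∑ p, (vec M p + 1).choose 2 := by
    have g1 : (vec M ⟨0, hn'0⟩ + 1).choose 2 ≤ ∑ p, (vec M p + 1).choose 2 :=
      single_le_sum (f := fun p => (vec M p + 1).choose 2) (fun _ _ => Nat.zero_le _) (mem_univ _)
    have g2 : 0 < (vec M ⟨0, hn'0⟩ + 1).choose 2 := Nat.choose_pos (by
      have := hpos' ⟨0, hn'0⟩
      omega)
    omega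
  refine Ex_of_crit (w := vec M) (fun d hT1 hT2 => crit_few (μ := 16 * μ) (r := 4 * R) hn'0
    hpos' hmax' hvals ?_ (Or.inl ?_) hT1 hT2) hTpos' d
  · refine le_trans ?_ hsq
    refine le_trans ?_ h
    have e : 1000000 * (4 * R) ^ 2 * (16 * μ) ^ 2 = 4096000000 * (μ ^ 2 * R ^ 2) := by ring
    have e2 : 10 ^ 10 * μ ^ 2 * R ^ 2 = 10000000000 * (μ ^ 2 * R ^ 2) := by ring
    rw [e, e2]
    exact Nat.mul_le_mul_right _ (by norm_num)
  · have g1 : ((M.card ^ 2 : ℕ) : ℝ) ≤ ((9 * Q : ℕ) : ℝ) := by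
      push_cast
      rw [← hD2]
      have := pow_le_pow_left₀ (Nat.cast_nonneg (α := ℝ) M.card) hnD 2
      have e : (3 * D) ^ 2 = 9 * D ^ 2 := by ring
      linarith
    have g2 : M.card ^ 2 ≤ 9 * Q := by exact_mod_cast g1
    have g3 : M.toList.length ^ 2 = M.card ^ 2 := congrArg (fun x => x ^ 2) hlen
    omega

/-- the expected dimension in every degree from exactness -/
theorem expDim_of_Ex {n : ℕ} {w : Fin n → ℕ} (hpos : 0 < ∑ p, (w p + 1).choose 2)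
    (h : ∀ d, Ex (TF d) w) :
    ∃ F : MvPolynomial (Fin n × Fin 2) ℚ, F ≠ 0 ∧ ∀ {L : Type} [Field L] [CharZero L]
      (P : Fin n → Fin 2 → L), MvPolynomial.aeval (fun ij : Fin n × Fin 2 => P ij.1 ij.2) F ≠ 0 →
      ∀ d, ExpDim L w P d :=
  expDim_of_crit hpos fun d _ _ => ⟨fun h1 => by
      rw [← coe_TF]
      exact Emp_of_Ex (h d) (by rw [card_TF]; exact h1), fun h1 => by
      rw [← coe_TF]
      exact Sur_of_Ex (h d) (by rw [card_TF]; exact h1)⟩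

/-- **No condition on the ratios.** -/
theorem max_all {n : ℕ} {w : Fin n → ℕ} {μ : ℕ} (hn0 : 0 < n) (hpos : ∀ p, 1 ≤ w p)
    (hμ : ∀ p, w p ≤ μ) (h : 10 ^ 10 * μ ^ 2 * RR w μ ^ 2 ≤ ∑ p, w p ^ 2) :
    ∃ F : MvPolynomial (Fin n × Fin 2) ℚ, F ≠ 0 ∧ ∀ {L : Type} [Field L] [CharZero L]
      (P : Fin n → Fin 2 → L), MvPolynomial.aeval (fun ij : Fin n × Fin 2 => P ij.1 ij.2) F ≠ 0 →
      ∀ d, ExpDim L w P d :=
  expDim_of_Ex (by
    have g1 : (w ⟨0, hn0⟩ + 1).choose 2 ≤ ∑ p, (w p + 1).choose 2 :=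
      single_le_sum (f := fun p => (w p + 1).choose 2) (fun _ _ => Nat.zero_le _) (mem_univ _)
    have g2 : 0 < (w ⟨0, hn0⟩ + 1).choose 2 := Nat.choose_pos (by
      have := hpos ⟨0, hn0⟩
      omega)
    omega) fun d => ex_max hn0 hpos hμ h d

end Pool.Agent.Y205.FW
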