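import Pool.Agent.Y205.FW.EmpFew
import Pool.Agent.Y205.MD.Crit3

/-! The hypothesis of the doubling theorem for few different multiplicities, with the exact sums of
squares. -/

set_option autoImplicit false

namespace Pool.Agent.Y205.FW

open Finset Module Pool.Agent.TH176.Nag Pool.Agent.TH603.Sur Pool.Agent.TH763.DB Pool.Agent.TH2.NU
open Pool.Agent.Y205.MD

/-- the sum of the squares of a balanced distribution of `X` on `A` places -/
def bq (A X : ℕ) : ℕ := A * (X / A) ^ 2 + X % A * (2 * (X / A) + 1)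

theorem bq_succ {A : ℕ} (hA : 0 < A) (X : ℕ) : bq A (X + 1) = bq A X + 2 * (X / A) + 1 := by
  obtain ⟨a, ha⟩ : ∃ a, a = X / A := ⟨_, rfl⟩
  obtain ⟨t, ht⟩ : ∃ t, t = X % A := ⟨_, rfl⟩
  have hX : A * a + t = X := by rw [ha, ht]; exact Nat.div_add_mod X A
  have htA : t < A := by rw [ht]; exact Nat.mod_lt _ hA
  rcases Nat.lt_or_ge (t + 1) A with h | h
  · have h1 : (X + 1) / A = a := by
      rw [← hX, add_assoc, Nat.mul_add_div hA, Nat.div_eq_of_lt h, add_zero]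
    have h2 : (X + 1) % A = t + 1 := by
      rw [← hX, add_assoc, Nat.mul_add_mod, Nat.mod_eq_of_lt h]
    unfold bq
    rw [h1, h2, ← ha, ← ht]
    ring
  · have h0 : t + 1 = A := by omega
    have e : X + 1 = A * (a + 1) := by rw [← hX, mul_add, mul_one]; omega
    have h1 : (X + 1) / A = a + 1 := by rw [e, Nat.mul_div_cancel_left _ hA]
    have h2 : (X + 1) % A = 0 := by rw [e, Nat.mul_mod_right]
    unfold bq
    rw [h1, h2, ← ha, ← ht, ← h0]
    ring

theorem bq_self_le (A X : ℕ) : X ≤ bq A X := by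
  have hX := Nat.div_add_mod X A
  obtain ⟨a, ha⟩ : ∃ a, a = X / A := ⟨_, rfl⟩
  obtain ⟨t, ht⟩ : ∃ t, t = X % A := ⟨_, rfl⟩
  unfold bq
  rw [← ha, ← ht] at hX ⊢
  have h1 : a ≤ a ^ 2 := Nat.le_self_pow (by norm_num) a
  have h2 := Nat.mul_le_mul_left A h1
  have h3 : t * 1 ≤ t * (2 * a + 1) := Nat.mul_le_mul_left t (by omega)
  omega

theorem bq_of_le {A X : ℕ} (hA : 0 < A) (h : X ≤ A) : bq A X = X := by
  rcases Nat.lt_or_ge X A with h1 | h1
  · unfold bq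
    rw [Nat.div_eq_of_lt h1, Nat.mod_eq_of_lt h1]
    ring
  · have : X = A := by omega
    subst this
    unfold bq
    rw [Nat.div_self hA, Nat.mod_self]
    ring

theorem bq_ge {A : ℕ} (hA : 0 < A) (X : ℕ) : X ^ 2 ≤ A * bq A X := by
  obtain ⟨a, ha⟩ : ∃ a, a = X / A := ⟨_, rfl⟩
  obtain ⟨t, ht⟩ : ∃ t, t = X % A := ⟨_, rfl⟩
  have hX : A * a + t = X := by rw [ha, ht]; exact Nat.div_add_mod X A
  have htA : t < A := by rw [ht]; exact Nat.mod_lt _ hA
  unfold bq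
  rw [← ha, ← ht, ← hX]
  have h1 : t * t ≤ A * t := Nat.mul_le_mul_right t htA.le
  have e1 : (A * a + t) ^ 2 = A * (A * a ^ 2) + 2 * (A * a * t) + t * t := by ring
  have e2 : A * (A * a ^ 2 + t * (2 * a + 1)) = A * (A * a ^ 2) + 2 * (A * a * t) + A * t := by ring
  omega

/-- a balanced raising -/
theorem balanced3 (A X : ℕ) (hA : 0 < A) (P : Finset (Fin A)) (hP : P.card ≤ X) :
    ∃ u : Fin A → ℕ, (∀ j, u j = X / A ∨ u j = X / A + 1) ∧
      (∀ j ∈ P, 1 ≤ u j) ∧ ∑ j, u j = X ∧ ∑ j, (u j : ℝ) ^ 2 = bq A X := by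
  classical
  obtain ⟨a, ha⟩ : ∃ a, a = X / A := ⟨_, rfl⟩
  obtain ⟨t, ht⟩ : ∃ t, t = X % A := ⟨_, rfl⟩
  have hX : A * a + t = X := by rw [ha, ht]; exact Nat.div_add_mod X A
  have htA : t < A := by rw [ht]; exact Nat.mod_lt _ hA
  obtain ⟨T, hTP, hT⟩ : ∃ T : Finset (Fin A), (a = 0 → P ⊆ T) ∧ T.card = t := by
    by_cases h0 : a = 0
    · rw [h0, mul_zero, zero_add] at hX
      obtain ⟨T, hT1, hT2⟩ := Finset.exists_superset_card_eq (s := P) (n := t) (by omega)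
        (by rw [Fintype.card_fin]; omega)
      exact ⟨T, fun _ => hT1, hT2⟩
    · obtain ⟨T, hT1, hT2⟩ := Finset.exists_subset_card_eq
        (s := (univ : Finset (Fin A))) (n := t) (by rw [card_univ, Fintype.card_fin]; omega)
      exact ⟨T, fun h => absurd h h0, hT2⟩
  refine ⟨fun j => a + if j ∈ T then 1 else 0, ?_, ?_, ?_, ?_⟩
  · intro j
    simp only
    split_ifs <;> omega
  · intro j hj
    by_cases h0 : a = 0
    · simp only [if_pos (hTP h0 hj)]
      omega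
    · simp only
      omega
  · rw [sum_add_distrib, sum_const, card_univ, Fintype.card_fin, smul_eq_mul, ← card_filter,
      Finset.filter_mem_eq_inter, Finset.univ_inter, hT, hX]
  · have e1 : ∀ j : Fin A, ((a + (if j ∈ T then 1 else 0) : ℕ) : ℝ) ^ 2 =
        (a : ℝ) ^ 2 + (if j ∈ T then (2 * a + 1 : ℝ) else 0) := by
      intro j
      split_ifs
      · push_cast; ring
      · push_cast; ring
    rw [sum_congr rfl fun j _ => e1 j, sum_add_distrib, sum_const, card_univ, Fintype.card_fin,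
      ← sum_filter, Finset.filter_mem_eq_inter, Finset.univ_inter, sum_const, hT, nsmul_eq_mul,
      nsmul_eq_mul]
    unfold bq
    rw [← ha, ← ht]
    push_cast
    ring

/-- emptiness for a vector with two neighbouring values in every class -/
theorem Emp_two_values2 {r : ℕ} {A : Fin r → ℕ} {κ : Type} [Fintype κ] {e : κ → ℕ} {d : ℕ}
    {B q : ℝ} (he : ∀ y, 1 ≤ e y) (hq : ((univ.image e).card : ℝ) + 2 * r ≤ q)
    (hB2 : ∀ y, (e y : ℝ) ≤ B)
    (hB3 : 12 * B ≤ d) (hB4 : (16 * q + 8) * B ^ 2 ≤ (d : ℝ) ^ 2) {v : (Σ i, Fin (A i)) → ℕ}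
    {f : Fin r → ℕ} (hf : ∀ i, 1 ≤ f i) (hfB : ∀ i, (f i : ℝ) + 1 ≤ B)
    (hv : ∀ z, v z = f z.1 ∨ v z = f z.1 + 1)
    (h3 : (d : ℝ) ^ 2 < ∑ z, (v z : ℝ) ^ 2 + ∑ y, (e y : ℝ) ^ 2) :
    Emp (Sum.elim v e) (TZ d) := by
  classical
  have hcard : ((univ.image (Sum.elim v e)).card : ℝ) ≤ q := by
    refine le_trans ?_ hq
    have h1 : univ.image (Sum.elim v e) ⊆ univ.image e ∪
        (univ : Finset (Fin r)).biUnion fun i => {f i, f i + 1} := by
      intro t ht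
      obtain ⟨x, -, hx⟩ := mem_image.1 ht
      rw [mem_union, mem_biUnion]
      rcases x with z | y
      · right
        refine ⟨z.1, mem_univ _, ?_⟩
        rw [mem_insert, mem_singleton, ← hx]
        exact hv z
      · left
        rw [← hx]
        exact mem_image_of_mem _ (mem_univ _)
    have h2 := (card_le_card h1).trans (card_union_le _ _)
    have h4 : ((univ : Finset (Fin r)).biUnion fun i => {f i, f i + 1}).card ≤ 2 * r := by
      refine card_biUnion_le.trans ?_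
      refine (sum_le_sum fun i _ => card_le_two).trans ?_
      rw [sum_const, card_univ, Fintype.card_fin, smul_eq_mul, Nat.mul_comm]
    have h5 : (univ.image (Sum.elim v e)).card ≤ (univ.image e).card + 2 * r := by omega
    exact_mod_cast h5
  refine Emp_few (M := B) ?_ ?_ hB3 ?_ ?_
  · rintro (z | y)
    · simp only [Sum.elim_inl]
      have := hf z.1
      rcases hv z with h | h <;> omega
    · exact he y
  · rintro (z | y)
    · simp only [Sum.elim_inl]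
      have := hfB z.1
      rcases hv z with h | h
      · rw [h]; linarith
      · rw [h]; push_cast; linarith
    · exact hB2 y
  · refine le_trans ?_ hB4
    exact mul_le_mul_of_nonneg_right (by linarith) (sq_nonneg _)
  · rw [Fintype.sum_sum_type]
    simp only [Sum.elim_inl, Sum.elim_inr]
    exact h3

/-- the hypothesis of the doubling theorem -/
theorem raise_ex {r : ℕ} {A m : Fin r → ℕ} {κ : Type} [Fintype κ] {e : κ → ℕ} {d : ℕ}
    {B q y : ℝ} (hA : ∀ i, 1 ≤ A i) (hm : ∀ i, 1 ≤ m i) (he : ∀ y, 1 ≤ e y)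
    (hq : ((univ.image e).card : ℝ) + 2 * r ≤ q) (hB2 : ∀ y, (e y : ℝ) ≤ B)
    (hB3 : 12 * B ≤ d) (hB4 : (16 * q + 8) * B ^ 2 ≤ (d : ℝ) ^ 2)
    (hT : (d : ℝ) ^ 2 + d < ∑ i, 4 * (A i : ℝ) * (m i * (m i + 1)) + ∑ y, (e y : ℝ) * (e y + 1))
    (hy0 : 0 ≤ y) (hy : ∀ i, 4 * ∑ j, (m j : ℝ) * A j + A i ≤ A i * y ^ 2)
    (hB1 : ∀ i, 2 * (m i : ℝ) + y + 2 ≤ B)
    (he3 : ∀ i, ∑ y, (e y : ℝ) + 4 * m i + 2 * y + 2 ≤ d)
    (J : Finset (Σ i, Fin (A i))) (k : Σ i, Fin (A i)) (hk : k ∉ J) :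
    ∃ v : (Σ i, Fin (A i)) → ℕ,
      (∀ z, lw (fun z => 2 * m z.1) (insert k J) z ≤ v z) ∧
      (∀ z : Σ i, Fin (A i), 2 * m z.1 ≠ 2 * m k.1 → v z = lw (fun z => 2 * m z.1) J z) ∧
      Emp (Sum.elim v e) (TZ d) ∧
      (((2 * m k.1 + 1) / 2 : ℕ) : ℝ) *
        (∑ x, (((v x + 1).choose 2 : ℕ) : ℝ) -
          ∑ x, (((lw (fun x => 2 * m x.1) J x + 1).choose 2 : ℕ) : ℝ)) ≤
        (((2 * m k.1 : ℕ) : ℝ) + 1) * ∑ x ∈ Jᶜ, (((2 * m x.1 + 1) / 2 : ℕ) : ℝ) := by
  classical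
  obtain ⟨k1, k2⟩ := k
  simp only
  have hhalf : ∀ a : ℕ, (2 * a + 1) / 2 = a := fun a => by omega
  simp only [hhalf]
  have hA0' : ∀ i, 0 < A i := fun i => hA i
  have hA0 : ∀ i, (0 : ℝ) < A i := fun i => by exact_mod_cast hA0' i
  obtain ⟨G, hG⟩ : ∃ G : ℝ, G = ∑ y, (e y : ℝ) ^ 2 := ⟨_, rfl⟩
  have hG0 : 0 ≤ G := by rw [hG]; positivity
  have hm0 : ∀ i, (0 : ℝ) < m i := fun i => by
    have : 0 < m i := hm i
    exact_mod_cast this
  -- the number of raised clusters in the class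
  obtain ⟨jk, hjj⟩ : ∃ jk : ℕ, jk = ∑ j : Fin (A k1), if (⟨k1, j⟩ : Σ i, Fin (A i)) ∈ J
    then 1 else 0 := ⟨_, rfl⟩
  have hjk : jk + 1 ≤ A k1 := by
    rw [hjj]
    have h1 : ∑ j : Fin (A k1), (if (⟨k1, j⟩ : Σ i, Fin (A i)) ∈ J then 1 else 0) <
        ∑ j : Fin (A k1), 1 := by
      refine sum_lt_sum (fun j _ => by split_ifs <;> omega) ⟨k2, mem_univ _, ?_⟩
      rw [if_neg hk]
      omega
    have h2 : ∑ j : Fin (A k1), 1 = A k1 := by simp
    omega
  have hins : ∀ x : Σ i, Fin (A i), x ≠ ⟨k1, k2⟩ →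
      lw (fun x => 2 * m x.1) (insert ⟨k1, k2⟩ J) x = lw (fun x => 2 * m x.1) J x := by
    intro x hx
    unfold lw
    simp [mem_insert, hx]
  have hmi : ∀ j : Fin (A k1), (⟨k1, j⟩ : Σ i, Fin (A i)) ∈ insert (⟨k1, k2⟩ : Σ i, Fin (A i)) J ↔
      (j = k2 ∨ (⟨k1, j⟩ : Σ i, Fin (A i)) ∈ J) := by
    intro j
    rw [mem_insert]
    simp
  -- the vector
  let V : (Fin (A k1) → ℕ) → (Σ i, Fin (A i)) → ℕ := fun u x =>
    if x.1 = k1 then 2 * m k1 + Function.extend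
      (fun j : Fin (A k1) => (⟨k1, j⟩ : Σ i, Fin (A i))) u (fun _ => 0) x
    else lw (fun x => 2 * m x.1) J x
  have hV1 : ∀ u j, V u ⟨k1, j⟩ = 2 * m k1 + u j := by
    intro u j
    have hinj : Function.Injective fun j : Fin (A k1) => (⟨k1, j⟩ : Σ i, Fin (A i)) := by
      intro a b hab
      exact eq_of_heq (Sigma.mk.inj_iff.1 hab).2
    have e1 := hinj.extend_apply u (fun _ => 0) j
    show (if k1 = k1 then 2 * m k1 + Function.extend
      (fun j : Fin (A k1) => (⟨k1, j⟩ : Σ i, Fin (A i))) u (fun _ => 0) ⟨k1, j⟩ else _) = _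
    rw [if_pos rfl, e1]
  have hV2 : ∀ u i j, i ≠ k1 → V u ⟨i, j⟩ = lw (fun x => 2 * m x.1) J ⟨i, j⟩ := by
    intro u i j hi
    exact if_neg hi
  -- sums over the class
  have hdiff : ∀ (F : ℕ → ℝ) (u : Fin (A k1) → ℕ), ∑ x, F (V u x) -
      ∑ x, F (lw (fun x => 2 * m x.1) J x) =
      ∑ j : Fin (A k1), (F (2 * m k1 + u j) - F (lw (fun x => 2 * m x.1) J ⟨k1, j⟩)) := by
    intro F u
    rw [Fintype.sum_sigma, Fintype.sum_sigma, ← sum_sub_distrib, Finset.sum_eq_single k1]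
    · rw [← sum_sub_distrib]
      exact sum_congr rfl fun j _ => by rw [hV1]
    · intro i _ hi
      rw [sub_eq_zero]
      exact sum_congr rfl fun j _ => by rw [hV2 u i j hi]
    · intro h
      exact absurd (mem_univ _) h
  have hjr : ∑ j : Fin (A k1), ((if (⟨k1, j⟩ : Σ i, Fin (A i)) ∈ J then 1 else 0 : ℕ) : ℝ) =
      jk := by
    rw [hjj]
    push_cast
    rfl
  have hsqd : ∀ u : Fin (A k1) → ℕ, ∑ x, (V u x : ℝ) ^ 2 -
      ∑ x, (lw (fun x => 2 * m x.1) J x : ℝ) ^ 2 =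
      4 * (m k1 : ℝ) * (((∑ j, u j : ℕ) : ℝ) - jk) + ∑ j, (u j : ℝ) ^ 2 - jk := by
    intro u
    rw [hdiff (fun a => (a : ℝ) ^ 2) u]
    have e1 : ∀ j : Fin (A k1), (((2 * m k1 + u j : ℕ) : ℝ) ^ 2 -
        ((lw (fun x => 2 * m x.1) J ⟨k1, j⟩ : ℕ) : ℝ) ^ 2) =
        4 * (m k1 : ℝ) * ((u j : ℝ) - ((if (⟨k1, j⟩ : Σ i, Fin (A i)) ∈ J
          then 1 else 0 : ℕ) : ℝ)) + (u j : ℝ) ^ 2 - ((if (⟨k1, j⟩ : Σ i, Fin (A i)) ∈ J
          then 1 else 0 : ℕ) : ℝ) := by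
      intro j
      unfold lw
      split_ifs
      · push_cast; ring
      · push_cast; ring
    rw [sum_congr rfl fun j _ => e1 j, sum_sub_distrib, sum_add_distrib, ← mul_sum,
      sum_sub_distrib, hjr]
    push_cast
    ring
  have hcost : ∀ u : Fin (A k1) → ℕ, ∑ x, (((V u x + 1).choose 2 : ℕ) : ℝ) -
      ∑ x, (((lw (fun x => 2 * m x.1) J x + 1).choose 2 : ℕ) : ℝ) =
      ((4 * (m k1 : ℝ) + 1) * (((∑ j, u j : ℕ) : ℝ) - jk) + ∑ j, (u j : ℝ) ^ 2 - jk) / 2 := by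
    intro u
    rw [hdiff (fun a => (((a + 1).choose 2 : ℕ) : ℝ)) u]
    have e1 : ∀ j : Fin (A k1), (((2 * m k1 + u j + 1).choose 2 : ℕ) : ℝ) -
        (((lw (fun x => 2 * m x.1) J ⟨k1, j⟩ + 1).choose 2 : ℕ) : ℝ) =
        ((4 * (m k1 : ℝ) + 1) * ((u j : ℝ) - ((if (⟨k1, j⟩ : Σ i, Fin (A i)) ∈ J
          then 1 else 0 : ℕ) : ℝ)) + (u j : ℝ) ^ 2 - ((if (⟨k1, j⟩ : Σ i, Fin (A i)) ∈ J
          then 1 else 0 : ℕ) : ℝ)) / 2 := by
      intro j
      rw [choose_real, choose_real]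
      unfold lw
      split_ifs
      · push_cast; ring
      · push_cast; ring
    rw [sum_congr rfl fun j _ => e1 j, ← sum_div, sum_sub_distrib, sum_add_distrib, ← mul_sum,
      sum_sub_distrib, hjr]
    push_cast
    ring
  -- emptiness
  obtain ⟨S0, hS0⟩ : ∃ S0 : ℝ, S0 = ∑ x, (lw (fun x => 2 * m x.1) J x : ℝ) ^ 2 + G := ⟨_, rfl⟩
  have hEmp : ∀ (u : Fin (A k1) → ℕ) (X a : ℕ) (s : ℝ), ∑ j, u j = X →
      (∀ j, u j = a ∨ u j = a + 1) → ∑ j, (u j : ℝ) ^ 2 = s →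
      (a : ℝ) ≤ y + 1 →
      (d : ℝ) ^ 2 < S0 + 4 * m k1 * ((X : ℝ) - jk) + s - jk →
      Emp (Sum.elim (V u) e) (TZ d) := by
    intro u X a s hu hua hs hay hW
    refine Emp_two_values2 he hq hB2 hB3 hB4 (f := fun i => 2 * m i + if i = k1 then a else 0)
      ?_ ?_ ?_ ?_
    · intro i
      have := hm i
      omega
    · intro i
      have := hB1 i
      push_cast
      split_ifs
      · linarith
      · push_cast; linarith
    · rintro ⟨i, j⟩
      by_cases hi : i = k1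
      · subst hi
        rw [hV1]
        simp only [if_true]
        rcases hua j with h | h <;> omega
      · rw [hV2 u i j hi]
        simp only [if_neg hi]
        unfold lw
        simp only
        split_ifs <;> omega
    · have h1 := hsqd u
      rw [hu, hs] at h1
      rw [← hG]
      rw [hS0] at hW
      linarith
  -- the weight of the complement
  obtain ⟨P, hP⟩ : ∃ P : ℝ, P = ∑ x ∈ Jᶜ, (m x.1 : ℝ) := ⟨_, rfl⟩
  have hP1 : P = ∑ x, (if x ∈ J then 0 else (m x.1 : ℝ)) := by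
    rw [hP, ← sum_filter_add_sum_filter_not univ (fun x => x ∈ J)
      (fun x => if x ∈ J then (0 : ℝ) else (m x.1 : ℝ))]
    have e2 : ∑ x ∈ univ.filter (fun x => x ∈ J), (if x ∈ J then (0 : ℝ) else (m x.1 : ℝ)) = 0 :=
      sum_eq_zero fun x hx => if_pos (mem_filter.1 hx).2
    have e3 : (univ.filter fun x => x ∉ J) = Jᶜ := by
      ext x
      simp
    rw [e2, zero_add, e3]
    exact sum_congr rfl fun x hx => (if_neg (mem_compl.1 hx)).symm
  have hPk : (m k1 : ℝ) ≤ P := by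
    rw [hP]
    exact single_le_sum (f := fun x : Σ i, Fin (A i) => (m x.1 : ℝ))
      (fun x _ => (hm0 x.1).le) (mem_compl.2 hk)
  obtain ⟨t, htt⟩ : ∃ t : ℝ, t = ∑ i, (m i : ℝ) * A i := ⟨_, rfl⟩
  have hPmax : P ≤ t := by
    rw [hP1, htt]
    have e1 : ∑ i, (m i : ℝ) * A i = ∑ x : Σ i, Fin (A i), (m x.1 : ℝ) := by
      rw [Fintype.sum_sigma]
      refine sum_congr rfl fun i _ => ?_
      simp [mul_comm]
    rw [e1]
    refine sum_le_sum fun x _ => ?_
    split_ifs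
    · exact (hm0 _).le
    · exact le_rfl
  obtain ⟨E, hE⟩ : ∃ E : ℝ, E = ∑ y, (e y : ℝ) := ⟨_, rfl⟩
  have hE0 : 0 ≤ E := by rw [hE]; exact sum_nonneg fun y _ => Nat.cast_nonneg _
  have hmain : (d : ℝ) ^ 2 + d < S0 + 4 * P + E := by
    have e1 : ∑ y, (e y : ℝ) * (e y + 1) = G + E := by
      rw [hG, hE, ← sum_add_distrib]
      exact sum_congr rfl fun y _ => by ring
    have e2 : ∑ i, 4 * (A i : ℝ) * (m i * (m i + 1)) =
        ∑ x : Σ i, Fin (A i), 4 * ((m x.1 : ℝ) * (m x.1 + 1)) := by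
      rw [Fintype.sum_sigma]
      refine sum_congr rfl fun i _ => ?_
      simp only [sum_const, card_univ, Fintype.card_fin, nsmul_eq_mul]
      ring
    have e3 : ∑ x : Σ i, Fin (A i), 4 * ((m x.1 : ℝ) * (m x.1 + 1)) ≤
        ∑ x, (lw (fun x => 2 * m x.1) J x : ℝ) ^ 2 + 4 * P := by
      rw [hP1, mul_sum, ← sum_add_distrib]
      refine sum_le_sum fun x _ => ?_
      unfold lw
      simp only
      split_ifs
      · push_cast
        linarith
      · push_cast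
        linarith
    rw [e1, e2] at hT
    rw [hS0]
    linarith
  rw [← hP]
  have hfin : ∀ (u : Fin (A k1) → ℕ) (X a : ℕ) (s : ℝ), ∑ j, u j = X →
      (∀ j, u j = a ∨ u j = a + 1) → ∑ j, (u j : ℝ) ^ 2 = s →
      (a : ℝ) ≤ y + 1 →
      (∀ j, (if (⟨k1, j⟩ : Σ i, Fin (A i)) ∈ insert (⟨k1, k2⟩ : Σ i, Fin (A i)) J
        then 1 else 0) ≤ u j) →
      (d : ℝ) ^ 2 < S0 + 4 * m k1 * ((X : ℝ) - jk) + s - jk →
      (m k1 : ℝ) * (((4 * (m k1 : ℝ) + 1) * ((X : ℝ) - jk) + s - jk) / 2) ≤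
        (((2 * m k1 : ℕ) : ℝ) + 1) * P →
      ∃ v : (Σ i, Fin (A i)) → ℕ,
      (∀ x, lw (fun x => 2 * m x.1) (insert ⟨k1, k2⟩ J) x ≤ v x) ∧
      (∀ x : Σ i, Fin (A i), 2 * m x.1 ≠ 2 * m k1 → v x = lw (fun x => 2 * m x.1) J x) ∧
      Emp (Sum.elim v e) (TZ d) ∧
      (m k1 : ℝ) * (∑ x, (((v x + 1).choose 2 : ℕ) : ℝ) -
          ∑ x, (((lw (fun x => 2 * m x.1) J x + 1).choose 2 : ℕ) : ℝ)) ≤
        (((2 * m k1 : ℕ) : ℝ) + 1) * P := by
    intro u X a s hu hua hs hay hu1 hW hC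
    refine ⟨V u, ?_, ?_, hEmp u X a s hu hua hs hay hW, ?_⟩
    · rintro ⟨i, j⟩
      by_cases hi : i = k1
      · subst hi
        rw [hV1]
        unfold lw
        exact Nat.add_le_add_left (hu1 j) _
      · rw [hV2 u i j hi, hins]
        intro h
        exact hi (congrArg Sigma.fst h)
    · rintro ⟨i, j⟩ hx
      exact hV2 u i j fun hi => hx (by simp only [hi])
    · rw [hcost u, hu, hs]
      exact hC
  obtain ⟨M, hM⟩ : ∃ M : ℝ, M = m k1 := ⟨_, rfl⟩
  have hM0 : 0 < M := by rw [hM]; exact hm0 _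
  obtain ⟨a, ha⟩ : ∃ a : ℝ, a = A k1 := ⟨_, rfl⟩
  have ha0 : 0 < a := by rw [ha]; exact hA0 _
  have hj0 : (0 : ℝ) ≤ jk := Nat.cast_nonneg _
  have hja : (jk : ℝ) + 1 ≤ a := by rw [ha]; exact_mod_cast hjk
  have he3k := he3 k1
  rw [← hE, ← hM] at he3k
  have hyk := hy k1
  rw [← htt, ← ha] at hyk
  have hcardP : (univ.filter fun j => (⟨k1, j⟩ : Σ i, Fin (A i)) ∈
      insert (⟨k1, k2⟩ : Σ i, Fin (A i)) J).card ≤ jk + 1 := by
    have e2 : (univ.filter fun j => (⟨k1, j⟩ : Σ i, Fin (A i)) ∈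
      insert (⟨k1, k2⟩ : Σ i, Fin (A i)) J) ⊆
        insert k2 (univ.filter fun j => (⟨k1, j⟩ : Σ i, Fin (A i)) ∈ J) := by
      intro j hj
      rw [mem_filter, hmi] at hj
      rw [mem_insert, mem_filter]
      rcases hj.2 with h2 | h2
      · exact Or.inl h2
      · exact Or.inr ⟨mem_univ _, h2⟩
    refine (card_le_card e2).trans ((card_insert_le _ _).trans ?_)
    rw [card_filter, hjj]
  by_cases hW0 : (d : ℝ) ^ 2 < S0 + 4 * M + 1
  · -- raising of one cluster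
    obtain ⟨u, hu⟩ : ∃ u : Fin (A k1) → ℕ, ∀ j, u j =
      if (⟨k1, j⟩ : Σ i, Fin (A i)) ∈ insert (⟨k1, k2⟩ : Σ i, Fin (A i)) J then 1 else 0 :=
      ⟨_, fun _ => rfl⟩
    have hsum : ∑ j, u j = jk + 1 := by
      have e1 : ∀ j, u j = (if (⟨k1, j⟩ : Σ i, Fin (A i)) ∈ J then 1 else 0) +
          if j = k2 then 1 else 0 := by
        intro j
        rw [hu]
        by_cases hj : j = k2
        · subst hj
          rw [if_pos (mem_insert_self _ _), if_neg hk, if_pos rfl]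
        · simp only [hmi, hj, false_or, if_false, add_zero]
      rw [sum_congr rfl fun j _ => e1 j, sum_add_distrib, hjj, sum_ite_eq' univ k2,
        if_pos (mem_univ _)]
    have hsq : ∑ j, (u j : ℝ) ^ 2 = jk + 1 := by
      have e1 : ∀ j, (u j : ℝ) ^ 2 = (u j : ℝ) := by
        intro j
        rw [hu]
        split_ifs <;> simp
      rw [sum_congr rfl fun j _ => e1 j]
      have : ((∑ j, u j : ℕ) : ℝ) = ((jk + 1 : ℕ) : ℝ) := by rw [hsum]
      push_cast at this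
      exact this
    refine hfin u (jk + 1) 0 _ hsum (fun j => by rw [hu]; split_ifs <;> simp) hsq
      (by push_cast; linarith) (fun j => (hu j).ge) ?_ ?_
    · rw [← hM]
      push_cast
      linarith
    · push_cast
      rw [← hM]
      have e : M * (((4 * M + 1) * ((jk : ℝ) + 1 - jk) + (jk + 1) - jk) / 2) =
          (2 * M + 1) * M := by ring
      rw [e]
      rw [← hM] at hPk
      exact mul_le_mul_of_nonneg_left hPk (by linarith)
  · -- balanced raisings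
    push Not at hW0
    have hex : ∃ X : ℕ, jk + 1 < X ∧ (d : ℝ) ^ 2 <
        S0 + 4 * M * ((X : ℝ) - jk) + bq (A k1) X - jk := by
      refine ⟨A k1 * (d + 3), ?_, ?_⟩
      · have h1 : A k1 * 3 ≤ A k1 * (d + 3) := Nat.mul_le_mul_left _ (by omega)
        have := hA k1
        omega
      · have g1 : ((A k1 * (d + 3) : ℕ) : ℝ) ^ 2 ≤ a * bq (A k1) (A k1 * (d + 3)) := by
          rw [ha]
          exact_mod_cast bq_ge (hA0' k1) _
        have g2 : ((A k1 * (d + 3) : ℕ) : ℝ) = a * (d + 3) := by rw [ha]; push_cast; ring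
        rw [g2] at g1 ⊢
        have g3 : a * (a * ((d : ℝ) + 3) ^ 2) ≤ a * bq (A k1) (A k1 * (d + 3)) := by
          have : (a * ((d : ℝ) + 3)) ^ 2 = a * (a * (d + 3) ^ 2) := by ring
          rw [← this]
          exact g1
        have g4 : a * ((d : ℝ) + 3) ^ 2 ≤ bq (A k1) (A k1 * (d + 3)) :=
          le_of_mul_le_mul_left g3 ha0
        have hd0 : (0 : ℝ) ≤ d := Nat.cast_nonneg _
        have g5 : 0 ≤ S0 := by rw [hS0]; positivity
        have g6 : a * 1 ≤ a * (d + 3) := mul_le_mul_of_nonneg_left (by linarith) ha0.le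
        have g7 : 0 ≤ 4 * M * (a * ((d : ℝ) + 3) - jk) := mul_nonneg (by positivity) (by linarith)
        have ha1 : 1 ≤ a := by linarith
        have g8 : (d : ℝ) ^ 2 + 9 ≤ (d + 3) ^ 2 := by
          have : ((d : ℝ) + 3) ^ 2 = d ^ 2 + 6 * d + 9 := by ring
          rw [this]
          linarith
        have g9 : a * ((d : ℝ) ^ 2 + 9) ≤ a * (d + 3) ^ 2 := mul_le_mul_of_nonneg_left g8 ha0.le
        have g10 : 1 * (d : ℝ) ^ 2 ≤ a * d ^ 2 := mul_le_mul_of_nonneg_right ha1 (sq_nonneg _)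
        linarith
    obtain ⟨X, hX1, hX2, hX3⟩ : ∃ X : ℕ, jk + 1 < X + 1 ∧ (d : ℝ) ^ 2 <
        S0 + 4 * M * (((X + 1 : ℕ) : ℝ) - jk) + bq (A k1) (X + 1) - jk ∧
        S0 + 4 * M * ((X : ℝ) - jk) + bq (A k1) X - jk ≤ (d : ℝ) ^ 2 := by
      obtain ⟨g1, g2⟩ := Nat.find_spec hex
      obtain ⟨Y, hY⟩ : ∃ Y, Nat.find hex = Y + 1 := ⟨Nat.find hex - 1, by omega⟩
      rw [hY] at g1 g2
      refine ⟨Y, g1, g2, ?_⟩
      rcases Nat.lt_or_ge (jk + 1) Y with h2 | h2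
      · have h3 := Nat.find_min hex (m := Y) (by omega)
        push Not at h3
        exact h3 h2
      · have : Y = jk + 1 := by omega
        rw [this, bq_of_le (hA0' k1) hjk]
        push_cast
        linarith
    have hbs : (bq (A k1) (X + 1) : ℝ) = bq (A k1) X + 2 * ((X / A k1 : ℕ) : ℝ) + 1 := by
      exact_mod_cast bq_succ (hA0' k1) X
    obtain ⟨b, hb⟩ : ∃ b : ℝ, b = bq (A k1) X := ⟨_, rfl⟩
    obtain ⟨α, hα⟩ : ∃ α : ℝ, α = ((X / A k1 : ℕ) : ℝ) := ⟨_, rfl⟩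
    rw [← hb, ← hα] at hbs
    rw [← hb] at hX3
    have hXb : (X : ℝ) ≤ b := by rw [hb]; exact_mod_cast bq_self_le _ _
    have hX2b : (X : ℝ) ^ 2 ≤ a * b := by
      rw [ha, hb]
      exact_mod_cast bq_ge (hA0' k1) X
    have hjX : (jk : ℝ) + 1 ≤ X := by
      have : jk + 1 ≤ X := by omega
      exact_mod_cast this
    have hcore : 4 * M * ((X : ℝ) - jk) + b - jk < 4 * P + E - d := by linarith
    -- the bound for `X`
    have hXa : (X : ℝ) ≤ a * y := by
      have g1 : 0 ≤ 4 * M * ((X : ℝ) - jk) := mul_nonneg (by positivity) (by linarith)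
      have g2 : b ≤ a * y ^ 2 := by linarith
      have g3 : (X : ℝ) ^ 2 ≤ (a * y) ^ 2 := by
        have : (a * y) ^ 2 = a * (a * y ^ 2) := by ring
        rw [this]
        exact hX2b.trans (mul_le_mul_of_nonneg_left g2 ha0.le)
      exact le_of_sq_le_sq g3 (by positivity)
    have hαy : α ≤ y := by
      have g1 : α ≤ X / a := by rw [hα, ha]; exact Nat.cast_div_le
      refine g1.trans ?_
      rw [div_le_iff₀ ha0]
      linarith
    obtain ⟨u, hu0, hu1, hu2, hu3⟩ := balanced3 (A k1) (X + 1) (hA0' k1)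
      (univ.filter fun j => (⟨k1, j⟩ : Σ i, Fin (A i)) ∈ insert (⟨k1, k2⟩ : Σ i, Fin (A i)) J)
      (by omega)
    refine hfin u (X + 1) ((X + 1) / A k1) _ hu2 hu0 hu3 ?_ ?_ (by rw [← hM]; exact hX2) ?_
    · have g1 : (((X + 1) / A k1 : ℕ) : ℝ) ≤ ((X + 1 : ℕ) : ℝ) / a := by
        rw [ha]; exact Nat.cast_div_le
      refine g1.trans ?_
      rw [div_le_iff₀ ha0]
      push_cast
      have ha1 : 1 ≤ a := by linarith
      linarith
    · intro j
      split_ifs with hj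
      · exact hu1 j (mem_filter.2 ⟨mem_univ _, hj⟩)
      · exact Nat.zero_le _
    · rw [← hM, hbs]
      push_cast
      have e1 : (2 * (m k1 : ℝ) + 1) = 2 * M + 1 := by rw [hM]
      rw [e1]
      have g1 : M * ((X : ℝ) - jk) ≤ P + (E - d) / 4 := by
        have : 0 ≤ b - jk := by linarith
        linarith
      have g2 : M * (4 * M * ((X : ℝ) - jk) + b - jk) ≤ M * (4 * P + E - d) :=
        mul_le_mul_of_nonneg_left hcore.le hM0.le
      have g3 : M * (E - d + 4 * M + 2 * α + 2) ≤ 0 :=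
        mul_nonpos_of_nonneg_of_nonpos hM0.le (by linarith)
      have g4 : 0 ≤ M * (jk : ℝ) := by positivity
      have g5 : 0 ≤ P := by rw [← hM] at hPk; linarith
      have e2 : M * (((4 * M + 1) * ((X : ℝ) + 1 - jk) + (b + 2 * α + 1) - jk) / 2) =
          (M * (4 * M * ((X : ℝ) - jk) + b - jk) + M * ((X : ℝ) - jk) +
            M * (4 * M + 2 * α + 2)) / 2 := by ring
      rw [e2]
      have e3 : M * (4 * P + E - d) = 4 * (M * P) + M * (E - d) := by ring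
      have e4 : M * (E - d + 4 * M + 2 * α + 2) = M * (E - d) + M * (4 * M + 2 * α + 2) := by ring
      have e5 : (2 * M + 1) * P = 2 * (M * P) + P := by ring
      rw [e5]
      rw [e3] at g2
      rw [e4] at g3
      have g6 : E - d ≤ 0 := by
        have : 0 ≤ y := hy0
        linarith
      linarith

end Pool.Agent.Y205.FW
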