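import Mathlib

/-! Numerical estimates. -/

set_option autoImplicit false

namespace Pool.Agent.Y205.FW

open Finset

theorem few_basic {D L n μ r : ℝ} {d : ℕ} (hr : 1 ≤ r) (hμ : 1 ≤ μ) (hD0 : 0 < D)
    (hn : n ≤ 3 * D) (hCS : L ^ 2 ≤ n * D ^ 2) (hLμ : D ^ 2 ≤ μ * L) (hLn : L ≤ n * μ)
    (h1 : 1000 * r * μ ≤ D) (hL0 : 0 ≤ L)
    (hT1 : (d : ℝ) ^ 2 + d < D ^ 2 + L) (hT2 : D ^ 2 + L ≤ ((d : ℝ) + 2) * (d + 3)) :
    1000 * μ ≤ D ∧ 1000 ≤ 3 * μ ∧ L ≤ 3 / 1000 * D ^ 2 ∧ √L ≤ 11 / 200 * D ∧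
      r * L ≤ 3 / 1000 * D ^ 2 ∧ D ≤ d ∧ (d : ℝ) + 3 ≤ 101 / 100 * D := by
  have hμ0 : 0 < μ := by linarith
  have h2 : 1000 * μ ≤ D := by
    have : 1000 * 1 * μ ≤ 1000 * r * μ := by
      apply mul_le_mul_of_nonneg_right _ hμ0.le
      linarith
    linarith
  have hL3 : L ^ 2 ≤ 3 * D ^ 3 := by
    refine hCS.trans ?_
    have := mul_le_mul_of_nonneg_right hn (sq_nonneg D)
    linarith [show 3 * D * D ^ 2 = 3 * D ^ 3 by ring]
  have hDμ : D ≤ 3 * μ ^ 2 := by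
    have g1 : (D ^ 2) ^ 2 ≤ (μ * L) ^ 2 := pow_le_pow_left₀ (by positivity) hLμ 2
    have g3 : D ^ 3 * D ≤ D ^ 3 * (3 * μ ^ 2) := by
      calc D ^ 3 * D = (D ^ 2) ^ 2 := by ring
        _ ≤ (μ * L) ^ 2 := g1
        _ = μ ^ 2 * L ^ 2 := by ring
        _ ≤ μ ^ 2 * (3 * D ^ 3) := mul_le_mul_of_nonneg_left hL3 (by positivity)
        _ = D ^ 3 * (3 * μ ^ 2) := by ring
    exact le_of_mul_le_mul_left g3 (by positivity)
  have h3 : 1000 ≤ 3 * μ := by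
    have : μ * 1000 ≤ μ * (3 * μ) := by
      have e : μ * (3 * μ) = 3 * μ ^ 2 := by ring
      rw [e]
      linarith
    exact le_of_mul_le_mul_left this hμ0
  have hDbig : 1000000 ≤ 3 * D := by linarith
  have h4 : L ≤ 3 / 1000 * D ^ 2 := by
    have g1 : 3 * D ^ 3 ≤ (3 / 1000 * D ^ 2) ^ 2 := by
      have e : (3 / 1000 * D ^ 2) ^ 2 - 3 * D ^ 3 = D ^ 3 * (9 / 1000000 * D - 3) := by ring
      have : 0 ≤ D ^ 3 * (9 / 1000000 * D - 3) := mul_nonneg (by positivity) (by linarith)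
      linarith
    exact le_of_sq_le_sq (hL3.trans g1) (by positivity)
  have h5 : √L ≤ 11 / 200 * D := by
    rw [Real.sqrt_le_left (by positivity)]
    have e : (11 / 200 * D) ^ 2 = 121 / 40000 * D ^ 2 := by ring
    rw [e]
    have : 0 ≤ D ^ 2 := sq_nonneg D
    linarith
  have h6 : r * L ≤ 3 / 1000 * D ^ 2 := by
    have g1 : r * L ≤ r * (3 * D * μ) := by
      apply mul_le_mul_of_nonneg_left _ (by linarith)
      refine hLn.trans (mul_le_mul_of_nonneg_right hn hμ0.le)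
    have g2 := mul_le_mul_of_nonneg_left h1 hD0.le
    have e : r * (3 * D * μ) = 3 / 1000 * (D * (1000 * r * μ)) := by ring
    have e2 : D * D = D ^ 2 := by ring
    rw [e] at g1
    linarith
  have hd0 : (0 : ℝ) ≤ d := Nat.cast_nonneg _
  have h7 : D ≤ d := by
    by_contra hcon
    push Not at hcon
    have g1 : ((d : ℝ) + 2) * (d + 3) < (D + 2) * (D + 3) :=
      mul_lt_mul'' (by linarith) (by linarith) (by linarith) (by linarith)
    have g2 : 1000 * D ≤ L := by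
      have h0 := mul_le_mul_of_nonneg_right h2 hD0.le
      have : μ * (1000 * D) ≤ μ * L := by
        have e : μ * (1000 * D) = 1000 * μ * D := by ring
        have e2 : D * D = D ^ 2 := by ring
        linarith
      exact le_of_mul_le_mul_left this hμ0
    have e : (D + 2) * (D + 3) = D ^ 2 + 5 * D + 6 := by ring
    linarith
  have h8 : (d : ℝ) + 3 ≤ 101 / 100 * D := by
    have g1 : (d : ℝ) < 201 / 200 * D := by
      by_contra hcon
      push Not at hcon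
      have g2 : (201 / 200 * D) ^ 2 ≤ (d : ℝ) ^ 2 := pow_le_pow_left₀ (by positivity) hcon 2
      have g3 : 0 < D ^ 2 := by positivity
      have e : (201 / 200 * D) ^ 2 = 40401 / 40000 * D ^ 2 := by ring
      rw [e] at g2
      linarith
    linarith
  exact ⟨h2, h3, h4, h5, h6, h7, h8⟩

/-- the bound for the multiplicities after raising -/
theorem few_B {D L μ r : ℝ} {d : ℕ} (hr : 1 ≤ r) (hμ : 1 ≤ μ) (hL0 : 0 ≤ L)
    (h1 : 1000 * r * μ ≤ D) (h2 : 1000 * μ ≤ D) (h5 : √L ≤ 11 / 200 * D)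
    (h6 : r * L ≤ 3 / 1000 * D ^ 2) (h7 : D ≤ d) :
    12 * (3 * μ + √L) ≤ d ∧ (16 * (3 * r) + 8) * (3 * μ + √L) ^ 2 ≤ (d : ℝ) ^ 2 := by
  have hμ0 : 0 < μ := by linarith
  have hD0 : 0 < D := by linarith
  refine ⟨by linarith, ?_⟩
  have hs : √L ^ 2 = L := Real.sq_sqrt hL0
  have g1 : (3 * μ + √L) ^ 2 ≤ 18 * μ ^ 2 + 2 * L := by
    nlinarith [sq_nonneg (3 * μ - √L)]
  have g2 : (16 * (3 * r) + 8) * (3 * μ + √L) ^ 2 ≤ (56 * r) * (18 * μ ^ 2 + 2 * L) :=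
    mul_le_mul (by linarith) g1 (sq_nonneg _) (by linarith)
  have g3 : 1000000 * (r * μ ^ 2) ≤ D ^ 2 := by
    have a1 : (1000 * r * μ) ^ 2 ≤ D ^ 2 := pow_le_pow_left₀ (by positivity) h1 2
    have a2 : 1000000 * (r * μ ^ 2) ≤ (1000 * r * μ) ^ 2 := by
      have e : (1000 * r * μ) ^ 2 = 1000000 * (r * (r * μ ^ 2)) := by ring
      rw [e]
      have : 1 * (r * μ ^ 2) ≤ r * (r * μ ^ 2) := mul_le_mul_of_nonneg_right hr (by positivity)
      linarith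
    linarith
  have g4 : D ^ 2 ≤ (d : ℝ) ^ 2 := pow_le_pow_left₀ hD0.le h7 2
  have e : (56 * r) * (18 * μ ^ 2 + 2 * L) = 1008 * (r * μ ^ 2) + 112 * (r * L) := by ring
  have g5 : 0 ≤ D ^ 2 := sq_nonneg _
  linarith

/-- the number of the rows and the height -/
theorem few_K {D μ r : ℝ} {d : ℕ} (hr : 1 ≤ r) (hμ : 1 ≤ μ) (h1 : 1000 * r * μ ≤ D)
    (h7 : D ≤ d) (h8 : (d : ℝ) + 3 ≤ 101 / 100 * D) : ∃ K : ℕ, 99 * r ≤ K ∧
      10 * (K : ℝ) * μ ≤ D ∧ 5 * μ ≤ ((d : ℝ) + 3 - 1 / (2 * K)) / (2 * K) ∧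
      ((d : ℝ) + 3 - 1 / (2 * K)) / (2 * K) ≤ 26 / 5 * μ := by
  have hμ0 : 0 < μ := by linarith
  have hrμ : μ ≤ r * μ := le_mul_of_one_le_left hμ0.le hr
  have hD0 : 0 < D := by linarith
  obtain ⟨z, hz⟩ : ∃ z : ℝ, z = D / (10 * μ) := ⟨_, rfl⟩
  have hz1 : 10 * μ * z = D := by rw [hz]; field_simp
  have hz100 : 100 * r ≤ z := by
    rw [hz, le_div_iff₀ (by positivity)]
    linarith
  obtain ⟨K, hK⟩ : ∃ K : ℕ, K = ⌊z⌋₊ := ⟨_, rfl⟩
  have hKz : (K : ℝ) ≤ z := by rw [hK]; exact Nat.floor_le (by linarith)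
  have hKz' : 99 / 100 * z ≤ K := by
    have := Nat.lt_floor_add_one z
    rw [← hK] at this
    linarith
  have hK1 : 1 ≤ (K : ℝ) := by linarith
  have hK0 : 0 < (K : ℝ) := by linarith
  have hKi : 1 / (2 * (K : ℝ)) ≤ 1 := by
    rw [div_le_one (by positivity)]
    linarith
  have hKi0 : 0 < 1 / (2 * (K : ℝ)) := by positivity
  refine ⟨K, by linarith, ?_, ?_, ?_⟩
  · rw [← hz1]
    have := mul_le_mul_of_nonneg_left hKz (show (0 : ℝ) ≤ 10 * μ by positivity)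
    linarith
  · rw [le_div_iff₀ (by positivity)]
    have := mul_le_mul_of_nonneg_left hKz (show (0 : ℝ) ≤ 10 * μ by positivity)
    linarith
  · rw [div_le_iff₀ (by positivity)]
    have g1 := mul_le_mul_of_nonneg_left hKz' (show (0 : ℝ) ≤ 10 * μ by positivity)
    have g2 : 10 * μ * (99 / 100 * z) = 99 / 100 * D := by rw [← hz1]; ring
    have g3 : 26 / 5 * μ * (2 * K) = 26 / 25 * (10 * μ * K) := by ring
    rw [g3]
    linarith

end Pool.Agent.Y205.FW
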