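import Pool.Agent.Y205.FW.Scd
import Pool.Agent.Y205.FW.Step

/-! **Exactness** of systems, and the recursion which doubles every class as often as wanted. -/

set_option autoImplicit false

namespace Pool.Agent.Y205.FW

open Finset Module Pool.Agent.TH176.Nag Pool.Agent.TH603.Sur Pool.Agent.TH763.DB Pool.Agent.TH2.NU
open Pool.Agent.Y205.MD
open Pool.Agent.TH387.SH (TF coe_TF card_TF)
open Pool.Agent.TH745.MN (TZ_mono)

/-- the conditions are as independent as possible -/
def Ex {ι : Type} [Fintype ι] (S : Finset (ℤ × ℤ)) (w : ι → ℕ) : Prop :=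
  crk S w ≤ S.card - cond w

theorem Ex_of_sum {ι κ : Type} [Fintype ι] [Fintype κ] {S : Finset (ℤ × ℤ)} {w : ι → ℕ}
    {v : κ → ℕ} (h : ∀ t : ℕ → ℕ, ∑ a, t (w a) = ∑ b, t (v b)) (hv : Ex S v) : Ex S w := by
  unfold Ex at hv ⊢
  rw [crk_of_sum h]
  have : cond w = cond v := h fun a => (a + 1).choose 2
  rw [this]
  exact hv

theorem Emp_of_Ex {ι : Type} [Fintype ι] {S : Finset (ℤ × ℤ)} {w : ι → ℕ} (h : Ex S w)
    (hc : S.card ≤ cond w) : Emp w (↑S : Set (ℤ × ℤ)) := by
  obtain ⟨T, h1, h2, h3⟩ := crk_spec S w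
  unfold Ex at h
  have : T = S := eq_of_subset_of_card_le h1 (by omega)
  rw [← this]
  exact h3

theorem Sur_of_Ex {ι : Type} [Fintype ι] {S : Finset (ℤ × ℤ)} {w : ι → ℕ} (h : Ex S w)
    (hc : cond w ≤ S.card) : Sur w (↑S : Set (ℤ × ℤ)) := by
  obtain ⟨T, h1, h2, h3⟩ := crk_spec S w
  unfold Ex at h
  obtain ⟨T', hT', hT'c⟩ := exists_subset_card_eq (show cond w ≤ T.card by omega)
  exact ⟨T', coe_subset.2 (hT'.trans h1), hT'c, h3.mono (coe_subset.2 hT')⟩

theorem Ex_of_Emp {ι : Type} [Fintype ι] {S : Finset (ℤ × ℤ)} {w : ι → ℕ}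
    (h : Emp w (↑S : Set (ℤ × ℤ))) : Ex S w := by
  unfold Ex
  rw [crk_zero_of_Emp h]
  exact Nat.zero_le _

theorem Ex_of_Sur {ι : Type} [Fintype ι] {S : Finset (ℤ × ℤ)} {w : ι → ℕ}
    (h : Sur w (↑S : Set (ℤ × ℤ))) : Ex S w := by
  have := crk_of_Sur h
  unfold Ex
  omega

theorem Ex_of_crit {n : ℕ} {w : Fin n → ℕ}
    (h : ∀ d, d * (d + 1) < 2 * ∑ p, (w p + 1).choose 2 →
      2 * ∑ p, (w p + 1).choose 2 ≤ (d + 2) * (d + 3) → Crit w d)
    (hpos : 0 < ∑ p, (w p + 1).choose 2) (d : ℕ) : Ex (TF d) w := by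
  rcases le_total ((d + 2).choose 2) (∑ p, (w p + 1).choose 2) with hd | hd
  · apply Ex_of_Emp
    rw [coe_TF]
    obtain ⟨T, hT⟩ : ∃ T, T = ∑ p, (w p + 1).choose 2 := ⟨_, rfl⟩
    rw [← hT] at h hpos hd
    have hc : ∀ d : ℕ, 2 * (d + 2).choose 2 = (d + 1) * (d + 2) := fun d =>
      Pool.Agent.TH2.NU.two_choose (d + 1)
    have hb : ∀ e, (e + 2).choose 2 ≤ T → e ≤ T := fun e he => by
      have h1 : e + 1 ≤ (e + 2).choose 2 := by
        rw [Nat.choose_succ_succ' (e + 1) 1, Nat.choose_one_right]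
        omega
      omega
    obtain ⟨e, he⟩ : ∃ e, e = Nat.findGreatest (fun e => (e + 2).choose 2 ≤ T) T := ⟨_, rfl⟩
    have h1 : (e + 2).choose 2 ≤ T := by
      rw [he]
      exact Nat.findGreatest_spec (P := fun e => (e + 2).choose 2 ≤ T) (hb d hd) hd
    have h2 : d ≤ e := by
      rw [he]
      exact Nat.le_findGreatest (hb d hd) hd
    have h3 : ¬ (e + 1 + 2).choose 2 ≤ T := by
      intro hcon
      have : e + 1 ≤ e := by
        conv_rhs => rw [he]
        exact Nat.le_findGreatest (hb _ hcon) hcon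
      omega
    have h4 := hc e
    have h5 := hc (e + 1)
    have h6 : e * (e + 1) < (e + 1) * (e + 2) := by nlinarith
    exact Emp.mono ((h e (by omega) (by
      have : (e + 1 + 1) * (e + 1 + 2) = (e + 2) * (e + 3) := by ring
      omega)).1 (by rw [← hT]; exact h1)) (TZ_mono h2)
  · apply Ex_of_Sur
    rw [coe_TF]
    exact sur_of_crit hpos h hd

/-- **Exact doubling** of one class. -/
theorem Ex_quads {N v : ℕ} (hN : 0 < N) {κ : Type} [Fintype κ] {e : κ → ℕ}
    {S : Finset (ℤ × ℤ)} (hpos : ∀ u ∈ S, 0 ≤ u.1 ∧ 0 ≤ u.2)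
    (h0 : Ex S (Sum.elim (fun _ : Fin N => 2 * v) e))
    (h1 : Ex S (Sum.elim (fun _ : Fin N => 2 * v + 1) e)) :
    Ex S (Sum.elim (fun _ : Fin N × (Fin 2 × Fin 2) => v) e) := by
  unfold Ex at h0 h1 ⊢
  have hc : ∀ u, cond (Sum.elim (fun _ : Fin N => u) e) = N * (u + 1).choose 2 + cond e := by
    intro u
    unfold Pool.Agent.TH603.Sur.cond
    rw [Fintype.sum_sum_type]
    simp only [Sum.elim_inl, Sum.elim_inr, sum_const, card_univ, Fintype.card_fin, smul_eq_mul]
  have hc4 : cond (Sum.elim (fun _ : Fin N × (Fin 2 × Fin 2) => v) e) =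
      N * (4 * (v + 1).choose 2) + cond e := by
    unfold Pool.Agent.TH603.Sur.cond
    rw [Fintype.sum_sum_type]
    simp only [Sum.elim_inl, Sum.elim_inr, sum_const, card_univ, Fintype.card_fin,
      Fintype.card_prod, smul_eq_mul]
    ring
  rw [hc] at h0 h1
  rw [hc4]
  have e1 := choose_four v
  have e2 : N * (4 * (v + 1).choose 2) = N * (2 * v + 1).choose 2 + N * v := by
    rw [e1]; ring
  have e3 : (2 * v + 1 + 1).choose 2 = (2 * v + 1).choose 2 + (2 * v + 1) := by
    rw [Nat.choose_succ_succ' (2 * v + 1) 1, Nat.choose_one_right]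
    ring
  have e4 : N * (2 * v + 1 + 1).choose 2 = N * (2 * v + 1).choose 2 + (N * v + N * (v + 1)) := by
    rw [e3]; ring
  apply crk_quads hN hpos
  · omega
  · omega

/-- a vector with given multiplicities -/
noncomputable def vec (M : Multiset ℕ) : Fin M.toList.length → ℕ := fun p => M.toList.get p

theorem sum_vec (M : Multiset ℕ) (t : ℕ → ℕ) : ∑ p, t (vec M p) = (M.map t).sum := by
  unfold vec
  have h := Fin.sum_univ_fun_getElem M.toList t
  simp only [List.get_eq_getElem]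
  rw [h]
  conv_rhs => rw [← Multiset.coe_toList M, Multiset.map_coe, Multiset.sum_coe]

/-- exactness for a multiset of multiplicities -/
def ExM (S : Finset (ℤ × ℤ)) (M : Multiset ℕ) : Prop := Ex S (vec M)

theorem ExM_iff {ι : Type} [Fintype ι] {S : Finset (ℤ × ℤ)} {w : ι → ℕ} {M : Multiset ℕ}
    (h : ∀ t : ℕ → ℕ, ∑ p, t (w p) = (M.map t).sum) : ExM S M ↔ Ex S w := by
  unfold ExM
  constructor
  · exact Ex_of_sum fun t => by rw [h, sum_vec]
  · exact Ex_of_sum fun t => by rw [h, sum_vec]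

theorem ExM_quads {N v : ℕ} {E : Multiset ℕ} {S : Finset (ℤ × ℤ)}
    (hpos : ∀ u ∈ S, 0 ≤ u.1 ∧ 0 ≤ u.2)
    (h0 : ExM S (Multiset.replicate N (2 * v) + E))
    (h1 : ExM S (Multiset.replicate N (2 * v + 1) + E)) :
    ExM S (Multiset.replicate (4 * N) v + E) := by
  rcases Nat.eq_zero_or_pos N with hN | hN
  · subst hN
    simpa using h0
  have hs : ∀ u, ∀ t : ℕ → ℕ, ∑ p, t (Sum.elim (fun _ : Fin N => u) (vec E) p) =
      ((Multiset.replicate N u + E).map t).sum := by
    intro u t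
    rw [Fintype.sum_sum_type, Multiset.map_add, Multiset.sum_add, Multiset.map_replicate,
      Multiset.sum_replicate, ← sum_vec]
    simp
  have hs4 : ∀ t : ℕ → ℕ, ∑ p, t (Sum.elim (fun _ : Fin N × (Fin 2 × Fin 2) => v) (vec E) p) =
      ((Multiset.replicate (4 * N) v + E).map t).sum := by
    intro t
    rw [Fintype.sum_sum_type, Multiset.map_add, Multiset.sum_add, Multiset.map_replicate,
      Multiset.sum_replicate, ← sum_vec]
    simp only [Sum.elim_inl, Sum.elim_inr, sum_const, card_univ, Fintype.card_fin,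
      Fintype.card_prod, smul_eq_mul]
    ring
  rw [ExM_iff (hs4)]
  exact Ex_quads hN hpos ((ExM_iff (hs _)).1 h0) ((ExM_iff (hs _)).1 h1)

/-- the result of `k` doublings of `N` points of multiplicity `v` -/
structure Good (k N v : ℕ) (F : Multiset ℕ) : Prop where
  card : 4 ^ k * F.card ≤ N + 3 * k * 4 ^ k
  vals : F.toFinset.card ≤ k + 1
  sq : N * v ^ 2 ≤ (F.map fun x => x ^ 2).sum
  max : ∀ x ∈ F, x + 1 ≤ 2 ^ k * (v + 1)
  pos : ∀ x ∈ F, 1 ≤ x

theorem good_step {k N v b : ℕ} {F : Multiset ℕ} (hv : 1 ≤ v) (hb : b ≤ 1)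
    (h : Good k (N / 4) (2 * v + b) F) : Good (k + 1) N v (F + Multiset.replicate (N % 4) v) := by
  have hN := Nat.div_add_mod N 4
  have hN4 : N % 4 ≤ 3 := by have := Nat.mod_lt N (show 0 < 4 by norm_num); omega
  refine ⟨?_, ?_, ?_, ?_, ?_⟩
  · rw [Multiset.card_add, Multiset.card_replicate]
    have h1 := h.card
    have e : 4 ^ (k + 1) * (F.card + N % 4) = 4 * (4 ^ k * F.card) + 4 ^ (k + 1) * (N % 4) := by ring
    have e2 : 3 * (k + 1) * 4 ^ (k + 1) = 4 * (3 * k * 4 ^ k) + 4 ^ (k + 1) * 3 := by ring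
    have h2 : 4 ^ (k + 1) * (N % 4) ≤ 4 ^ (k + 1) * 3 := Nat.mul_le_mul_left _ hN4
    rw [e, e2]
    omega
  · rw [Multiset.toFinset_add]
    refine (card_union_le _ _).trans ?_
    have h1 := h.vals
    have h2 : (Multiset.replicate (N % 4) v).toFinset.card ≤ 1 := by
      refine (card_le_card (Multiset.toFinset_subset.2 ?_ : _ ⊆ ({v} : Multiset ℕ).toFinset)).trans
        (by simp)
      intro x hx
      rw [Multiset.eq_of_mem_replicate hx]
      exact Multiset.mem_singleton_self v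
    omega
  · rw [Multiset.map_add, Multiset.sum_add, Multiset.map_replicate, Multiset.sum_replicate,
      smul_eq_mul]
    have h1 := h.sq
    have h2 : N / 4 * (2 * v) ^ 2 ≤ N / 4 * (2 * v + b) ^ 2 :=
      Nat.mul_le_mul_left _ (Nat.pow_le_pow_left (by omega) 2)
    have e : N * v ^ 2 = N / 4 * (2 * v) ^ 2 + N % 4 * v ^ 2 := by
      conv_lhs => rw [← hN]
      ring
    rw [e]
    omega
  · intro x hx
    have hk : 1 ≤ 2 ^ k := Nat.one_le_two_pow
    rcases Multiset.mem_add.1 hx with hx | hx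
    · refine (h.max x hx).trans ?_
      rw [pow_succ, mul_assoc]
      exact Nat.mul_le_mul_left _ (by omega)
    · rw [Multiset.eq_of_mem_replicate hx]
      have : 1 * (v + 1) ≤ 2 ^ (k + 1) * (v + 1) := Nat.mul_le_mul_right _ Nat.one_le_two_pow
      omega
  · intro x hx
    rcases Multiset.mem_add.1 hx with hx | hx
    · exact h.pos x hx
    · rw [Multiset.eq_of_mem_replicate hx]
      exact hv

theorem good_zero {N v : ℕ} (hv : 1 ≤ v) : Good 0 N v (Multiset.replicate N v) := by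
  refine ⟨by simp, ?_, by simp, ?_, ?_⟩
  · refine (card_le_card (Multiset.toFinset_subset.2 ?_ : _ ⊆ ({v} : Multiset ℕ).toFinset)).trans
      (by simp)
    intro x hx
    rw [Multiset.eq_of_mem_replicate hx]
    exact Multiset.mem_singleton_self v
  · intro x hx
    rw [Multiset.eq_of_mem_replicate hx]
    simp
  · intro x hx
    rw [Multiset.eq_of_mem_replicate hx]
    exact hv

/-- doubling one class `k` times -/
theorem class_rec {S : Finset (ℤ × ℤ)} (hpos : ∀ u ∈ S, 0 ≤ u.1 ∧ 0 ≤ u.2) (k : ℕ) :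
    ∀ {N v : ℕ} {E : Multiset ℕ}, 1 ≤ v → (∀ F, Good k N v F → ExM S (F + E)) →
      ExM S (Multiset.replicate N v + E) := by
  induction k with
  | zero =>
    intro N v E hv h
    exact h _ (good_zero hv)
  | succ k ih =>
    intro N v E hv h
    have hN := Nat.div_add_mod N 4
    have e : Multiset.replicate N v + E =
        Multiset.replicate (4 * (N / 4)) v + (Multiset.replicate (N % 4) v + E) := by
      rw [← add_assoc, ← Multiset.replicate_add, hN]
    rw [e]
    have key : ∀ b, b ≤ 1 → ExM S (Multiset.replicate (N / 4) (2 * v + b) +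
        (Multiset.replicate (N % 4) v + E)) := by
      intro b hb
      refine ih (by omega) fun F hF => ?_
      rw [← add_assoc]
      exact h _ (good_step hv hb hF)
    exact ExM_quads hpos (by simpa using key 0 (by norm_num)) (key 1 le_rfl)

/-- doubling all the classes -/
theorem classes_rec {S : Finset (ℤ × ℤ)} (hpos : ∀ u ∈ S, 0 ≤ u.1 ∧ 0 ≤ u.2) (kf Nf : ℕ → ℕ)
    (V : Finset ℕ) : ∀ {E : Multiset ℕ}, (∀ v ∈ V, 1 ≤ v) →
      (∀ F : ℕ → Multiset ℕ, (∀ v ∈ V, Good (kf v) (Nf v) v (F v)) →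
        ExM S (∑ v ∈ V, F v + E)) →
      ExM S (∑ v ∈ V, Multiset.replicate (Nf v) v + E) := by
  classical
  induction V using Finset.induction_on with
  | empty =>
    intro E _ h
    simpa using h (fun _ => 0) (by simp)
  | insert a V ha ih =>
    intro E hV h
    rw [sum_insert ha, add_assoc]
    refine class_rec hpos (kf a) (hV a (mem_insert_self _ _)) fun F0 hF0 => ?_
    have e : F0 + (∑ v ∈ V, Multiset.replicate (Nf v) v + E) =
        ∑ v ∈ V, Multiset.replicate (Nf v) v + (F0 + E) := by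
      rw [← add_assoc, ← add_assoc, add_comm F0]
    rw [e]
    refine ih (fun v hv => hV v (mem_insert_of_mem hv)) fun F hF => ?_
    have h1 := h (Function.update F a F0) (by
      intro v hv
      rcases mem_insert.1 hv with hva | hvV
      · subst hva
        rw [Function.update_self]
        exact hF0
      · have hne : v ≠ a := fun hva => ha (hva ▸ hvV)
        rw [Function.update_of_ne hne]
        exact hF v hvV)
    rw [sum_insert ha, Function.update_self] at h1
    have e2 : ∑ v ∈ V, Function.update F a F0 v = ∑ v ∈ V, F v := by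
      refine sum_congr rfl fun v hv => ?_
      have hne : v ≠ a := fun hva => ha (hva ▸ hv)
      rw [Function.update_of_ne hne]
    rw [e2] at h1
    have e3 : ∑ v ∈ V, F v + (F0 + E) = F0 + ∑ v ∈ V, F v + E := by
      rw [← add_assoc, add_comm (∑ v ∈ V, F v)]
    rw [e3]
    exact h1

end Pool.Agent.Y205.FW
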