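import Pool.Agent.Y205.MD.Main
import Pool.Agent.Y205.MD.Cls
import Pool.Agent.Y205.MD.Fint

/-! **Exact doubling** of one class: the corank of a system with four groups of `N` points of
multiplicity `v` is bounded by those with `N` points of multiplicities `2 v` and `2 v + 1`. -/

set_option autoImplicit false

namespace Pool.Agent.Y205.FW

open Finset Module Pool.Agent.TH176.Nag Pool.Agent.TH603.Sur Pool.Agent.TH763.DB Pool.Agent.TH2.NU
open Pool.Agent.TH941.DB
open Pool.Agent.Y205.MD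

theorem crk_equiv {ι κ : Type} {S : Finset (ℤ × ℤ)} {w : ι → ℕ} {v : κ → ℕ} (σ : ι ≃ κ)
    (h : ∀ i, w i = v (σ i)) : crk S w = crk S v := by
  apply le_antisymm
  · obtain ⟨T, h1, h2, h3⟩ := crk_spec S v
    exact crk_le ⟨T, h1, h2, Emp_equiv σ.symm (fun i => by rw [h, Equiv.apply_symm_apply]) h3⟩
  · obtain ⟨T, h1, h2, h3⟩ := crk_spec S w
    exact crk_le ⟨T, h1, h2, Emp_equiv σ h h3⟩

theorem crk_of_sum {ι κ : Type} [Fintype ι] [Fintype κ] {S : Finset (ℤ × ℤ)} {w : ι → ℕ}
    {v : κ → ℕ} (h : ∀ t : ℕ → ℕ, ∑ a, t (w a) = ∑ b, t (v b)) : crk S w = crk S v := by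
  obtain ⟨σ, hσ⟩ := exists_equiv_of_sum h
  exact crk_equiv σ hσ

/-- a convex sequence lies below its chord -/
theorem chord {g : ℕ → ℝ} {N : ℕ} (h : ∀ j, j + 2 ≤ N → 2 * g (j + 1) ≤ g j + g (j + 2)) :
    ∀ j ≤ N, (N : ℝ) * g j ≤ (N - j) * g 0 + j * g N := by
  -- the slopes
  have hs : ∀ i j, i ≤ j → j + 1 ≤ N → g (i + 1) - g i ≤ g (j + 1) - g j := by
    intro i j hij
    induction j, hij using Nat.le_induction with
    | base => intro _; exact le_rfl
    | succ j hij ih =>
      intro hj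
      have h1 := ih (by omega)
      have h2 := h j (by omega)
      have e : j + 2 = j + 1 + 1 := rfl
      rw [e] at h2
      linarith
  intro j hj
  rcases Nat.eq_zero_or_pos j with h0 | h0
  · subst h0
    simp
  obtain ⟨i, hi⟩ : ∃ i, j = i + 1 := ⟨j - 1, by omega⟩
  obtain ⟨s, hs'⟩ : ∃ s : ℝ, s = g (i + 1) - g i := ⟨_, rfl⟩
  have h1 : ∀ k, k ≤ i + 1 → g k - g 0 ≤ k * s := by
    intro k
    induction k with
    | zero => intro _; simp
    | succ k ih =>
      intro hk
      have h2 := ih (by omega)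
      have h3 := hs k i (by omega) (by omega)
      rw [← hs'] at h3
      push_cast
      linarith
  have h2 : ∀ k, i + 1 + k ≤ N → k * s ≤ g (i + 1 + k) - g (i + 1) := by
    intro k
    induction k with
    | zero => intro _; simp
    | succ k ih =>
      intro hk
      have h2 := ih (by omega)
      have h3 := hs i (i + 1 + k) (by omega) (by omega)
      rw [← hs'] at h3
      push_cast
      have e : i + 1 + (k + 1) = i + 1 + k + 1 := by ring
      rw [e]
      linarith
  have h3 := h1 (i + 1) le_rfl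
  have h4 := h2 (N - (i + 1)) (by omega)
  have e1 : i + 1 + (N - (i + 1)) = N := by omega
  have e2 : ((N - (i + 1) : ℕ) : ℝ) = N - j := by
    rw [Nat.cast_sub (by omega), hi]
  rw [e1, e2] at h4
  rw [← hi] at h3 h4
  have hj0 : (0 : ℝ) ≤ j := Nat.cast_nonneg _
  have hNj : (0 : ℝ) ≤ N - j := by
    have : (j : ℝ) ≤ N := by exact_mod_cast hj
    linarith
  have h5 := mul_le_mul_of_nonneg_left h3 hNj
  have h6 := mul_le_mul_of_nonneg_left h4 hj0
  have e3 : ((N : ℝ) - j) * (j * s) = j * ((N - j) * s) := by ring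
  rw [e3] at h5
  have h7 := h5.trans h6
  have e4 : ((N : ℝ) - j) * (g j - g 0) = N * g j - j * g j - (N - j) * g 0 := by ring
  have e5 : (j : ℝ) * (g N - g j) = j * g N - j * g j := by ring
  rw [e4, e5] at h7
  linarith

section
variable {N v : ℕ} {κ : Type} [Fintype κ] {e : κ → ℕ} {S : Finset (ℤ × ℤ)}

theorem sum_lv_card (v : ℕ) (J : Finset (Fin N)) (t : ℕ → ℕ) :
    ∑ i, t (lv (fun _ : Fin N => 2 * v) J i) = J.card * t (2 * v + 1) + (N - J.card) * t (2 * v) := by
  classical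
  rw [← sum_add_sum_compl J]
  have h1 : ∑ i ∈ J, t (lv (fun _ : Fin N => 2 * v) J i) = J.card * t (2 * v + 1) := by
    rw [sum_congr rfl fun i hi => by rw [lv_mem hi], sum_const, smul_eq_mul]
  have h2 : ∑ i ∈ Jᶜ, t (lv (fun _ : Fin N => 2 * v) J i) = (N - J.card) * t (2 * v) := by
    rw [sum_congr rfl fun i hi => by rw [lv_not (mem_compl.1 hi)], sum_const, smul_eq_mul,
      card_compl, Fintype.card_fin]
  rw [h1, h2]

theorem crk_card (J J' : Finset (Fin N)) (h : J.card = J'.card) :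
    crk S (wB (fun _ : Fin N => 2 * v) e J) = crk S (wB (fun _ : Fin N => 2 * v) e J') := by
  apply crk_of_sum
  intro t
  unfold wB
  rw [Fintype.sum_sum_type, Fintype.sum_sum_type]
  simp only [Sum.elim_inl, Sum.elim_inr]
  rw [sum_lv_card, sum_lv_card, h]

/-- the corank of a partial raising lies below the chord -/
theorem crk_chord (hpos : ∀ u ∈ S, 0 ≤ u.1 ∧ 0 ≤ u.2) (J : Finset (Fin N)) :
    (N : ℝ) * crk S (wB (fun _ : Fin N => 2 * v) e J) ≤
      (N - J.card) * crk S (wB (fun _ : Fin N => 2 * v) e ∅) +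
        J.card * crk S (wB (fun _ : Fin N => 2 * v) e univ) := by
  classical
  obtain ⟨F, hF⟩ : ∃ F : ℕ → Finset (Fin N), ∀ j, F j = univ.filter fun i : Fin N => (i : ℕ) < j :=
    ⟨_, fun _ => rfl⟩
  have hFc : ∀ j ≤ N, (F j).card = j := by
    intro j hj
    rw [hF, Fin.card_filter_val_lt]
    exact min_eq_right hj
  obtain ⟨g, hg⟩ : ∃ g : ℕ → ℝ, ∀ j, g j = crk S (wB (fun _ : Fin N => 2 * v) e (F j)) :=
    ⟨_, fun _ => rfl⟩
  have hconv : ∀ j, j + 2 ≤ N → 2 * g (j + 1) ≤ g j + g (j + 2) := by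
    intro j hj
    obtain ⟨k, hk⟩ : ∃ k : Fin N, (k : ℕ) = j := ⟨⟨j, by omega⟩, rfl⟩
    obtain ⟨l, hl⟩ : ∃ l : Fin N, (l : ℕ) = j + 1 := ⟨⟨j + 1, by omega⟩, rfl⟩
    have hkl : k ≠ l := fun h => by rw [h] at hk; omega
    have hkF : k ∉ F j := by rw [hF, mem_filter]; omega
    have hlF : l ∉ F j := by rw [hF, mem_filter]; omega
    have hup : ∀ J : Finset (Fin N), k ∉ J →
        Function.update (wB (fun _ : Fin N => 2 * v) e J) (Sum.inl k) (2 * v + 1) =
          wB (fun _ : Fin N => 2 * v) e (insert k J) := by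
      intro J hkJ
      funext x
      rcases x with i | i
      · by_cases hi : i = k
        · subst hi
          rw [Function.update_self]
          exact (lv_mem (b := fun _ : Fin N => 2 * v) (mem_insert_self i J)).symm
        · rw [Function.update_of_ne (by simp [hi])]
          simp only [wB, Sum.elim_inl]
          unfold lv
          simp [mem_insert, hi]
      · rw [Function.update_of_ne (by simp)]
        rfl
    have h1 := crk_super hpos (w := wB (fun _ : Fin N => 2 * v) e (F j))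
      (w' := wB (fun _ : Fin N => 2 * v) e (insert l (F j))) (by
        rintro (i | i)
        · exact lv_mono (b := fun _ : Fin N => 2 * v) (subset_insert l (F j)) i
        · exact le_rfl) (Sum.inl k) (2 * v + 1) (by
        simp only [wB, Sum.elim_inl]
        exact lv_le _ _ _)
    rw [hup _ hkF, hup _ (by rw [mem_insert]; push Not; exact ⟨hkl, hkF⟩)] at h1
    have e1 : crk S (wB (fun _ : Fin N => 2 * v) e (insert l (F j))) =
        crk S (wB (fun _ : Fin N => 2 * v) e (F (j + 1))) :=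
      crk_card _ _ (by rw [card_insert_of_notMem hlF, hFc _ (by omega), hFc _ (by omega)])
    have e2 : crk S (wB (fun _ : Fin N => 2 * v) e (insert k (F j))) =
        crk S (wB (fun _ : Fin N => 2 * v) e (F (j + 1))) :=
      crk_card _ _ (by rw [card_insert_of_notMem hkF, hFc _ (by omega), hFc _ (by omega)])
    have e3 : crk S (wB (fun _ : Fin N => 2 * v) e (insert k (insert l (F j)))) =
        crk S (wB (fun _ : Fin N => 2 * v) e (F (j + 2))) :=
      crk_card _ _ (by
        rw [card_insert_of_notMem (by rw [mem_insert]; push Not; exact ⟨hkl, hkF⟩),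
          card_insert_of_notMem hlF, hFc _ (by omega), hFc _ (by omega)])
    rw [e1, e2, e3] at h1
    rw [hg, hg, hg]
    have h2 : ((crk S (wB (fun _ : Fin N => 2 * v) e (F (j + 1))) +
        crk S (wB (fun _ : Fin N => 2 * v) e (F (j + 1))) : ℕ) : ℝ) ≤
        ((crk S (wB (fun _ : Fin N => 2 * v) e (F j)) +
          crk S (wB (fun _ : Fin N => 2 * v) e (F (j + 2))) : ℕ) : ℝ) := by exact_mod_cast h1
    push_cast at h2
    linarith
  have hJ : J.card ≤ N := by
    have := card_le_univ J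
    rwa [Fintype.card_fin] at this
  have key := chord hconv J.card hJ
  rw [hg, hg, hg] at key
  have e1 : crk S (wB (fun _ : Fin N => 2 * v) e (F J.card)) =
      crk S (wB (fun _ : Fin N => 2 * v) e J) := crk_card _ _ (hFc _ hJ)
  have e2 : crk S (wB (fun _ : Fin N => 2 * v) e (F 0)) =
      crk S (wB (fun _ : Fin N => 2 * v) e ∅) := crk_card _ _ (by rw [hFc _ (by omega)]; simp)
  have e3 : crk S (wB (fun _ : Fin N => 2 * v) e (F N)) =
      crk S (wB (fun _ : Fin N => 2 * v) e univ) := crk_card _ _ (by rw [hFc _ le_rfl]; simp)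
  rw [e1, e2, e3] at key
  exact key

end

/-- the cluster system over some field, the corank at one set of raised points -/
theorem exists_cluJ {N : ℕ} {b : Fin N → ℕ} {I : Fin N → Finset ℕ}
    (hI : ∀ i, I i ⊆ range (b i + 1)) {κ : Type} [Finite κ]
    {e : κ → ℕ} {S : Finset (ℤ × ℤ)} (hpos : ∀ u ∈ S, 0 ≤ u.1 ∧ 0 ≤ u.2) :
    ∃ (K : Type) (_ : Field K) (_ : CharZero K) (x y : Fin N → K) (x' y' : κ → K)
      (D E : Fin N → K × K),
      (∀ i, x i ≠ 0) ∧ (∀ i, y i ≠ 0) ∧ (∀ i, x' i ≠ 0) ∧ (∀ i, y' i ≠ 0) ∧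
      (∀ i, (D i).1 * (E i).2 - (D i).2 * (E i).1 ≠ 0) ∧ ∃ J : Finset (Fin N),
      finrank K ↥(Sys S x' y' e ⊓ ⨅ i, CluB (x i) (y i) (D i) (E i) (b i) (I i)) ≤
        crk S (wB b e J) - ∑ i ∈ Jᶜ, (I i).card := by
  classical
  have key : ∀ J : Finset (Fin N), BC S (fun i => gp (Fin N ⊕ κ) (Sum.inl i, 0))
      (fun i => gp (Fin N ⊕ κ) (Sum.inl i, 1)) (fun i => gp (Fin N ⊕ κ) (Sum.inr i, 0))
      (fun i => gp (Fin N ⊕ κ) (Sum.inr i, 1)) e b J = GS S (wB b e J) := by
    intro J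
    unfold BC GS
    congr 1
    · funext i
      rcases i with i | i <;> rfl
    · funext i
      rcases i with i | i <;> rfl
  obtain ⟨x, hx⟩ : ∃ x : Fin N → GK (Fin N ⊕ κ), x = fun i => gp (Fin N ⊕ κ) (Sum.inl i, 0) :=
    ⟨_, rfl⟩
  obtain ⟨y, hy⟩ : ∃ y : Fin N → GK (Fin N ⊕ κ), y = fun i => gp (Fin N ⊕ κ) (Sum.inl i, 1) :=
    ⟨_, rfl⟩
  obtain ⟨x', hx'⟩ : ∃ x' : κ → GK (Fin N ⊕ κ), x' = fun i => gp (Fin N ⊕ κ) (Sum.inr i, 0) :=
    ⟨_, rfl⟩
  obtain ⟨y', hy'⟩ : ∃ y' : κ → GK (Fin N ⊕ κ), y' = fun i => gp (Fin N ⊕ κ) (Sum.inr i, 1) :=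
    ⟨_, rfl⟩
  rw [← hx, ← hy, ← hx', ← hy'] at key
  obtain ⟨D, E, hDE, hJ⟩ := cluB_step hI (e := e) (S := S) x y x' y' Finset.univ
  refine ⟨GK (Fin N ⊕ κ), inferInstance, inferInstance, x, y, x', y', D, E,
    fun i => by rw [hx]; exact gp_ne _,
    fun i => by rw [hy]; exact gp_ne _, fun i => by rw [hx']; exact gp_ne _,
    fun i => by rw [hy']; exact gp_ne _, fun i => hDE i (Finset.mem_univ i), ?_⟩
  obtain ⟨J, -, hJ1⟩ := hJ ∅ (Finset.disjoint_empty_right _)
  have hle : Sys S x' y' e ⊓ ⨅ i, CluB (x i) (y i) (D i) (E i) (b i) (I i) ≤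
      BC S x y x' y' e b ∅ ⊓ ⨅ i ∈ (Finset.univ : Finset (Fin N)),
        OdI (x i) (y i) (D i) (E i) (b i) (I i) := by
    rintro f ⟨hf1, hf2⟩
    simp only [SetLike.mem_coe, Submodule.mem_iInf] at hf2
    have hf12 := hf1.2
    simp only [SetLike.mem_coe, Submodule.mem_iInf] at hf12
    refine ⟨⟨hf1.1, ?_⟩, ?_⟩
    · simp only [SetLike.mem_coe, Submodule.mem_iInf]
      intro i
      rcases i with i | i
      · simp only [wB, Sum.elim_inl]
        rw [lv_not (Finset.notMem_empty i)]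
        exact (hf2 i).1
      · exact hf12 i
    · simp only [SetLike.mem_coe, Submodule.mem_iInf]
      intro i _
      exact (hf2 i).2
  have h1 := finrank_le_of_le (S := S) (inf_le_left.trans (BC_le S x y x' y' e b ∅)) hle
  have h2 := h1.trans hJ1
  rw [Finset.union_empty, ← Finset.compl_eq_univ_sdiff, key J, finrank_GS hpos] at h2
  exact ⟨J, h2⟩

/-- **Exact doubling** of one class. -/
theorem crk_quads {N v : ℕ} (hN : 0 < N) {κ : Type} [Fintype κ] {e : κ → ℕ}
    {S : Finset (ℤ × ℤ)} (hpos : ∀ u ∈ S, 0 ≤ u.1 ∧ 0 ≤ u.2) {c : ℕ}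
    (h0 : crk S (Sum.elim (fun _ : Fin N => 2 * v) e) ≤ c + N * v)
    (h1 : crk S (Sum.elim (fun _ : Fin N => 2 * v + 1) e) ≤ c) :
    crk S (Sum.elim (fun _ : Fin N × (Fin 2 × Fin 2) => v) e) ≤ c := by
  classical
  obtain ⟨b, hb⟩ : ∃ b : Fin N → ℕ, b = fun _ => 2 * v := ⟨_, rfl⟩
  have hbi : ∀ i, b i = 2 * v := fun i => by rw [hb]
  have hc0 : crk S (wB b e ∅) ≤ c + N * v := by
    have : wB b e ∅ = Sum.elim (fun _ : Fin N => 2 * v) e := by
      have e1 : lv b ∅ = fun _ : Fin N => 2 * v := funext fun i => by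
        rw [lv_not (notMem_empty i), hbi]
      unfold wB
      rw [e1]
    rw [this]
    exact h0
  have hc1 : crk S (wB b e univ) ≤ c := by
    have : wB b e univ = Sum.elim (fun _ : Fin N => 2 * v + 1) e := by
      have e1 : lv b univ = fun _ : Fin N => 2 * v + 1 := funext fun i => by
        rw [lv_mem (mem_univ i), hbi]
      unfold wB
      rw [e1]
    rw [this]
    exact h1
  have hcI : ∀ i, (II (b i)).card = v := fun i => by rw [card_II, hbi]; omega
  obtain ⟨K, _, _, x, y, x', y', D, E, hx, hy, hx', hy', hDE, J, hfr⟩ :=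
    exists_cluJ (I := fun i => II (b i)) (fun i => II_sub (b i)) (e := e) (S := S) hpos
  have hJN : J.card ≤ N := by
    have := card_le_univ J
    rwa [Fintype.card_fin] at this
  have hfr2 : finrank K ↥(Sys S x' y' e ⊓ ⨅ i, CluB (x i) (y i) (D i) (E i) (b i) (II (b i))) ≤
      c := by
    refine hfr.trans ?_
    simp only [hcI]
    rw [sum_const, card_compl, Fintype.card_fin, smul_eq_mul]
    have hch := crk_chord (v := v) (e := e) hpos J
    rw [← hb] at hch
    have g0 : (crk S (wB b e ∅) : ℝ) ≤ c + N * v := by exact_mod_cast hc0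
    have g1 : (crk S (wB b e univ) : ℝ) ≤ c := by exact_mod_cast hc1
    have hNJ : ((N - J.card : ℕ) : ℝ) = N - J.card := Nat.cast_sub hJN
    have hNJ0 : (0 : ℝ) ≤ (N : ℝ) - J.card := by rw [← hNJ]; exact Nat.cast_nonneg _
    have g2 := mul_le_mul_of_nonneg_left g0 hNJ0
    have g3 := mul_le_mul_of_nonneg_left g1 (show (0 : ℝ) ≤ J.card from Nat.cast_nonneg _)
    have hN0 : (0 : ℝ) < N := by exact_mod_cast hN
    have g4 : (N : ℝ) * crk S (wB b e J) ≤ N * (c + (N - J.card) * v) := by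
      have e1 : ((N : ℝ) - J.card) * (c + N * v) = N * (c + (N - J.card) * v) - J.card * c := by
        ring
      linarith
    have g5 : (crk S (wB b e J) : ℝ) ≤ c + (N - J.card) * v := le_of_mul_le_mul_left g4 hN0
    have g6 : crk S (wB b e J) ≤ c + (N - J.card) * v := by
      have : (crk S (wB b e J) : ℝ) ≤ ((c + (N - J.card) * v : ℕ) : ℝ) := by
        push_cast
        rw [hNJ]
        exact g5
      exact_mod_cast this
    omega
  -- the set of exponents
  rcases le_or_gt S.card c with hSc | hSc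
  · exact (crk_le ⟨∅, empty_subset _, by simp, Emp_nil _⟩ : crk S _ ≤ S.card).trans hSc
  have hform : ∀ S' : Finset (ℤ × ℤ), Sys S' x' y' e ⊓
      ⨅ i, CluB (x i) (y i) (D i) (E i) (b i) (II (b i)) =
      Finsupp.supported K K (↑S' : Set (ℤ × ℤ)) ⊓
        ((⨅ j, Mul (x' j) (y' j) (e j)) ⊓
          ⨅ i, CluB (x i) (y i) (D i) (E i) (b i) (II (b i))) := by
    intro S'
    unfold Sys
    rw [inf_assoc]
  rw [hform] at hfr2
  obtain ⟨T', hT'S, hT'c, hT'⟩ := exists_sub S _ hfr2 hSc.le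
  rw [← hform] at hT'
  refine crk_le ⟨T', hT'S, hT'c, ?_⟩
  have hE : Emp (Sum.elim (fun p : Fin N × (Fin 2 × Fin 2) => qv (b p.1) p.2) e)
      (↑T' : Set (ℤ × ℤ)) := by
    refine collideG (w := fun i p => qv (b i) p)
      (fun i => {kl | kl.1 + kl.2 < b i ∨ (kl.1 + kl.2 = b i ∧ Odd kl.2)}) ?_
      x y x' y' hx hy hx' hy' D E T' ?_
    · rintro i ⟨k, l⟩ hkl ⟨a, c⟩ p q h1 h2
      simp only [Set.mem_ofPred_eq] at hkl
      simp only at h1 h2
      unfold qv
      simp only
      have := a.2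
      have := c.2
      rcases hkl with hkl | ⟨hkl, i, hi⟩
      · omega
      · omega
    · rw [eq_bot_iff, ← hT']
      refine inf_le_inf_left _ (iInf_mono fun i f hf => ?_)
      simp only [Submodule.mem_iInf] at hf
      refine ⟨?_, ?_⟩
      · rw [SetLike.mem_coe, mem_Mul]
        apply LM_of_qq (hDE i)
        intro k l hkl
        exact hf (k, l) (Or.inl hkl)
      · unfold OdI
        rw [SetLike.mem_coe]
        simp only [Submodule.mem_iInf]
        intro k hk
        unfold II at hk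
        rw [mem_filter, mem_range] at hk
        exact hf (k, b i - k) (Or.inr ⟨by simp only; omega, hk.2⟩)
  have hq : (fun p : Fin N × (Fin 2 × Fin 2) => qv (b p.1) p.2) = fun _ => v := by
    funext p
    unfold qv
    have := p.2.1.2
    rw [hbi]
    omega
  rw [hq] at hE
  exact hE

end Pool.Agent.Y205.FW
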